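import Mathlib
set_option autoImplicit false

/-! Moments of one dimensional complex Gaussians `exp (-(1 - iα) u² + i b u)`. -/

namespace Pool.Agent.J6H28.PL

open MeasureTheory Set Complex
open scoped ENNReal NNReal

/-- the Gaussian factor -/
noncomputable def ge (α b u : ℝ) : ℂ := cexp (-((1 : ℂ) - α * I) * (u : ℂ) ^ 2 + (b : ℂ) * I * u)

/-- the moments -/
noncomputable def gi (n : ℕ) (α b : ℝ) : ℂ := ∫ u : ℝ, (u : ℂ) ^ n * ge α b u

/-- `|1 - iα|` -/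
noncomputable def PP (α : ℝ) : ℝ := Real.sqrt (1 + α ^ 2)

lemma PP_ge_one (α : ℝ) : 1 ≤ PP α := by
  unfold PP
  rw [Real.one_le_sqrt]
  nlinarith [sq_nonneg α]

lemma PP_pos (α : ℝ) : 0 < PP α := lt_of_lt_of_le one_pos (PP_ge_one α)

lemma PP_sq (α : ℝ) : PP α ^ 2 = 1 + α ^ 2 := by
  unfold PP
  rw [Real.sq_sqrt]
  positivity

lemma norm_p (α : ℝ) : ‖(1 : ℂ) - α * I‖ = PP α := by
  rw [Complex.norm_eq_sqrt_sq_add_sq]
  unfold PP
  simp

lemma norm_ge (α b u : ℝ) : ‖ge α b u‖ = Real.exp (-u ^ 2) := by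
  unfold ge
  rw [Complex.norm_exp]
  congr 1
  have : -((1 : ℂ) - α * I) * (u : ℂ) ^ 2 + (b : ℂ) * I * u =
      ((-u ^ 2 : ℝ) : ℂ) + ((α * u ^ 2 + b * u : ℝ) : ℂ) * I := by push_cast; ring
  rw [this, Complex.add_re, Complex.ofReal_re, Complex.re_ofReal_mul, Complex.I_re, mul_zero,
    add_zero]

lemma ge_cont (α b : ℝ) : Continuous (ge α b) := by
  unfold ge
  fun_prop

lemma pow_gauss_integrable (n : ℕ) : Integrable (fun u : ℝ => |u| ^ n * Real.exp (-u ^ 2)) := by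
  have h := integrable_rpow_mul_exp_neg_mul_sq (b := 1) one_pos (s := (n : ℝ)) (by
    have : (0 : ℝ) ≤ n := Nat.cast_nonneg n
    linarith)
  refine (h.norm).congr (Filter.Eventually.of_forall fun u => ?_)
  simp only [norm_mul, Real.norm_eq_abs, Real.abs_exp, Real.rpow_natCast, abs_pow]
  congr 2
  ring

lemma gi_integrable (n : ℕ) (α b : ℝ) : Integrable (fun u : ℝ => (u : ℂ) ^ n * ge α b u) := by
  refine (pow_gauss_integrable n).mono' (by
    exact ((Complex.continuous_ofReal.pow n).mul (ge_cont α b)).aestronglyMeasurable) ?_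
  refine Filter.Eventually.of_forall fun u => ?_
  rw [norm_mul, norm_pow, norm_ge, Complex.norm_real, Real.norm_eq_abs]

lemma gi_zero (α b : ℝ) :
    gi 0 α b = (Real.pi / ((1 : ℂ) - α * I)) ^ (1 / 2 : ℂ) *
      cexp (-((b : ℂ) ^ 2 / (4 * ((1 : ℂ) - α * I)))) := by
  have hre : (-((1 : ℂ) - α * I)).re < 0 := by simp
  have h := integral_cexp_quadratic hre ((b : ℂ) * I) 0
  have hne : ((1 : ℂ) - α * I) ≠ 0 := by
    intro h0
    have := congrArg Complex.re h0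
    simp at this
  unfold gi ge
  rw [show (fun u : ℝ => (u : ℂ) ^ 0 * cexp (-((1 : ℂ) - α * I) * (u : ℂ) ^ 2 + (b : ℂ) * I * u)) =
    fun u : ℝ => cexp (-((1 : ℂ) - α * I) * (u : ℂ) ^ 2 + (b : ℂ) * I * u + 0) by
      funext u; rw [pow_zero, one_mul, add_zero]]
  rw [h, neg_neg]
  congr 2
  rw [mul_pow, I_sq]
  field_simp
  ring

lemma norm_gi_zero (α b : ℝ) : ‖gi 0 α b‖ ≤ Real.sqrt (Real.pi / PP α) := by
  rw [gi_zero, norm_mul]
  have hne : ((1 : ℂ) - α * I) ≠ 0 := by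
    intro h0
    have := congrArg Complex.re h0
    simp at this
  have h1 : ‖((Real.pi : ℂ) / ((1 : ℂ) - α * I)) ^ (1 / 2 : ℂ)‖ = Real.sqrt (Real.pi / PP α) := by
    have : (1 / 2 : ℂ) = ((1 / 2 : ℝ) : ℂ) := by push_cast; ring
    rw [this, Complex.norm_cpow_real, norm_div, norm_p, Complex.norm_real, Real.norm_eq_abs,
      abs_of_pos Real.pi_pos, Real.sqrt_eq_rpow]
  rw [h1]
  have h2 : ‖cexp (-((b : ℂ) ^ 2 / (4 * ((1 : ℂ) - α * I))))‖ ≤ 1 := by
    rw [Complex.norm_exp, Real.exp_le_one_iff]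
    have h3 : ((b : ℂ) ^ 2 / (4 * ((1 : ℂ) - α * I))) =
        ((b ^ 2 / (4 * (1 + α ^ 2)) : ℝ) : ℂ) * (1 + α * I) := by
      have h4 : ((1 : ℂ) - α * I) * (1 + α * I) = ((1 + α ^ 2 : ℝ) : ℂ) := by
        push_cast
        ring_nf
        rw [I_sq]
        ring
      have h5 : (((1 + α ^ 2 : ℝ)) : ℂ) ≠ 0 := by
        rw [← h4]
        refine mul_ne_zero hne ?_
        intro h0
        have := congrArg Complex.re h0
        simp at this
      rw [div_eq_iff (mul_ne_zero (by norm_num) hne)]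
      push_cast at h4 h5 ⊢
      rw [mul_assoc, mul_comm (1 + (α : ℂ) * I), mul_assoc 4, h4]
      field_simp
    rw [h3, Complex.neg_re, Complex.re_ofReal_mul]
    simp
    positivity
  calc _ ≤ Real.sqrt (Real.pi / PP α) * 1 := by gcongr
    _ = _ := mul_one _

/-- recursion for the moments -/
lemma gi_rec (n : ℕ) (α b : ℝ) :
    2 * ((1 : ℂ) - α * I) * gi (n + 1) α b = n * gi (n - 1) α b + b * I * gi n α b := by
  have hd : ∀ u : ℝ, HasDerivAt (fun u : ℝ => (u : ℂ) ^ n * ge α b u)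
      ((n : ℂ) * ((u : ℂ) ^ (n - 1) * ge α b u) + (-(2 * ((1 : ℂ) - α * I)) *
        ((u : ℂ) ^ (n + 1) * ge α b u) + b * I * ((u : ℂ) ^ n * ge α b u))) u := by
    intro u
    have h1 : HasDerivAt (fun z : ℂ => z ^ n * cexp (-((1 : ℂ) - α * I) * z ^ 2 + (b : ℂ) * I * z))
        ((n : ℂ) * ((u : ℂ) ^ (n - 1) * ge α b u) + (-(2 * ((1 : ℂ) - α * I)) *
        ((u : ℂ) ^ (n + 1) * ge α b u) + b * I * ((u : ℂ) ^ n * ge α b u))) (u : ℂ) := by
      have h2 := (hasDerivAt_pow n (u : ℂ)).mul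
        ((((hasDerivAt_pow 2 (u : ℂ)).const_mul (-((1 : ℂ) - α * I))).add
          ((hasDerivAt_id (u : ℂ)).const_mul ((b : ℂ) * I))).cexp)
      refine h2.congr_deriv ?_
      simp only [Nat.cast_ofNat, Nat.add_one_sub_one, pow_one, mul_one, id_eq, ge, Pi.pow_apply,
        Pi.add_apply, Pi.mul_apply]
      ring
    exact h1.comp_ofReal
  have hi : Integrable (fun u : ℝ => (n : ℂ) * ((u : ℂ) ^ (n - 1) * ge α b u) +
      (-(2 * ((1 : ℂ) - α * I)) * ((u : ℂ) ^ (n + 1) * ge α b u) +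
        b * I * ((u : ℂ) ^ n * ge α b u))) :=
    ((gi_integrable (n - 1) α b).const_mul _).add
      (((gi_integrable (n + 1) α b).const_mul _).add ((gi_integrable n α b).const_mul _))
  have h0 := integral_eq_zero_of_hasDerivAt_of_integrable hd hi (gi_integrable n α b)
  have e1 := integral_add ((gi_integrable (n - 1) α b).const_mul (n : ℂ))
      (((gi_integrable (n + 1) α b).const_mul (-(2 * ((1 : ℂ) - α * I)))).add
        ((gi_integrable n α b).const_mul ((b : ℂ) * I)))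
  have e2 := integral_add ((gi_integrable (n + 1) α b).const_mul (-(2 * ((1 : ℂ) - α * I))))
    ((gi_integrable n α b).const_mul ((b : ℂ) * I))
  simp only [Pi.add_apply] at e1 e2
  rw [e1, e2, integral_const_mul, integral_const_mul, integral_const_mul] at h0
  change (n : ℂ) * gi (n - 1) α b + (-(2 * ((1 : ℂ) - α * I)) * gi (n + 1) α b +
    b * I * gi n α b) = 0 at h0
  linear_combination -h0

lemma gi_rec_norm (n : ℕ) (α b : ℝ) :
    2 * PP α * ‖gi (n + 1) α b‖ ≤ n * ‖gi (n - 1) α b‖ + |b| * ‖gi n α b‖ := by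
  have h := congrArg norm (gi_rec n α b)
  rw [norm_mul, norm_mul, norm_p] at h
  have h2 : ‖(2 : ℂ)‖ = 2 := by norm_num
  rw [h2] at h
  rw [h]
  refine (norm_add_le _ _).trans (le_of_eq ?_)
  rw [norm_mul, norm_mul, norm_mul, Complex.norm_natCast, Complex.norm_real, Complex.norm_I,
    mul_one, Real.norm_eq_abs]

/-- bounds for the second and the fourth moment -/
lemma gi_bounds (α b κ : ℝ) (hκ : 0 ≤ κ) (hb : |b| ≤ κ * PP α) :
    ‖gi 2 α b‖ ≤ ‖gi 0 α b‖ * (1 / (2 * PP α) + κ ^ 2 / 4) ∧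
    ‖gi 4 α b‖ ≤ ‖gi 0 α b‖ * (3 / (4 * PP α ^ 2) + 3 * κ ^ 2 / (4 * PP α) + κ ^ 4 / 16) := by
  have hP := PP_pos α
  set P := PP α with hPdef
  have h1 := gi_rec_norm 0 α b
  have h2 := gi_rec_norm 1 α b
  have h3 := gi_rec_norm 2 α b
  have h4 := gi_rec_norm 3 α b
  norm_num at h1 h2 h3 h4
  rw [← hPdef] at h1 h2 h3 h4
  set x0 := ‖gi 0 α b‖ with hx0
  set x1 := ‖gi 1 α b‖ with hx1
  set x2 := ‖gi 2 α b‖ with hx2
  set x3 := ‖gi 3 α b‖ with hx3
  set x4 := ‖gi 4 α b‖ with hx4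
  have p0 : 0 ≤ x0 := norm_nonneg _
  have p1 : 0 ≤ x1 := norm_nonneg _
  have p2 : 0 ≤ x2 := norm_nonneg _
  have p3 : 0 ≤ x3 := norm_nonneg _
  have q1 : x1 ≤ κ / 2 * x0 := by
    have : 2 * P * x1 ≤ 2 * P * (κ / 2 * x0) := by
      calc 2 * P * x1 ≤ |b| * x0 := h1
        _ ≤ κ * P * x0 := by gcongr
        _ = _ := by ring
    exact le_of_mul_le_mul_left this (by positivity)
  have q2 : x2 ≤ x0 * (1 / (2 * P) + κ ^ 2 / 4) := by
    have : 2 * P * x2 ≤ 2 * P * (x0 * (1 / (2 * P) + κ ^ 2 / 4)) := by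
      calc 2 * P * x2 ≤ x0 + |b| * x1 := h2
        _ ≤ x0 + κ * P * (κ / 2 * x0) := by gcongr
        _ = _ := by field_simp; ring
    exact le_of_mul_le_mul_left this (by positivity)
  have q3 : x3 ≤ x0 * (3 * κ / (4 * P) + κ ^ 3 / 8) := by
    have : 2 * P * x3 ≤ 2 * P * (x0 * (3 * κ / (4 * P) + κ ^ 3 / 8)) := by
      calc 2 * P * x3 ≤ 2 * x1 + |b| * x2 := h3
        _ ≤ 2 * (κ / 2 * x0) + κ * P * (x0 * (1 / (2 * P) + κ ^ 2 / 4)) := by gcongr
        _ = _ := by field_simp; ring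
    exact le_of_mul_le_mul_left this (by positivity)
  refine ⟨q2, ?_⟩
  have : 2 * P * x4 ≤ 2 * P * (x0 * (3 / (4 * P ^ 2) + 3 * κ ^ 2 / (4 * P) + κ ^ 4 / 16)) := by
    calc 2 * P * x4 ≤ 3 * x2 + |b| * x3 := h4
      _ ≤ 3 * (x0 * (1 / (2 * P) + κ ^ 2 / 4)) + κ * P * (x0 * (3 * κ / (4 * P) + κ ^ 3 / 8)) := by
        gcongr
      _ = _ := by field_simp; ring
  exact le_of_mul_le_mul_left this (by positivity)

end Pool.Agent.J6H28.PL
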