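import Mathlib
import Pool.Agent.J6H28.PL.Gauss1
set_option autoImplicit false

/-! The kernel: a two dimensional oscillatory Gaussian integral with the weight `|z|⁴`. -/

namespace Pool.Agent.J6H28.PL

open MeasureTheory Set Complex
open scoped ENNReal NNReal

/-- the weight `|z|⁴ exp (-|z|²)` -/
noncomputable def wt (z : ℂ) : ℝ := ‖z‖ ^ 4 * Real.exp (-‖z‖ ^ 2)

/-- the kernel -/
noncomputable def kk (A B : ℂ) : ℂ :=
  ∫ z : ℂ, ((wt z : ℝ) : ℂ) * cexp ((((1 / 2) * (A * z ^ 2).re - (B * z).re : ℝ) : ℂ) * I)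

lemma wt_cont : Continuous wt := by
  unfold wt
  fun_prop

lemma wt_nonneg (z : ℂ) : 0 ≤ wt z := by
  unfold wt
  positivity

lemma exists_rot (A : ℂ) : ∃ a : Circle, A * (a : ℂ) ^ 2 = (‖A‖ : ℂ) := by
  refine ⟨Circle.exp (-(A.arg / 2)), ?_⟩
  rw [Circle.coe_exp, ← Complex.exp_nat_mul]
  have : (A.arg : ℂ) * I + ((2 : ℕ) : ℂ) * (((-(A.arg / 2) : ℝ) : ℂ) * I) = 0 := by
    push_cast; ring
  calc A * cexp (((2 : ℕ) : ℂ) * (((-(A.arg / 2) : ℝ) : ℂ) * I))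
      = (‖A‖ * cexp (A.arg * I)) * cexp (((2 : ℕ) : ℂ) * (((-(A.arg / 2) : ℝ) : ℂ) * I)) := by
        rw [Complex.norm_mul_exp_arg_mul_I]
    _ = _ := by rw [mul_assoc, ← Complex.exp_add, this, Complex.exp_zero, mul_one]

lemma int_prod (g : ℂ → ℂ) :
    ∫ z : ℂ, g z = ∫ p : ℝ × ℝ, g ((p.1 : ℂ) + (p.2 : ℂ) * I) := by
  have h := Complex.volume_preserving_equiv_real_prod.symm.integral_comp
    Complex.measurableEquivRealProd.symm.measurableEmbedding g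
  rw [← h]
  refine integral_congr_ae (Filter.Eventually.of_forall fun p => ?_)
  simp only
  congr 1
  rw [Complex.measurableEquivRealProd_symm_apply]
  exact Complex.mk_eq_add_mul_I _ _

lemma gi_prod (n m : ℕ) (α b β c : ℝ) :
    ∫ p : ℝ × ℝ, ((p.1 : ℂ) ^ n * ge α b p.1) * ((p.2 : ℂ) ^ m * ge β c p.2) =
      gi n α b * gi m β c := by
  rw [Measure.volume_eq_prod]
  exact integral_prod_mul (fun u : ℝ => (u : ℂ) ^ n * ge α b u) (fun u : ℝ => (u : ℂ) ^ m * ge β c u)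

lemma gi_prod_integrable (n m : ℕ) (α b β c : ℝ) :
    Integrable (fun p : ℝ × ℝ => ((p.1 : ℂ) ^ n * ge α b p.1) * ((p.2 : ℂ) ^ m * ge β c p.2)) := by
  rw [Measure.volume_eq_prod]
  exact (gi_integrable n α b).mul_prod (gi_integrable m β c)

lemma kk_eq (A B : ℂ) : ∃ b₁ b₂ : ℝ, |b₁| ≤ ‖B‖ ∧ |b₂| ≤ ‖B‖ ∧
    kk A B = gi 4 (‖A‖ / 2) b₁ * gi 0 (-(‖A‖ / 2)) b₂ +
      2 * (gi 2 (‖A‖ / 2) b₁ * gi 2 (-(‖A‖ / 2)) b₂) +
      gi 0 (‖A‖ / 2) b₁ * gi 4 (-(‖A‖ / 2)) b₂ := by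
  obtain ⟨a, ha⟩ := exists_rot A
  have hnorm : ‖B * (a : ℂ)‖ = ‖B‖ := by rw [norm_mul, Circle.norm_coe, mul_one]
  refine ⟨-(B * (a : ℂ)).re, (B * (a : ℂ)).im, ?_, ?_, ?_⟩
  · rw [abs_neg, ← hnorm]; exact Complex.abs_re_le_norm _
  · rw [← hnorm]; exact Complex.abs_im_le_norm _
  set α := ‖A‖ / 2 with hα
  set b₁ := -(B * (a : ℂ)).re with hb1
  set b₂ := (B * (a : ℂ)).im with hb2
  have h1 : kk A B = ∫ u : ℂ, ((wt u : ℝ) : ℂ) *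
      cexp ((((1 / 2) * (A * ((a : ℂ) * u) ^ 2).re - (B * ((a : ℂ) * u)).re : ℝ) : ℂ) * I) := by
    unfold kk
    rw [← (rotation a).measurePreserving.integral_comp (rotation a).toHomeomorph.measurableEmbedding]
    refine integral_congr_ae (Filter.Eventually.of_forall fun u => ?_)
    have : wt ((a : ℂ) * u) = wt u := by
      unfold wt
      rw [norm_mul, Circle.norm_coe, one_mul]
    simp only [rotation_apply, this]
  rw [h1, int_prod]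
  have h2 : ∀ p : ℝ × ℝ, ((wt ((p.1 : ℂ) + (p.2 : ℂ) * I) : ℝ) : ℂ) *
      cexp ((((1 / 2) * (A * ((a : ℂ) * ((p.1 : ℂ) + (p.2 : ℂ) * I)) ^ 2).re -
        (B * ((a : ℂ) * ((p.1 : ℂ) + (p.2 : ℂ) * I))).re : ℝ) : ℂ) * I) =
      ((p.1 : ℂ) ^ 4 * ge α b₁ p.1) * ((p.2 : ℂ) ^ 0 * ge (-α) b₂ p.2) +
      2 * (((p.1 : ℂ) ^ 2 * ge α b₁ p.1) * ((p.2 : ℂ) ^ 2 * ge (-α) b₂ p.2)) +
      ((p.1 : ℂ) ^ 0 * ge α b₁ p.1) * ((p.2 : ℂ) ^ 4 * ge (-α) b₂ p.2) := by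
    rintro ⟨x, y⟩
    simp only
    have hn : ‖(x : ℂ) + (y : ℂ) * I‖ ^ 2 = x ^ 2 + y ^ 2 := by
      rw [Complex.sq_norm, Complex.normSq_add_mul_I]
    have hw : wt ((x : ℂ) + (y : ℂ) * I) = (x ^ 2 + y ^ 2) ^ 2 * Real.exp (-(x ^ 2 + y ^ 2)) := by
      unfold wt
      rw [← hn]
      ring_nf
    have hA : (A * ((a : ℂ) * ((x : ℂ) + (y : ℂ) * I)) ^ 2).re = ‖A‖ * (x ^ 2 - y ^ 2) := by
      rw [mul_pow, ← mul_assoc, ha, Complex.re_ofReal_mul]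
      congr 1
      have : ((x : ℂ) + (y : ℂ) * I) ^ 2 = ((x ^ 2 - y ^ 2 : ℝ) : ℂ) + ((2 * x * y : ℝ) : ℂ) * I := by
        push_cast
        ring_nf
        rw [I_sq]
        ring
      rw [this, Complex.add_re, Complex.ofReal_re, Complex.re_ofReal_mul, Complex.I_re, mul_zero,
        add_zero]
    have hB : (B * ((a : ℂ) * ((x : ℂ) + (y : ℂ) * I))).re = -b₁ * x - b₂ * y := by
      rw [← mul_assoc, Complex.mul_re]
      simp only [hb1, hb2]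
      simp
    rw [hw, hA, hB]
    unfold ge
    have e : (((x ^ 2 + y ^ 2) ^ 2 * Real.exp (-(x ^ 2 + y ^ 2)) : ℝ) : ℂ) *
        cexp (((1 / 2 * (‖A‖ * (x ^ 2 - y ^ 2)) - (-b₁ * x - b₂ * y) : ℝ) : ℂ) * I) =
        ((x : ℂ) ^ 4 + 2 * ((x : ℂ) ^ 2 * (y : ℂ) ^ 2) + (y : ℂ) ^ 4) *
        (cexp (-((1 : ℂ) - α * I) * (x : ℂ) ^ 2 + (b₁ : ℂ) * I * x) *
          cexp (-((1 : ℂ) - (-α : ℝ) * I) * (y : ℂ) ^ 2 + (b₂ : ℂ) * I * y)) := by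
      rw [Complex.ofReal_mul, Complex.ofReal_exp, mul_assoc, ← Complex.exp_add, ← Complex.exp_add]
      congr 1
      · push_cast; ring
      · congr 1
        rw [hα]
        push_cast
        ring
    rw [e]
    push_cast
    ring
  rw [integral_congr_ae (Filter.Eventually.of_forall h2)]
  have i1 := gi_prod_integrable 4 0 α b₁ (-α) b₂
  have i2 := (gi_prod_integrable 2 2 α b₁ (-α) b₂).const_mul 2
  have i3 := gi_prod_integrable 0 4 α b₁ (-α) b₂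
  have e1 := integral_add (i1.add i2) i3
  have e2 := integral_add i1 i2
  simp only [Pi.add_apply] at e1 e2
  rw [e1, e2, integral_const_mul, gi_prod, gi_prod, gi_prod]

lemma PP_neg (α : ℝ) : PP (-α) = PP α := by
  unfold PP
  rw [neg_sq]

lemma kk_bound (A B : ℂ) (κ : ℝ) (hκ : 0 ≤ κ) (hB : ‖B‖ ≤ κ * PP (‖A‖ / 2)) :
    ‖kk A B‖ ≤ 4 * Real.pi * ((PP (‖A‖ / 2) ^ 3)⁻¹ + κ ^ 4 * (PP (‖A‖ / 2))⁻¹) := by
  obtain ⟨b₁, b₂, h1, h2, he⟩ := kk_eq A B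
  set α := ‖A‖ / 2 with hα
  have hP := PP_ge_one α
  have hP0 := PP_pos α
  have g1 := gi_bounds α b₁ κ hκ (h1.trans hB)
  have g2 := gi_bounds (-α) b₂ κ hκ (by rw [PP_neg]; exact h2.trans hB)
  rw [PP_neg] at g2
  have z1 := norm_gi_zero α b₁
  have z2 := norm_gi_zero (-α) b₂
  rw [PP_neg] at z2
  set P := PP α with hPd
  set S := Real.sqrt (Real.pi / P) with hS
  have hS2 : S * S = Real.pi / P := Real.mul_self_sqrt (by positivity)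
  set m2 := 1 / (2 * P) + κ ^ 2 / 4 with hm2
  set m4 := 3 / (4 * P ^ 2) + 3 * κ ^ 2 / (4 * P) + κ ^ 4 / 16 with hm4
  have hm20 : 0 ≤ m2 := by positivity
  have hm40 : 0 ≤ m4 := by positivity
  have a2 : ‖gi 2 α b₁‖ ≤ S * m2 := g1.1.trans (by gcongr)
  have a4 : ‖gi 4 α b₁‖ ≤ S * m4 := g1.2.trans (by gcongr)
  have c2 : ‖gi 2 (-α) b₂‖ ≤ S * m2 := g2.1.trans (by gcongr)
  have c4 : ‖gi 4 (-α) b₂‖ ≤ S * m4 := g2.2.trans (by gcongr)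
  have hS0 : 0 ≤ S := Real.sqrt_nonneg _
  rw [he]
  calc _ ≤ ‖gi 4 α b₁‖ * ‖gi 0 (-α) b₂‖ + 2 * (‖gi 2 α b₁‖ * ‖gi 2 (-α) b₂‖) +
        ‖gi 0 α b₁‖ * ‖gi 4 (-α) b₂‖ := by
        refine (norm_add_le _ _).trans ?_
        refine add_le_add ((norm_add_le _ _).trans ?_) (le_of_eq (norm_mul _ _))
        rw [norm_mul, norm_mul, norm_mul]
        norm_num
    _ ≤ (S * m4) * S + 2 * ((S * m2) * (S * m2)) + S * (S * m4) := by gcongr
    _ = (Real.pi / P) * (2 * m4 + 2 * m2 ^ 2) := by rw [← hS2]; ring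
    _ ≤ (Real.pi / P) * (4 * ((P ^ 2)⁻¹ + κ ^ 4)) := by
        refine mul_le_mul_of_nonneg_left ?_ (by positivity)
        have h5 : 2 * m4 + 2 * m2 ^ 2 = 2 * P⁻¹ ^ 2 + 2 * (κ ^ 2 * P⁻¹) + κ ^ 4 / 4 := by
          rw [hm4, hm2]
          field_simp
          ring
        rw [h5, inv_pow]
        have h6 : 2 * (κ ^ 2 * P⁻¹) ≤ (P ^ 2)⁻¹ + κ ^ 4 := by
          rw [← inv_pow]
          nlinarith [sq_nonneg (κ ^ 2 - P⁻¹)]
        have h7 : 0 ≤ κ ^ 4 := by positivity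
        have h8 : 0 ≤ (P ^ 2)⁻¹ := by positivity
        linarith
    _ = _ := by
        field_simp

end Pool.Agent.J6H28.PL
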