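import Mathlib
set_option autoImplicit false

/-! The `TT*` argument with an explicit kernel and Schur's test. -/

namespace Pool.Agent.J6H28.PL

open MeasureTheory Set Complex
open scoped ENNReal NNReal ComplexConjugate

lemma tts {X : Type*} [MeasurableSpace X] (μ : Measure X) [SFinite μ] (F : X → ℂ)
    (hF : Integrable F μ) (E : ℂ → X → ℂ) (hE : Measurable (Function.uncurry E))
    (hE1 : ∀ z x, ‖E z x‖ ≤ 1) (w : ℂ → ℝ) (hw : Integrable w) (hw0 : ∀ z, 0 ≤ w z) :
    ∫⁻ z, ENNReal.ofReal (w z) * ‖∫ x, F x * E z x ∂μ‖ₑ ^ 2 ≤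
      ∫⁻ x, ∫⁻ y, ‖F x‖ₑ * ‖F y‖ₑ * ‖∫ z, ((w z : ℝ) : ℂ) * (E z x * conj (E z y))‖ₑ ∂μ ∂μ := by
  set G : ℂ → ℂ := fun z => ∫ x, F x * E z x ∂μ with hG
  have hFE : ∀ z, Integrable (fun x => F x * E z x) μ := fun z =>
    hF.mul_bdd (c := 1) ((hE.comp measurable_prodMk_left).aestronglyMeasurable)
      (Filter.Eventually.of_forall fun x => hE1 z x)
  have hGb : ∀ z, ‖G z‖ ≤ ∫ x, ‖F x‖ ∂μ := by
    intro z
    refine (norm_integral_le_integral_norm _).trans ?_
    refine integral_mono (hFE z).norm hF.norm fun x => ?_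
    simp only [norm_mul]
    calc ‖F x‖ * ‖E z x‖ ≤ ‖F x‖ * 1 := by gcongr; exact hE1 z x
      _ = _ := mul_one _
  -- the integrand in product form
  set H : ℂ → X × X → ℂ := fun z p =>
    ((w z : ℝ) : ℂ) * ((F p.1 * E z p.1) * conj (F p.2 * E z p.2)) with hH
  have hHi : Integrable (Function.uncurry H) (volume.prod (μ.prod μ)) := by
    have h1 : Integrable (fun q : ℂ × (X × X) => w q.1 * (‖F q.2.1‖ * ‖F q.2.2‖))
        (volume.prod (μ.prod μ)) := hw.mul_prod (hF.norm.mul_prod hF.norm)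
    refine h1.mono' ?_ ?_
    · have m1 : AEStronglyMeasurable (fun q : ℂ × (X × X) => ((w q.1 : ℝ) : ℂ))
          (volume.prod (μ.prod μ)) :=
        (Complex.continuous_ofReal.comp_aestronglyMeasurable hw.1).comp_fst
      have m2 : AEStronglyMeasurable (fun q : ℂ × (X × X) => F q.2.1) (volume.prod (μ.prod μ)) :=
        (hF.1.comp_fst (ν := μ)).comp_snd
      have m3 : AEStronglyMeasurable (fun q : ℂ × (X × X) => F q.2.2) (volume.prod (μ.prod μ)) :=
        (hF.1.comp_snd (μ := μ)).comp_snd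
      have m4 : Measurable (fun q : ℂ × (X × X) => E q.1 q.2.1) :=
        hE.comp (measurable_fst.prodMk (measurable_fst.comp measurable_snd))
      have m5 : Measurable (fun q : ℂ × (X × X) => E q.1 q.2.2) :=
        hE.comp (measurable_fst.prodMk (measurable_snd.comp measurable_snd))
      exact m1.mul ((m2.mul m4.aestronglyMeasurable).mul
        (Complex.continuous_conj.comp_aestronglyMeasurable (m3.mul m5.aestronglyMeasurable)))
    · refine Filter.Eventually.of_forall fun q => ?_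
      simp only [Function.uncurry, hH, norm_mul, Complex.norm_real, Real.norm_eq_abs,
        abs_of_nonneg (hw0 _), RCLike.norm_conj]
      have a1 := hE1 q.1 q.2.1
      have a2 := hE1 q.1 q.2.2
      have := hw0 q.1
      calc w q.1 * (‖F q.2.1‖ * ‖E q.1 q.2.1‖ * (‖F q.2.2‖ * ‖E q.1 q.2.2‖))
          ≤ w q.1 * (‖F q.2.1‖ * 1 * (‖F q.2.2‖ * 1)) := by gcongr
        _ = _ := by ring
  have hHz : ∀ z, ∫ p, H z p ∂(μ.prod μ) = ((w z * ‖G z‖ ^ 2 : ℝ) : ℂ) := by
    intro z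
    have h1 : ∫ p : X × X, (F p.1 * E z p.1) * conj (F p.2 * E z p.2) ∂(μ.prod μ) =
        (∫ x, F x * E z x ∂μ) * ∫ y, conj (F y * E z y) ∂μ :=
      integral_prod_mul (fun x => F x * E z x) (fun y => conj (F y * E z y))
    simp only [hH]
    rw [integral_const_mul, h1, integral_conj]
    change ((w z : ℝ) : ℂ) * (G z * conj (G z)) = _
    rw [Complex.mul_conj, Complex.normSq_eq_norm_sq]
    push_cast
    ring
  have hsw : ∫ z : ℂ, ∫ p, H z p ∂(μ.prod μ) = ∫ p, (∫ z : ℂ, H z p) ∂(μ.prod μ) :=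
    integral_integral_swap hHi
  have hInt : Integrable (fun z => w z * ‖G z‖ ^ 2) := by
    have h1 := hHi.integral_prod_left
    have h2 : (fun z => ∫ p, Function.uncurry H (z, p) ∂(μ.prod μ)) =
        fun z => ((w z * ‖G z‖ ^ 2 : ℝ) : ℂ) := by
      funext z
      exact hHz z
    rw [h2] at h1
    exact h1.re
  have hL : ∫⁻ z, ENNReal.ofReal (w z) * ‖G z‖ₑ ^ 2 = ‖∫ z, ∫ p, H z p ∂(μ.prod μ)‖ₑ := by
    simp_rw [hHz]
    rw [integral_complex_ofReal]
    have h3 : 0 ≤ ∫ z, w z * ‖G z‖ ^ 2 := integral_nonneg fun z => by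
      have := hw0 z
      positivity
    rw [← ofReal_norm_eq_enorm, Complex.norm_real, Real.norm_eq_abs, abs_of_nonneg h3,
      ofReal_integral_eq_lintegral_ofReal hInt (Filter.Eventually.of_forall fun z => by
        have := hw0 z
        positivity)]
    refine lintegral_congr fun z => ?_
    rw [ENNReal.ofReal_mul (hw0 z), ENNReal.ofReal_pow (norm_nonneg _), ofReal_norm_eq_enorm]
  rw [hL, hsw]
  refine (enorm_integral_le_lintegral_enorm _).trans ?_
  have hmeas : AEMeasurable (fun p : X × X => ‖∫ z : ℂ, H z p‖ₑ) (μ.prod μ) := by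
    have h1 := hHi.swap.integral_prod_left
    exact h1.1.enorm
  rw [lintegral_prod _ hmeas]
  refine lintegral_mono fun x => lintegral_mono fun y => ?_
  have h4 : ∫ z, H z (x, y) = (F x * conj (F y)) *
      ∫ z, ((w z : ℝ) : ℂ) * (E z x * conj (E z y)) := by
    rw [← integral_const_mul]
    refine integral_congr_ae (Filter.Eventually.of_forall fun z => ?_)
    simp only [hH, map_mul]
    ring
  rw [h4, enorm_mul, enorm_mul]
  refine le_of_eq ?_
  congr 2
  rw [← ofReal_norm_eq_enorm, ← ofReal_norm_eq_enorm, RCLike.norm_conj]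

lemma ennreal_two_mul_le (a b : ℝ≥0∞) : 2 * (a * b) ≤ a ^ 2 + b ^ 2 := by
  by_cases ha : a = ⊤
  · rw [ha]; simp
  by_cases hb : b = ⊤
  · rw [hb]; simp
  lift a to ℝ≥0 using ha
  lift b to ℝ≥0 using hb
  have h := two_mul_le_add_sq a b
  rw [mul_assoc] at h
  exact_mod_cast h

/-- Schur's test for symmetric kernels -/
lemma schur {X : Type*} [MeasurableSpace X] (μ : Measure X) [SFinite μ] (f : X → ℝ≥0∞)
    (hf : Measurable f) (k : X → X → ℝ≥0∞) (hk : Measurable (Function.uncurry k))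
    (hs : ∀ x y, k x y = k y x) :
    ∫⁻ x, ∫⁻ y, f x * f y * k x y ∂μ ∂μ ≤ ∫⁻ x, f x ^ 2 * ∫⁻ y, k x y ∂μ ∂μ := by
  have hm1 : Measurable (fun p : X × X => f p.1 ^ 2 * k p.1 p.2) :=
    ((hf.comp measurable_fst).pow_const 2).mul hk
  have hm2 : Measurable (fun p : X × X => f p.2 ^ 2 * k p.1 p.2) :=
    ((hf.comp measurable_snd).pow_const 2).mul hk
  have hks : ∀ x, Measurable (fun y => k x y) := fun x => hk.comp measurable_prodMk_left
  have e1 : ∫⁻ x, f x ^ 2 * ∫⁻ y, k x y ∂μ ∂μ = ∫⁻ x, ∫⁻ y, f x ^ 2 * k x y ∂μ ∂μ := by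
    refine lintegral_congr fun x => ?_
    rw [lintegral_const_mul _ (hks x)]
  have e2 : ∫⁻ x, ∫⁻ y, f y ^ 2 * k x y ∂μ ∂μ = ∫⁻ x, ∫⁻ y, f x ^ 2 * k x y ∂μ ∂μ := by
    rw [lintegral_lintegral_swap hm2.aemeasurable]
    refine lintegral_congr fun x => lintegral_congr fun y => ?_
    rw [hs]
  rw [e1]
  have h2 : 2 * ∫⁻ x, ∫⁻ y, f x * f y * k x y ∂μ ∂μ ≤ 2 * ∫⁻ x, ∫⁻ y, f x ^ 2 * k x y ∂μ ∂μ := by
    have hm0 : Measurable (fun p : X × X => f p.1 * f p.2 * k p.1 p.2) :=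
      ((hf.comp measurable_fst).mul (hf.comp measurable_snd)).mul hk
    calc 2 * ∫⁻ x, ∫⁻ y, f x * f y * k x y ∂μ ∂μ
        = ∫⁻ x, ∫⁻ y, 2 * (f x * f y * k x y) ∂μ ∂μ := by
          rw [← lintegral_const_mul _ (Measurable.lintegral_prod_right' hm0)]
          refine lintegral_congr fun x => ?_
          exact (lintegral_const_mul _ ((hf.const_mul (f x)).mul (hks x))).symm
      _ ≤ ∫⁻ x, ∫⁻ y, (f x ^ 2 * k x y + f y ^ 2 * k x y) ∂μ ∂μ := by
          refine lintegral_mono fun x => lintegral_mono fun y => ?_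
          have : 2 * (f x * f y) ≤ f x ^ 2 + f y ^ 2 := ennreal_two_mul_le _ _
          calc 2 * (f x * f y * k x y) = 2 * (f x * f y) * k x y := by ring
            _ ≤ (f x ^ 2 + f y ^ 2) * k x y := by gcongr
            _ = _ := by ring
      _ = ∫⁻ x, ((∫⁻ y, f x ^ 2 * k x y ∂μ) + ∫⁻ y, f y ^ 2 * k x y ∂μ) ∂μ := by
          refine lintegral_congr fun x => ?_
          rw [lintegral_add_left ((hks x).const_mul _)]
      _ = (∫⁻ x, ∫⁻ y, f x ^ 2 * k x y ∂μ ∂μ) + ∫⁻ x, ∫⁻ y, f y ^ 2 * k x y ∂μ ∂μ :=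
          lintegral_add_left (Measurable.lintegral_prod_right' hm1) _
      _ = _ := by rw [e2, two_mul]
  exact (ENNReal.mul_le_mul_iff_right (by norm_num) (by norm_num)).1 h2

end Pool.Agent.J6H28.PL
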