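import Mathlib
import Pool.Agent.J6H28.PL.Ker
import Pool.Agent.J6H28.PL.TT
import Pool.Agent.W771.Basic
set_option autoImplicit false

/-! Geometry of the angles: bounds for the kernel, and its integrals. -/

namespace Pool.Agent.J6H28.PL

open MeasureTheory Set Complex
open scoped ENNReal NNReal ComplexConjugate

/-- `exp (-iθ)` -/
noncomputable def cs (θ : ℝ) : ℂ := cexp (-(θ : ℂ) * I)

lemma cs_norm (θ : ℝ) : ‖cs θ‖ = 1 := by
  unfold cs
  rw [← Complex.ofReal_neg, Complex.norm_exp_ofReal_mul_I]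

lemma cs_add (a b : ℝ) : cs (a + b) = cs a * cs b := by
  unfold cs
  rw [← Complex.exp_add]
  congr 1
  push_cast
  ring

lemma cs_re (θ : ℝ) : (cs θ).re = Real.cos θ := by
  unfold cs
  rw [← Complex.ofReal_neg, Complex.exp_ofReal_mul_I_re, Real.cos_neg]

lemma cs_im (θ : ℝ) : (cs θ).im = -Real.sin θ := by
  unfold cs
  rw [← Complex.ofReal_neg, Complex.exp_ofReal_mul_I_im, Real.sin_neg]

lemma cs_cont : Continuous cs := by
  unfold cs
  fun_prop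

lemma normsq_diff (a b α β : ℝ) :
    ‖(a : ℂ) * cs α - (b : ℂ) * cs β‖ ^ 2 = a ^ 2 + b ^ 2 - 2 * a * b * Real.cos (α - β) := by
  rw [Complex.sq_norm, Complex.normSq_apply, Complex.sub_re, Complex.sub_im, Complex.re_ofReal_mul,
    Complex.re_ofReal_mul, Complex.im_ofReal_mul, Complex.im_ofReal_mul, cs_re, cs_re, cs_im, cs_im,
    Real.cos_sub]
  nlinarith [Real.sin_sq_add_cos_sq α, Real.sin_sq_add_cos_sq β]

lemma sum_cs (a b : ℝ) :
    cs a + cs b = ((2 * Real.cos ((a - b) / 2) : ℝ) : ℂ) * cs ((a + b) / 2) := by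
  have h1 : cs a = cs ((a + b) / 2) * cs ((a - b) / 2) := by rw [← cs_add]; ring_nf
  have h2 : cs b = cs ((a + b) / 2) * cs (-((a - b) / 2)) := by rw [← cs_add]; ring_nf
  have h3 : cs ((a - b) / 2) + cs (-((a - b) / 2)) = ((2 * Real.cos ((a - b) / 2) : ℝ) : ℂ) := by
    apply Complex.ext
    · rw [Complex.add_re, cs_re, cs_re, Real.cos_neg, Complex.ofReal_re]; ring
    · rw [Complex.add_im, cs_im, cs_im, Real.sin_neg, Complex.ofReal_im]; ring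
  rw [h1, h2, ← mul_add, h3]
  ring

lemma cs_sq (a : ℝ) : cs a ^ 2 = cs (2 * a) := by
  rw [two_mul, cs_add, sq]

lemma sum_cs_sq (a b : ℝ) :
    cs a ^ 2 + cs b ^ 2 = ((2 * Real.cos (a - b) : ℝ) : ℂ) * cs (a + b) := by
  rw [cs_sq, cs_sq, sum_cs]
  congr 2
  · congr 2; ring
  · congr 1; ring

/-- the vectors `V` and `v` -/
noncomputable def VV (a b c d : ℝ) : ℂ := cs a ^ 2 + cs b ^ 2 - cs c ^ 2 - cs d ^ 2
noncomputable def vv (a b c d : ℝ) : ℂ := cs a + cs b - cs c - cs d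

lemma VV_sq (a b c d : ℝ) : ‖VV a b c d‖ ^ 2 =
    4 * ((Real.cos (a - b) - Real.cos (c - d)) ^ 2 +
      2 * Real.cos (a - b) * Real.cos (c - d) * (1 - Real.cos (a + b - (c + d)))) := by
  have : VV a b c d = ((2 * Real.cos (a - b) : ℝ) : ℂ) * cs (a + b) -
      ((2 * Real.cos (c - d) : ℝ) : ℂ) * cs (c + d) := by
    rw [← sum_cs_sq, ← sum_cs_sq]
    unfold VV
    ring
  rw [this, normsq_diff]
  ring

lemma vv_sq (a b c d : ℝ) : ‖vv a b c d‖ ^ 2 =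
    4 * ((Real.cos ((a - b) / 2) - Real.cos ((c - d) / 2)) ^ 2 +
      2 * Real.cos ((a - b) / 2) * Real.cos ((c - d) / 2) *
        (1 - Real.cos ((a + b - (c + d)) / 2))) := by
  have : vv a b c d = ((2 * Real.cos ((a - b) / 2) : ℝ) : ℂ) * cs ((a + b) / 2) -
      ((2 * Real.cos ((c - d) / 2) : ℝ) : ℂ) * cs ((c + d) / 2) := by
    rw [← sum_cs, ← sum_cs]
    unfold vv
    ring
  rw [this, normsq_diff, ← sub_div]
  ring

lemma one_sub_cos_low (x : ℝ) (hx : |x| ≤ 1 / 2) : 1 / 5 * x ^ 2 ≤ 1 - Real.cos x := by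
  have hpi := Real.pi_gt_three
  have hpi2 := Real.pi_lt_d2
  have e1 : (1 / 5 : ℝ) ≤ 2 / Real.pi ^ 2 := by
    rw [le_div_iff₀ (by positivity)]
    nlinarith
  have h5 := Real.cos_le_one_sub_mul_cos_sq (x := x) (by linarith)
  have h6 : 1 / 5 * x ^ 2 ≤ 2 / Real.pi ^ 2 * x ^ 2 := by gcongr
  linarith

lemma abs_sin_low (y : ℝ) (hy : |y| ≤ 1) : 3 / 5 * |y| ≤ |Real.sin y| := by
  have hpi := Real.pi_gt_three
  have hpi2 := Real.pi_lt_d2
  have h7 : 3 / 5 ≤ 2 / Real.pi := by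
    rw [le_div_iff₀ (by positivity)]
    nlinarith
  refine le_trans ?_ (Real.mul_abs_le_abs_sin (by linarith : |y| ≤ Real.pi / 2))
  gcongr

lemma cos_sub_low (x y : ℝ) (hx : |x| ≤ 1 / 4) (hy : |y| ≤ 1 / 4) :
    1 / 36 * ((x + y) * (x - y)) ^ 2 ≤ (Real.cos x - Real.cos y) ^ 2 := by
  rw [abs_le] at hx hy
  have h6 := abs_sin_low ((x + y) / 2) (by rw [abs_le]; constructor <;> linarith)
  have h7 := abs_sin_low ((x - y) / 2) (by rw [abs_le]; constructor <;> linarith)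
  have h8 : 3 / 5 * |(x + y) / 2| * (3 / 5 * |(x - y) / 2|) ≤
      |Real.sin ((x + y) / 2)| * |Real.sin ((x - y) / 2)| := by gcongr
  have h9 : (3 / 5 * |(x + y) / 2| * (3 / 5 * |(x - y) / 2|)) ^ 2 ≤
      (|Real.sin ((x + y) / 2)| * |Real.sin ((x - y) / 2)|) ^ 2 :=
    pow_le_pow_left₀ (by positivity) h8 2
  rw [mul_pow, mul_pow, mul_pow, mul_pow, sq_abs, sq_abs, sq_abs, sq_abs] at h9
  rw [Real.cos_sub_cos]
  have e1 : (-2 * Real.sin ((x + y) / 2) * Real.sin ((x - y) / 2)) ^ 2 =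
      4 * (Real.sin ((x + y) / 2) ^ 2 * Real.sin ((x - y) / 2) ^ 2) := by ring
  rw [e1]
  have e2 : 4 * ((3 / 5) ^ 2 * ((x + y) / 2) ^ 2 * ((3 / 5) ^ 2 * ((x - y) / 2) ^ 2)) =
    81 / 2500 * ((x + y) * (x - y)) ^ 2 := by ring
  have e3 : 0 ≤ ((x + y) * (x - y)) ^ 2 := sq_nonneg _
  linarith

lemma cos_low (x c : ℝ) (h : |x| ≤ c) : 1 - c ^ 2 / 2 ≤ Real.cos x := by
  have h1 : 1 - x ^ 2 / 2 ≤ Real.cos x := Real.one_sub_sq_div_two_le_cos
  have h2 : x ^ 2 ≤ c ^ 2 := by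
    rw [← sq_abs]
    exact pow_le_pow_left₀ (abs_nonneg _) h 2
  linarith

lemma alg1 (p q r : ℝ) (hp : 127 / 128 ≤ p) (hp1 : p ≤ 1) (hq : 127 / 128 ≤ q) (hq1 : q ≤ 1)
    (hr : 31 / 32 ≤ r) (hr1 : r ≤ 1) :
    (p - q) ^ 2 + 2 * p * q * (1 - r) ≤ (2 * p ^ 2 - 1 - (2 * q ^ 2 - 1)) ^ 2 +
      2 * (2 * p ^ 2 - 1) * (2 * q ^ 2 - 1) * (1 - (2 * r ^ 2 - 1)) := by
  have e1 : (p - q) ^ 2 ≤ (2 * p ^ 2 - 1 - (2 * q ^ 2 - 1)) ^ 2 := by
    have h4 : (2 * p ^ 2 - 1 - (2 * q ^ 2 - 1)) ^ 2 = (p - q) ^ 2 * (4 * (p + q) ^ 2) := by ring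
    have h5 : 1 ≤ 4 * (p + q) ^ 2 := by nlinarith
    rw [h4]
    calc (p - q) ^ 2 = (p - q) ^ 2 * 1 := by ring
      _ ≤ _ := by gcongr
  have e2 : 2 * p * q * (1 - r) ≤
      2 * (2 * p ^ 2 - 1) * (2 * q ^ 2 - 1) * (1 - (2 * r ^ 2 - 1)) := by
    have f1 : (15 : ℝ) / 16 ≤ 2 * p ^ 2 - 1 := by nlinarith
    have f2 : (15 : ℝ) / 16 ≤ 2 * q ^ 2 - 1 := by nlinarith
    have f3 : (15 / 16 : ℝ) * (15 / 16) ≤ (2 * p ^ 2 - 1) * (2 * q ^ 2 - 1) := by gcongr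
    have f4 : p * q ≤ 1 := by nlinarith
    have f6 : 0 ≤ 1 - r := by linarith
    have f7 : p * q ≤ (2 * p ^ 2 - 1) * (2 * q ^ 2 - 1) * (2 * (1 + r)) := by
      calc p * q ≤ 1 := f4
        _ ≤ (15 / 16 * (15 / 16)) * (2 * (1 + 31 / 32)) := by norm_num
        _ ≤ _ := by gcongr
    calc 2 * p * q * (1 - r) = 2 * (1 - r) * (p * q) := by ring
      _ ≤ 2 * (1 - r) * ((2 * p ^ 2 - 1) * (2 * q ^ 2 - 1) * (2 * (1 + r))) := by gcongr
      _ = _ := by ring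
  linarith

lemma geom (a b c d : ℝ) (h1 : |a - b| ≤ 1 / 4) (h2 : |c - d| ≤ 1 / 4)
    (h3 : |a + b - (c + d)| ≤ 1 / 2) :
    ‖vv a b c d‖ ≤ ‖VV a b c d‖ ∧
    (a + b - c - d) ^ 2 + 1 / 9 * ((a - b - c + d) * (a - b + c - d)) ^ 2 ≤ ‖VV a b c d‖ ^ 2 := by
  have p3 : Real.cos (a - b) = 2 * Real.cos ((a - b) / 2) ^ 2 - 1 := by
    rw [← Real.cos_two_mul]; congr 1; ring
  have q3 : Real.cos (c - d) = 2 * Real.cos ((c - d) / 2) ^ 2 - 1 := by
    rw [← Real.cos_two_mul]; congr 1; ring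
  have r3 : Real.cos (a + b - (c + d)) = 2 * Real.cos ((a + b - (c + d)) / 2) ^ 2 - 1 := by
    rw [← Real.cos_two_mul]; congr 1; ring
  constructor
  · have p4 := cos_low ((a - b) / 2) (1 / 8) (by
      rw [abs_div, abs_of_pos (by norm_num : (0 : ℝ) < 2)]; linarith)
    have q4 := cos_low ((c - d) / 2) (1 / 8) (by
      rw [abs_div, abs_of_pos (by norm_num : (0 : ℝ) < 2)]; linarith)
    have r4 := cos_low ((a + b - (c + d)) / 2) (1 / 4) (by
      rw [abs_div, abs_of_pos (by norm_num : (0 : ℝ) < 2)]; linarith)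
    have hsq : ‖vv a b c d‖ ^ 2 ≤ ‖VV a b c d‖ ^ 2 := by
      rw [VV_sq, vv_sq, p3, q3, r3]
      have := alg1 (Real.cos ((a - b) / 2)) (Real.cos ((c - d) / 2))
        (Real.cos ((a + b - (c + d)) / 2)) (by norm_num at p4 ⊢; linarith) (Real.cos_le_one _)
        (by norm_num at q4 ⊢; linarith) (Real.cos_le_one _)
        (by norm_num at r4 ⊢; linarith) (Real.cos_le_one _)
      gcongr
    exact (sq_le_sq₀ (norm_nonneg _) (norm_nonneg _)).1 hsq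
  · rw [VV_sq]
    have hc1 := cos_low (a - b) (1 / 4) h1
    have hc2 := cos_low (c - d) (1 / 4) h2
    norm_num at hc1 hc2
    have e2 := one_sub_cos_low (a + b - (c + d)) h3
    have e4 := cos_sub_low (a - b) (c - d) h1 h2
    have h6 : 0 ≤ 1 - Real.cos (a + b - (c + d)) := by
      have := Real.cos_le_one (a + b - (c + d)); linarith
    have h7 : (31 / 32 : ℝ) * (31 / 32) * (1 - Real.cos (a + b - (c + d))) ≤
      Real.cos (a - b) * Real.cos (c - d) * (1 - Real.cos (a + b - (c + d))) := by gcongr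
    have e5 : (a + b - c - d) ^ 2 = (a + b - (c + d)) ^ 2 := by ring
    have e6 : ((a - b - c + d) * (a - b + c - d)) ^ 2 =
      ((a - b + (c - d)) * (a - b - (c - d))) ^ 2 := by ring
    rw [e5, e6]
    have e7 : 4 * ((Real.cos (a - b) - Real.cos (c - d)) ^ 2 +
      2 * Real.cos (a - b) * Real.cos (c - d) * (1 - Real.cos (a + b - (c + d)))) =
      4 * (Real.cos (a - b) - Real.cos (c - d)) ^ 2 +
      8 * (Real.cos (a - b) * Real.cos (c - d) * (1 - Real.cos (a + b - (c + d)))) := by ring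
    rw [e7]
    have e8 : 0 ≤ (a + b - (c + d)) ^ 2 := sq_nonneg _
    linarith

end Pool.Agent.J6H28.PL
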