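import Mathlib
import Pool.Agent.J6H28.PL.Ang
set_option autoImplicit false

/-! The kernel for angles in a short arc, bounded by products of powers, and its integral. -/

namespace Pool.Agent.J6H28.PL

open MeasureTheory Set Complex
open scoped ENNReal NNReal ComplexConjugate

lemma pow_low (X Z Q lam mu : ℝ) (h0 : 0 ≤ lam) (h1 : lam ≤ mu) (hQ : 1 + X ^ 2 + Z ^ 2 ≤ Q) :
    |X * Z| ^ lam ≤ Q ^ mu := by
  set m := max 1 |X| with hm
  set n := max 1 |Z| with hn
  have m1 : 1 ≤ m := le_max_left _ _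
  have n1 : 1 ≤ n := le_max_left _ _
  have m2 : m ^ 2 ≤ 1 + X ^ 2 := by
    rw [hm]
    rcases max_cases 1 |X| with ⟨h, _⟩ | ⟨h, _⟩
    · rw [h]; nlinarith [sq_nonneg X]
    · rw [h, sq_abs]; linarith
  have n2 : n ^ 2 ≤ 1 + Z ^ 2 := by
    rw [hn]
    rcases max_cases 1 |Z| with ⟨h, _⟩ | ⟨h, _⟩
    · rw [h]; nlinarith [sq_nonneg Z]
    · rw [h, sq_abs]; linarith
  have h3 : |X * Z| ≤ m * n := by
    rw [abs_mul]
    exact mul_le_mul (le_max_right _ _) (le_max_right _ _) (abs_nonneg _) (by linarith)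
  have h4 : 1 ≤ m * n := by nlinarith
  have h5 : m * n ≤ Q := by
    have h6 : (m * n) ^ 2 ≤ Q ^ 2 := by
      calc (m * n) ^ 2 = m ^ 2 * n ^ 2 := by ring
        _ ≤ (1 + X ^ 2) * (1 + Z ^ 2) := by gcongr
        _ ≤ (1 + X ^ 2 + Z ^ 2) ^ 2 := by nlinarith [sq_nonneg X, sq_nonneg Z, sq_nonneg (X * Z)]
        _ ≤ Q ^ 2 := by gcongr
    have h7 : 0 ≤ Q := by nlinarith [sq_nonneg X, sq_nonneg Z]
    exact (sq_le_sq₀ (by linarith) h7).1 h6
  calc |X * Z| ^ lam ≤ (m * n) ^ lam := Real.rpow_le_rpow (abs_nonneg _) h3 h0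
    _ ≤ (m * n) ^ mu := Real.rpow_le_rpow_of_exponent_le h4 h1
    _ ≤ Q ^ mu := Real.rpow_le_rpow (by linarith) h5 (by linarith)

/-- truncated power function -/
noncomputable def fk (lam : ℝ) (x : ℝ) : ℝ≥0∞ :=
  (Icc (-1 : ℝ) 1).indicator (fun x => ‖x‖ₑ ^ (-lam)) x

lemma fk_meas (lam : ℝ) : Measurable (fk lam) := by
  unfold fk
  exact (Measurable.indicator (by fun_prop) measurableSet_Icc)

lemma fk_neg (lam x : ℝ) : fk lam (-x) = fk lam x := by
  unfold fk
  by_cases h : x ∈ Icc (-1 : ℝ) 1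
  · rw [indicator_of_mem h, indicator_of_mem (by
      rw [mem_Icc] at h ⊢; constructor <;> linarith [h.1, h.2]), enorm_neg]
  · rw [indicator_of_notMem h, indicator_of_notMem (by
      rw [mem_Icc] at h ⊢; intro h2; apply h; constructor <;> linarith [h2.1, h2.2])]

lemma fk_lt_top (lam : ℝ) (h0 : 0 ≤ lam) (h : lam < 1) : ∫⁻ x, fk lam x < ⊤ := by
  have h1 : IntervalIntegrable (fun x : ℝ => |x| ^ (-lam)) volume (-1) 1 := by
    have h2 : IntervalIntegrable (fun x : ℝ => |x| ^ (-lam)) volume 0 1 := by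
      refine (intervalIntegral.intervalIntegrable_rpow' (a := 0) (b := 1) (r := -lam)
        (by linarith)).congr ?_
      intro x hx
      rw [uIoc_of_le zero_le_one] at hx
      simp only [abs_of_pos hx.1]
    have h3 : IntervalIntegrable (fun x : ℝ => |x| ^ (-lam)) volume (-1) 0 := by
      have := h2.comp_sub_left 0
      simpa using this.symm
    exact h3.trans h2
  unfold fk
  rw [lintegral_indicator measurableSet_Icc]
  have h4 : IntegrableOn (fun x : ℝ => |x| ^ (-lam)) (Icc (-1) 1) := by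
    rw [integrableOn_Icc_iff_integrableOn_Ioc]
    exact (intervalIntegrable_iff_integrableOn_Ioc_of_le (by norm_num)).1 h1
  have h5 := h4.2
  refine lt_of_le_of_lt ?_ h5
  refine le_of_eq ?_
  refine setLIntegral_congr_fun_ae measurableSet_Icc ?_
  have : ∀ᵐ x : ℝ, x ≠ 0 := by
    rw [ae_iff]
    simp
  filter_upwards [this] with x hx _
  rw [← ofReal_norm, ← ofReal_norm, ENNReal.ofReal_rpow_of_pos (by positivity)]
  congr 1
  rw [Real.norm_eq_abs, Real.norm_eq_abs, abs_of_nonneg (Real.rpow_nonneg (abs_nonneg x) _)]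

/-- the product kernel -/
noncomputable def p3 (lam a b c d : ℝ) : ℝ≥0∞ :=
  fk lam (a + b - c - d) * fk lam (a - b - c + d) * fk lam (a - b + c - d)

lemma p3_bound (lam mu Q t x u s : ℝ) (h0 : 0 < lam) (h1 : lam ≤ mu) (ht : 0 < t)
    (hx : |x| ≤ 1) (hu : |u| ≤ 1) (hs : |s| ≤ 1)
    (hQ : 1 + (t * x / 2) ^ 2 + (t * (u * s) / 6) ^ 2 ≤ Q) :
    ENNReal.ofReal ((Q ^ mu)⁻¹) ≤ ENNReal.ofReal (t ^ 2 / 12) ^ (-lam) *
      (fk lam x * fk lam u * fk lam s) := by
  have hQ0 : 0 < Q := by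
    have := sq_nonneg (t * x / 2)
    have := sq_nonneg (t * (u * s) / 6)
    linarith
  have h2 := pow_low (t * x / 2) (t * (u * s) / 6) Q lam mu h0.le h1 hQ
  have h3 : fk lam x * fk lam u * fk lam s = ‖x * u * s‖ₑ ^ (-lam) := by
    unfold fk
    have hx' : x ∈ Icc (-1 : ℝ) 1 := abs_le.1 hx
    have hu' : u ∈ Icc (-1 : ℝ) 1 := abs_le.1 hu
    have hs' : s ∈ Icc (-1 : ℝ) 1 := abs_le.1 hs
    rw [indicator_of_mem hx', indicator_of_mem hu', indicator_of_mem hs', enorm_mul, enorm_mul,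
      ENNReal.mul_rpow_of_ne_top (by finiteness) (by finiteness),
      ENNReal.mul_rpow_of_ne_top (by finiteness) (by finiteness)]
  rw [h3, ← ENNReal.mul_rpow_of_ne_top (by finiteness) (by finiteness), ENNReal.rpow_neg,
    ENNReal.ofReal_inv_of_pos (by positivity)]
  rw [ENNReal.inv_le_inv, ← ofReal_norm, ← ENNReal.ofReal_mul (by positivity),
    ENNReal.ofReal_rpow_of_nonneg (by positivity) h0.le]
  refine ENNReal.ofReal_le_ofReal ?_
  have h4 : t ^ 2 / 12 * ‖x * u * s‖ = |t * x / 2 * (t * (u * s) / 6)| := by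
    rw [Real.norm_eq_abs]
    have h5 : t * x / 2 * (t * (u * s) / 6) = (t ^ 2 / 12) * (x * u * s) := by ring
    rw [h5, abs_mul (t ^ 2 / 12), abs_of_pos (by positivity : 0 < t ^ 2 / 12)]
  rw [h4]
  exact h2

/-- the kernel bound for angles in a short arc -/
lemma arcK (t ε θ₀ a b c d lam : ℝ) (ht : 0 < t) (h0 : 0 < lam) (h1 : lam ≤ 1)
    (ha : |a - θ₀| ≤ 1 / 8) (hb : |b - θ₀| ≤ 1 / 8) (hc : |c - θ₀| ≤ 1 / 8)
    (hd : |d - θ₀| ≤ 1 / 8) :
    ‖kk ((t : ℂ) * VV a b c d) (((2 * t * ε : ℝ) : ℂ) * vv a b c d)‖ₑ ≤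
      ENNReal.ofReal (4 * Real.pi) * (ENNReal.ofReal (t ^ 2 / 12) ^ (-lam) * p3 lam a b c d +
        ENNReal.ofReal (256 * ε ^ 4) * (ENNReal.ofReal (t ^ 2 / 12) ^ (-(1 / 2) : ℝ) *
          p3 (1 / 2) a b c d)) := by
  rw [abs_le] at ha hb hc hd
  obtain ⟨g1, g2⟩ := geom a b c d (by rw [abs_le]; constructor <;> linarith)
    (by rw [abs_le]; constructor <;> linarith) (by rw [abs_le]; constructor <;> linarith)
  set A : ℂ := (t : ℂ) * VV a b c d with hA
  have hAn : ‖A‖ = t * ‖VV a b c d‖ := by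
    rw [hA, norm_mul, Complex.norm_real, Real.norm_eq_abs, abs_of_pos ht]
  have hPα : ‖A‖ / 2 ≤ PP (‖A‖ / 2) := by
    unfold PP
    refine Real.le_sqrt_of_sq_le ?_
    linarith
  have hB : ‖((2 * t * ε : ℝ) : ℂ) * vv a b c d‖ ≤ 4 * |ε| * PP (‖A‖ / 2) := by
    rw [norm_mul, Complex.norm_real, Real.norm_eq_abs, abs_mul, abs_mul, abs_of_pos ht,
      abs_of_pos (by norm_num : (0 : ℝ) < 2)]
    calc 2 * t * |ε| * ‖vv a b c d‖ ≤ 2 * t * |ε| * ‖VV a b c d‖ := by gcongr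
      _ = 4 * |ε| * (‖A‖ / 2) := by rw [hAn]; ring
      _ ≤ _ := by gcongr
  have hk := kk_bound A (((2 * t * ε : ℝ) : ℂ) * vv a b c d) (4 * |ε|) (by positivity) hB
  have hP := PP_pos (‖A‖ / 2)
  set P := PP (‖A‖ / 2) with hPd
  have hQ : 1 + (t * (a + b - c - d) / 2) ^ 2 +
      (t * ((a - b - c + d) * (a - b + c - d)) / 6) ^ 2 ≤ P ^ 2 := by
    rw [hPd, PP_sq, hAn]
    have : 1 + (t * (a + b - c - d) / 2) ^ 2 +
      (t * ((a - b - c + d) * (a - b + c - d)) / 6) ^ 2 = 1 + t ^ 2 / 4 *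
        ((a + b - c - d) ^ 2 + 1 / 9 * ((a - b - c + d) * (a - b + c - d)) ^ 2) := by ring
    rw [this]
    calc 1 + t ^ 2 / 4 *
        ((a + b - c - d) ^ 2 + 1 / 9 * ((a - b - c + d) * (a - b + c - d)) ^ 2)
        ≤ 1 + t ^ 2 / 4 * ‖VV a b c d‖ ^ 2 := by gcongr
      _ = _ := by ring
  have b1 := p3_bound lam (3 / 2) (P ^ 2) t (a + b - c - d) (a - b - c + d) (a - b + c - d)
    h0 (by linarith) ht (by rw [abs_le]; constructor <;> linarith)
    (by rw [abs_le]; constructor <;> linarith) (by rw [abs_le]; constructor <;> linarith) hQ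
  have b2 := p3_bound (1 / 2) (1 / 2) (P ^ 2) t (a + b - c - d) (a - b - c + d) (a - b + c - d)
    (by norm_num) le_rfl ht (by rw [abs_le]; constructor <;> linarith)
    (by rw [abs_le]; constructor <;> linarith) (by rw [abs_le]; constructor <;> linarith) hQ
  have e1 : (P ^ 2) ^ (3 / 2 : ℝ) = P ^ 3 := by
    rw [← Real.rpow_natCast P 2, ← Real.rpow_mul hP.le, ← Real.rpow_natCast P 3]
    norm_num
  have e2 : (P ^ 2) ^ (1 / 2 : ℝ) = P := by
    rw [← Real.rpow_natCast P 2, ← Real.rpow_mul hP.le]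
    norm_num
  rw [e1] at b1
  rw [e2] at b2
  rw [← ofReal_norm]
  calc ENNReal.ofReal ‖kk A (((2 * t * ε : ℝ) : ℂ) * vv a b c d)‖
      ≤ ENNReal.ofReal (4 * Real.pi * ((P ^ 3)⁻¹ + (4 * |ε|) ^ 4 * P⁻¹)) :=
        ENNReal.ofReal_le_ofReal hk
    _ = ENNReal.ofReal (4 * Real.pi) * (ENNReal.ofReal ((P ^ 3)⁻¹) +
        ENNReal.ofReal (256 * ε ^ 4) * ENNReal.ofReal (P⁻¹)) := by
        have h9 : (4 * |ε|) ^ 4 = 256 * ε ^ 4 := by
          have : |ε| ^ 4 = ε ^ 4 := by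
            rw [← abs_pow]
            exact abs_of_nonneg (by positivity)
          rw [mul_pow, this]
          norm_num
        rw [h9, ENNReal.ofReal_mul (by positivity), ENNReal.ofReal_add (by positivity)
          (by positivity), ENNReal.ofReal_mul (p := 256 * ε ^ 4) (by positivity)]
    _ ≤ _ := by
        unfold p3
        gcongr

/-! ### integrals of the product kernel -/

lemma lint_two (f : ℝ → ℝ≥0∞) (hf : Measurable f) (c : ℝ) :
    ∫⁻ x, f (c - 2 * x) = ENNReal.ofReal (1 / 2) * ∫⁻ x, f x := by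
  have h1 := Pool.Agent.W771.lint_scale (fun y => f (c - y)) (by fun_prop) 2 (by norm_num)
  rw [h1, lintegral_sub_left_eq_self]
  norm_num

lemma triple (f : ℝ → ℝ≥0∞) (hf : Measurable f) (a : ℝ) :
    ∫⁻ b, ∫⁻ c, ∫⁻ d, f (a + b - c - d) * f (a - b - c + d) * f (a - b + c - d) =
      ENNReal.ofReal (1 / 4) * (∫⁻ x, f x) ^ 3 := by
  set J := ∫⁻ x, f x with hJ
  -- the two inner integrals
  have h1 : ∀ b, ∫⁻ c, ∫⁻ d, f (a + b - c - d) * f (a - b - c + d) * f (a - b + c - d) =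
      ENNReal.ofReal (1 / 2) * J * ∫⁻ m, f (a - b - m) * f (a - b + m) := by
    intro b
    have h2 : ∀ c, ∫⁻ d, f (a + b - c - d) * f (a - b - c + d) * f (a - b + c - d) =
        ∫⁻ m, f (a + b + m - 2 * c) * (f (a - b - m) * f (a - b + m)) := by
      intro c
      rw [← lintegral_sub_left_eq_self (fun d => f (a + b - c - d) * f (a - b - c + d) *
        f (a - b + c - d)) c]
      refine lintegral_congr fun m => ?_
      rw [mul_assoc]
      congr 2
      · ring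
      · congr 1; ring
      · congr 1; ring
    simp_rw [h2]
    rw [lintegral_lintegral_swap (by fun_prop)]
    have h3 : ∀ m, ∫⁻ c, f (a + b + m - 2 * c) * (f (a - b - m) * f (a - b + m)) =
        ENNReal.ofReal (1 / 2) * J * (f (a - b - m) * f (a - b + m)) := by
      intro m
      rw [lintegral_mul_const _ (by fun_prop), lint_two f hf]
    simp_rw [h3]
    rw [lintegral_const_mul _ (by fun_prop)]
  simp_rw [h1]
  have hm : Measurable (fun b => ∫⁻ m, f (a - b - m) * f (a - b + m)) :=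
    Measurable.lintegral_prod_right' (f := fun p : ℝ × ℝ => f (a - p.1 - p.2) * f (a - p.1 + p.2))
      (by fun_prop)
  rw [lintegral_const_mul _ hm]
  have h4 : ∫⁻ b, ∫⁻ m, f (a - b - m) * f (a - b + m) = ENNReal.ofReal (1 / 2) * J * J := by
    have h5 : ∀ b, ∫⁻ m, f (a - b - m) * f (a - b + m) = ∫⁻ n, f n * f (2 * a - n - 2 * b) := by
      intro b
      rw [← lintegral_sub_left_eq_self (fun m => f (a - b - m) * f (a - b + m)) (a - b)]
      refine lintegral_congr fun n => ?_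
      congr 1
      · congr 1; ring
      · congr 1; ring
    simp_rw [h5]
    rw [lintegral_lintegral_swap (by fun_prop)]
    have h6 : ∀ n, ∫⁻ b, f n * f (2 * a - n - 2 * b) = f n * (ENNReal.ofReal (1 / 2) * J) := by
      intro n
      rw [lintegral_const_mul _ (by fun_prop), lint_two f hf]
    simp_rw [h6]
    rw [lintegral_mul_const _ hf, mul_comm]
  rw [h4]
  have h7 : ENNReal.ofReal (1 / 4) = ENNReal.ofReal (1 / 2) * ENNReal.ofReal (1 / 2) := by
    rw [← ENNReal.ofReal_mul (by norm_num)]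
    norm_num
  rw [h7]
  ring

/-- four-linear bound -/
lemma four (lam : ℝ) (g : ℝ → ℝ≥0∞) (hg : Measurable g) :
    ∫⁻ x : ℝ × ℝ, ∫⁻ y : ℝ × ℝ, (g x.1 * g x.2) * (g y.1 * g y.2) * p3 lam x.1 x.2 y.1 y.2 ≤
      ENNReal.ofReal (1 / 4) * (∫⁻ x, fk lam x) ^ 3 * ∫⁻ x, g x ^ 4 := by
  have hfm := fk_meas lam
  have hp : Measurable (fun q : (ℝ × ℝ) × (ℝ × ℝ) => p3 lam q.1.1 q.1.2 q.2.1 q.2.2) := by
    unfold p3
    fun_prop
  have s1 := schur (volume : Measure (ℝ × ℝ)) (fun x => g x.1 * g x.2) (by fun_prop)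
    (fun x y => p3 lam x.1 x.2 y.1 y.2) hp (by
      intro x y
      unfold p3
      have e1 : y.1 + y.2 - x.1 - x.2 = -(x.1 + x.2 - y.1 - y.2) := by ring
      have e2 : y.1 - y.2 - x.1 + x.2 = -(x.1 - x.2 - y.1 + y.2) := by ring
      have e3 : y.1 - y.2 + x.1 - x.2 = x.1 - x.2 + y.1 - y.2 := by ring
      rw [e1, e2, e3, fk_neg, fk_neg])
  refine s1.trans ?_
  set Ω : ℝ → ℝ → ℝ≥0∞ := fun a b => ∫⁻ c, ∫⁻ d, p3 lam a b c d with hΩ
  have hΩ2 : ∀ x : ℝ × ℝ, ∫⁻ y : ℝ × ℝ, p3 lam x.1 x.2 y.1 y.2 = Ω x.1 x.2 := by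
    intro x
    have hpx : Measurable (fun y : ℝ × ℝ => p3 lam x.1 x.2 y.1 y.2) := by
      unfold p3
      fun_prop
    rw [Measure.volume_eq_prod, lintegral_prod _ hpx.aemeasurable]
  have hΩm : Measurable (Function.uncurry Ω) := by
    have h1 : Measurable (fun q : ((ℝ × ℝ) × ℝ) × ℝ => p3 lam q.1.1.1 q.1.1.2 q.1.2 q.2) := by
      unfold p3
      fun_prop
    exact (h1.lintegral_prod_right').lintegral_prod_right'
  have hΩs : ∀ a b, Ω a b = Ω b a := by
    intro a b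
    have h1 : ∀ c d, p3 lam a b c d = p3 lam b a c d := by
      intro c d
      unfold p3
      have e1 : b + a - c - d = a + b - c - d := by ring
      have e2 : b - a - c + d = -(a - b + c - d) := by ring
      have e3 : b - a + c - d = -(a - b - c + d) := by ring
      rw [e1, e2, e3, fk_neg, fk_neg]
      ring
    simp only [hΩ, h1]
  simp_rw [hΩ2]
  rw [Measure.volume_eq_prod, lintegral_prod _ (by
    refine AEMeasurable.mul ?_ ?_
    · fun_prop
    · exact (hΩm.comp (measurable_fst.prodMk measurable_snd)).aemeasurable)]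
  have h2 : ∀ a b, (g (a, b).1 * g (a, b).2) ^ 2 * Ω (a, b).1 (a, b).2 =
      g a ^ 2 * g b ^ 2 * Ω a b := by
    intro a b
    simp only
    ring
  simp_rw [h2]
  refine (schur (volume : Measure ℝ) (fun a => g a ^ 2) (by fun_prop) Ω hΩm hΩs).trans ?_
  have h3 : ∀ a, ∫⁻ b, Ω a b = ENNReal.ofReal (1 / 4) * (∫⁻ x, fk lam x) ^ 3 := fun a =>
    triple (fk lam) hfm a
  simp_rw [h3]
  rw [lintegral_mul_const _ (by fun_prop), mul_comm]
  refine le_of_eq ?_
  congr 1
  refine lintegral_congr fun a => ?_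
  ring

end Pool.Agent.J6H28.PL
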