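import Mathlib
import Pool.Agent.J6H28.PL.Arc
set_option autoImplicit false

/-! The `L⁴` estimate for the oscillatory integral with phase `t (Re (z e^{-iθ}) - ε)²`. -/

namespace Pool.Agent.J6H28.PL

open MeasureTheory Set Complex
open scoped ENNReal NNReal ComplexConjugate

/-- the exponential -/
noncomputable def ep (t ε : ℝ) (z : ℂ) (θ : ℝ) : ℂ :=
  cexp (((t * ((z * cs θ).re - ε) ^ 2 : ℝ) : ℂ) * I)

/-- the oscillatory integral -/
noncomputable def DD (t ε : ℝ) (c : ℝ → ℂ) (z : ℂ) : ℂ := ∫ θ, c θ * ep t ε z θ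

lemma ep_norm (t ε : ℝ) (z : ℂ) (θ : ℝ) : ‖ep t ε z θ‖ = 1 := by
  unfold ep
  rw [Complex.norm_exp_ofReal_mul_I]

lemma ep_cont (t : ℝ) : Continuous (fun q : ℝ × ℂ × ℝ => ep t q.1 q.2.1 q.2.2) := by
  unfold ep
  have := cs_cont
  fun_prop

lemma re_sq (w : ℂ) : w.re ^ 2 = (‖w‖ ^ 2 + (w ^ 2).re) / 2 := by
  rw [Complex.sq_norm, Complex.normSq_apply, sq w, Complex.mul_re]
  ring

lemma ep_phase (t ε : ℝ) (z : ℂ) (a b c d : ℝ) :
    (ep t ε z a * ep t ε z b) * conj (ep t ε z c * ep t ε z d) =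
      cexp ((((1 / 2) * (((t : ℂ) * VV a b c d) * z ^ 2).re -
        ((((2 * t * ε : ℝ) : ℂ) * vv a b c d) * z).re : ℝ) : ℂ) * I) := by
  have hconj : ∀ x : ℝ, conj (cexp ((x : ℂ) * I)) = cexp (((-x : ℝ) : ℂ) * I) := by
    intro x
    rw [← Complex.exp_conj]
    congr 1
    rw [map_mul, Complex.conj_ofReal, Complex.conj_I]
    push_cast
    ring
  unfold ep
  rw [map_mul, hconj, hconj, ← Complex.exp_add, ← Complex.exp_add, ← Complex.exp_add]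
  congr 1
  rw [← add_mul, ← add_mul, ← add_mul]
  congr 1
  norm_cast
  have key : ∀ θ : ℝ, ((z * cs θ).re - ε) ^ 2 =
      (‖z‖ ^ 2 + (cs θ ^ 2 * z ^ 2).re) / 2 - 2 * ε * (cs θ * z).re + ε ^ 2 := by
    intro θ
    rw [sub_sq, re_sq, norm_mul, cs_norm, mul_one, mul_pow, mul_comm (z ^ 2), mul_comm z]
    ring
  have h1 : (((t : ℂ) * VV a b c d) * z ^ 2).re = t * ((cs a ^ 2 * z ^ 2).re +
      (cs b ^ 2 * z ^ 2).re - (cs c ^ 2 * z ^ 2).re - (cs d ^ 2 * z ^ 2).re) := by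
    unfold VV
    rw [mul_assoc, Complex.re_ofReal_mul]
    congr 1
    rw [← Complex.add_re, ← Complex.sub_re, ← Complex.sub_re]
    congr 1
    ring
  have h2 : ((((2 * t * ε : ℝ) : ℂ) * vv a b c d) * z).re = 2 * t * ε * ((cs a * z).re +
      (cs b * z).re - (cs c * z).re - (cs d * z).re) := by
    unfold vv
    rw [mul_assoc, Complex.re_ofReal_mul]
    congr 1
    rw [← Complex.add_re, ← Complex.sub_re, ← Complex.sub_re]
    congr 1
    ring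
  rw [key, key, key, key, h1, h2]
  ring

lemma wt_integrable : Integrable wt := by
  have h1 : Integrable (fun p : ℝ × ℝ => (|p.1| ^ 4 * Real.exp (-p.1 ^ 2)) *
      (|p.2| ^ 0 * Real.exp (-p.2 ^ 2))) := by
    rw [Measure.volume_eq_prod]
    exact (pow_gauss_integrable 4).mul_prod (pow_gauss_integrable 0)
  have h2 : Integrable (fun p : ℝ × ℝ => (|p.1| ^ 2 * Real.exp (-p.1 ^ 2)) *
      (|p.2| ^ 2 * Real.exp (-p.2 ^ 2))) := by
    rw [Measure.volume_eq_prod]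
    exact (pow_gauss_integrable 2).mul_prod (pow_gauss_integrable 2)
  have h3 : Integrable (fun p : ℝ × ℝ => (|p.1| ^ 0 * Real.exp (-p.1 ^ 2)) *
      (|p.2| ^ 4 * Real.exp (-p.2 ^ 2))) := by
    rw [Measure.volume_eq_prod]
    exact (pow_gauss_integrable 0).mul_prod (pow_gauss_integrable 4)
  have h4 := (h1.add (h2.const_mul 2)).add h3
  have h5 : Integrable (fun p : ℝ × ℝ => wt (Complex.measurableEquivRealProd.symm p)) := by
    refine h4.congr (Filter.Eventually.of_forall fun p => ?_)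
    obtain ⟨x, y⟩ := p
    have hn : ‖(x : ℂ) + (y : ℂ) * I‖ ^ 2 = x ^ 2 + y ^ 2 := by
      rw [Complex.sq_norm, Complex.normSq_add_mul_I]
    have hxy : Complex.measurableEquivRealProd.symm (x, y) = (x : ℂ) + (y : ℂ) * I := by
      rw [← Complex.mk_eq_add_mul_I]
      rfl
    simp only [Pi.add_apply]
    rw [hxy]
    unfold wt
    have e4 : ‖(x : ℂ) + (y : ℂ) * I‖ ^ 4 = (‖(x : ℂ) + (y : ℂ) * I‖ ^ 2) ^ 2 := by ring
    rw [e4, hn, neg_add, Real.exp_add, sq_abs, sq_abs]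
    have ex : |x| ^ 4 = x ^ 4 := by rw [← abs_pow]; exact abs_of_nonneg (by positivity)
    have ey : |y| ^ 4 = y ^ 4 := by rw [← abs_pow]; exact abs_of_nonneg (by positivity)
    rw [ex, ey]
    ring
  exact (Complex.volume_preserving_equiv_real_prod.symm.integrable_comp_emb
    Complex.measurableEquivRealProd.symm.measurableEmbedding).1 h5

/-- **piece A** -/
lemma pieceA (lam : ℝ) (h0 : 0 < lam) (h1 : lam < 1) : ∃ C : ℝ≥0, ∀ (t ε θ₀ : ℝ) (c : ℝ → ℂ),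
    0 < t → Measurable c → Integrable c → (∀ θ, c θ ≠ 0 → |θ - θ₀| ≤ 1 / 8) →
    ∫⁻ z, ENNReal.ofReal (wt z) * ‖DD t ε c z‖ₑ ^ 4 ≤
      C * (ENNReal.ofReal (t ^ (-2 * lam)) + ENNReal.ofReal (ε ^ 4 * t⁻¹)) * ∫⁻ θ, ‖c θ‖ₑ ^ 4 := by
  set L1 := ∫⁻ x, fk lam x with hL1
  set L2 := ∫⁻ x, fk (1 / 2) x with hL2
  have hL1t : L1 ≠ ⊤ := (fk_lt_top lam h0.le h1).ne
  have hL2t : L2 ≠ ⊤ := (fk_lt_top (1 / 2) (by norm_num) (by norm_num)).ne
  set C1 : ℝ≥0∞ := ENNReal.ofReal (4 * Real.pi) * ENNReal.ofReal (12 ^ lam) *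
    (ENNReal.ofReal (1 / 4) * L1 ^ 3) with hC1
  set C2 : ℝ≥0∞ := ENNReal.ofReal (4 * Real.pi) * ENNReal.ofReal (256 * 12 ^ (1 / 2 : ℝ)) *
    (ENNReal.ofReal (1 / 4) * L2 ^ 3) with hC2
  have hC1t : C1 ≠ ⊤ := by rw [hC1]; finiteness
  have hC2t : C2 ≠ ⊤ := by rw [hC2]; finiteness
  refine ⟨(C1 + C2).toNNReal, ?_⟩
  intro t ε θ₀ c ht hc hci hsupp
  rw [ENNReal.coe_toNNReal (by finiteness)]
  set F : ℝ × ℝ → ℂ := fun x => c x.1 * c x.2 with hF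
  set E : ℂ → ℝ × ℝ → ℂ := fun z x => ep t ε z x.1 * ep t ε z x.2 with hE
  have hFi : Integrable F := by
    rw [Measure.volume_eq_prod]
    exact hci.mul_prod hci
  have hEc : Continuous (Function.uncurry E) := by
    have hcs := cs_cont
    have h2 : Continuous (fun q : ℂ × (ℝ × ℝ) => ep t ε q.1 q.2.1) := by
      unfold ep
      fun_prop
    have h3 : Continuous (fun q : ℂ × (ℝ × ℝ) => ep t ε q.1 q.2.2) := by
      unfold ep
      fun_prop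
    exact h2.mul h3
  have hDD : ∀ z, ∫ x, F x * E z x = DD t ε c z ^ 2 := by
    intro z
    have h2 : (fun x : ℝ × ℝ => F x * E z x) =
        fun x : ℝ × ℝ => (c x.1 * ep t ε z x.1) * (c x.2 * ep t ε z x.2) := by
      funext x
      simp only [hF, hE]
      ring
    rw [h2, Measure.volume_eq_prod, integral_prod_mul (fun a => c a * ep t ε z a)
      (fun a => c a * ep t ε z a), sq]
    rfl
  have hK : ∀ x y : ℝ × ℝ, ∫ z, ((wt z : ℝ) : ℂ) * (E z x * conj (E z y)) =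
      kk ((t : ℂ) * VV x.1 x.2 y.1 y.2) (((2 * t * ε : ℝ) : ℂ) * vv x.1 x.2 y.1 y.2) := by
    intro x y
    unfold kk
    refine integral_congr_ae (Filter.Eventually.of_forall fun z => ?_)
    simp only [hE]
    rw [ep_phase]
  have h2 := tts (volume : Measure (ℝ × ℝ)) F hFi E hEc.measurable (by
    intro z x
    simp only [hE, norm_mul, ep_norm, mul_one]
    exact le_rfl) wt wt_integrable wt_nonneg
  simp_rw [hDD, hK] at h2
  have h3 : ∫⁻ z, ENNReal.ofReal (wt z) * ‖DD t ε c z‖ₑ ^ 4 =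
      ∫⁻ z, ENNReal.ofReal (wt z) * ‖DD t ε c z ^ 2‖ₑ ^ 2 := by
    refine lintegral_congr fun z => ?_
    rw [enorm_pow, ← pow_mul]
  rw [h3]
  refine h2.trans ?_
  set a1 : ℝ≥0∞ := ENNReal.ofReal (4 * Real.pi) * ENNReal.ofReal (t ^ 2 / 12) ^ (-lam) with ha1
  set a2 : ℝ≥0∞ := ENNReal.ofReal (4 * Real.pi) * (ENNReal.ofReal (256 * ε ^ 4) *
    ENNReal.ofReal (t ^ 2 / 12) ^ (-(1 / 2) : ℝ)) with ha2
  set g : ℝ → ℝ≥0∞ := fun θ => ‖c θ‖ₑ with hg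
  have hgm : Measurable g := hc.enorm
  have h4 : ∀ x y : ℝ × ℝ, ‖F x‖ₑ * ‖F y‖ₑ *
      ‖kk ((t : ℂ) * VV x.1 x.2 y.1 y.2) (((2 * t * ε : ℝ) : ℂ) * vv x.1 x.2 y.1 y.2)‖ₑ ≤
      a1 * ((g x.1 * g x.2) * (g y.1 * g y.2) * p3 lam x.1 x.2 y.1 y.2) +
      a2 * ((g x.1 * g x.2) * (g y.1 * g y.2) * p3 (1 / 2) x.1 x.2 y.1 y.2) := by
    intro x y
    have e1 : ‖F x‖ₑ = g x.1 * g x.2 := by simp only [hF, hg, enorm_mul]
    have e2 : ‖F y‖ₑ = g y.1 * g y.2 := by simp only [hF, hg, enorm_mul]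
    rw [e1, e2]
    by_cases h5 : c x.1 = 0
    · simp [hg, h5]
    by_cases h6 : c x.2 = 0
    · simp [hg, h6]
    by_cases h7 : c y.1 = 0
    · simp [hg, h7]
    by_cases h8 : c y.2 = 0
    · simp [hg, h8]
    have h9 := arcK t ε θ₀ x.1 x.2 y.1 y.2 lam ht h0 h1.le (hsupp _ h5) (hsupp _ h6) (hsupp _ h7)
      (hsupp _ h8)
    calc (g x.1 * g x.2) * (g y.1 * g y.2) *
        ‖kk ((t : ℂ) * VV x.1 x.2 y.1 y.2) (((2 * t * ε : ℝ) : ℂ) * vv x.1 x.2 y.1 y.2)‖ₑ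
        ≤ (g x.1 * g x.2) * (g y.1 * g y.2) * _ := mul_le_mul_right h9 _
      _ = _ := by
        rw [ha1, ha2]
        ring
  have hp : ∀ l : ℝ, Measurable (fun q : (ℝ × ℝ) × (ℝ × ℝ) =>
      (g q.1.1 * g q.1.2) * (g q.2.1 * g q.2.2) * p3 l q.1.1 q.1.2 q.2.1 q.2.2) := by
    intro l
    have := fk_meas l
    unfold p3
    fun_prop
  have hpx : ∀ (l : ℝ) (x : ℝ × ℝ), Measurable (fun y : ℝ × ℝ =>
      (g x.1 * g x.2) * (g y.1 * g y.2) * p3 l x.1 x.2 y.1 y.2) := by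
    intro l x
    have := fk_meas l
    unfold p3
    fun_prop
  have hi : ∀ l : ℝ, Measurable (fun x : ℝ × ℝ => ∫⁻ y : ℝ × ℝ,
      (g x.1 * g x.2) * (g y.1 * g y.2) * p3 l x.1 x.2 y.1 y.2) := fun l =>
    (hp l).lintegral_prod_right'
  have e3 : ENNReal.ofReal (t ^ 2 / 12) ^ (-lam) =
      ENNReal.ofReal (12 ^ lam) * ENNReal.ofReal (t ^ (-2 * lam)) := by
    rw [ENNReal.ofReal_rpow_of_pos (by positivity), ← ENNReal.ofReal_mul (by positivity)]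
    congr 1
    rw [Real.div_rpow (by positivity) (by norm_num), ← Real.rpow_natCast t 2,
      ← Real.rpow_mul ht.le, Real.rpow_neg (by norm_num : (0 : ℝ) ≤ 12), div_inv_eq_mul, mul_comm]
    congr 2
    push_cast
    ring
  have e4 : ENNReal.ofReal (256 * ε ^ 4) * ENNReal.ofReal (t ^ 2 / 12) ^ (-(1 / 2) : ℝ) =
      ENNReal.ofReal (256 * 12 ^ (1 / 2 : ℝ)) * ENNReal.ofReal (ε ^ 4 * t⁻¹) := by
    rw [ENNReal.ofReal_rpow_of_pos (by positivity), ← ENNReal.ofReal_mul (by positivity),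
      ← ENNReal.ofReal_mul (by positivity)]
    congr 1
    rw [Real.div_rpow (by positivity) (by norm_num), ← Real.rpow_natCast t 2,
      ← Real.rpow_mul ht.le, Real.rpow_neg (by norm_num : (0 : ℝ) ≤ 12), div_inv_eq_mul]
    have : ((2 : ℕ) : ℝ) * (-(1 / 2) : ℝ) = -1 := by norm_num
    rw [this, Real.rpow_neg_one]
    ring
  calc _ ≤ ∫⁻ x : ℝ × ℝ, ∫⁻ y : ℝ × ℝ,
        (a1 * ((g x.1 * g x.2) * (g y.1 * g y.2) * p3 lam x.1 x.2 y.1 y.2) +
        a2 * ((g x.1 * g x.2) * (g y.1 * g y.2) * p3 (1 / 2) x.1 x.2 y.1 y.2)) :=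
        lintegral_mono fun x => lintegral_mono fun y => h4 x y
    _ = ∫⁻ x : ℝ × ℝ, (a1 * (∫⁻ y : ℝ × ℝ,
          (g x.1 * g x.2) * (g y.1 * g y.2) * p3 lam x.1 x.2 y.1 y.2) +
        a2 * ∫⁻ y : ℝ × ℝ, (g x.1 * g x.2) * (g y.1 * g y.2) * p3 (1 / 2) x.1 x.2 y.1 y.2) := by
        refine lintegral_congr fun x => ?_
        rw [lintegral_add_left ((hpx lam x).const_mul _), lintegral_const_mul _ (hpx lam x),
          lintegral_const_mul _ (hpx (1 / 2) x)]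
    _ = a1 * (∫⁻ x : ℝ × ℝ, ∫⁻ y : ℝ × ℝ,
          (g x.1 * g x.2) * (g y.1 * g y.2) * p3 lam x.1 x.2 y.1 y.2) +
        a2 * ∫⁻ x : ℝ × ℝ, ∫⁻ y : ℝ × ℝ,
          (g x.1 * g x.2) * (g y.1 * g y.2) * p3 (1 / 2) x.1 x.2 y.1 y.2 := by
        rw [lintegral_add_left ((hi lam).const_mul _), lintegral_const_mul _ (hi lam),
          lintegral_const_mul _ (hi (1 / 2))]
    _ ≤ a1 * (ENNReal.ofReal (1 / 4) * L1 ^ 3 * ∫⁻ x, g x ^ 4) +
        a2 * (ENNReal.ofReal (1 / 4) * L2 ^ 3 * ∫⁻ x, g x ^ 4) := by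
        gcongr
        · exact four lam g hgm
        · exact four (1 / 2) g hgm
    _ = C1 * (ENNReal.ofReal (t ^ (-2 * lam)) * ∫⁻ x, g x ^ 4) +
        C2 * (ENNReal.ofReal (ε ^ 4 * t⁻¹) * ∫⁻ x, g x ^ 4) := by
        rw [ha1, ha2, e3, e4, hC1, hC2]
        ring
    _ ≤ (C1 + C2) * (ENNReal.ofReal (t ^ (-2 * lam)) * ∫⁻ x, g x ^ 4) +
        (C1 + C2) * (ENNReal.ofReal (ε ^ 4 * t⁻¹) * ∫⁻ x, g x ^ 4) := by
        gcongr
        · exact le_self_add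
        · exact le_add_self
    _ = _ := by ring

end Pool.Agent.J6H28.PL
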