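import Mathlib
import Pool.Agent.J6H28.PL.L4
set_option autoImplicit false

/-! The `L⁴` estimate away from the origin. -/

namespace Pool.Agent.J6H28.PL

open MeasureTheory Set Complex
open scoped ENNReal NNReal ComplexConjugate

lemma lint_smul (F : ℂ → ℝ≥0∞) (R : ℝ) (hR : 0 < R) :
    ∫⁻ z, F z = ENNReal.ofReal (R ^ 2) * ∫⁻ z, F ((R : ℂ) * z) := by
  set e : ℂ ≃ᵐ ℂ := (Homeomorph.smulOfNeZero R hR.ne' : ℂ ≃ₜ ℂ).toMeasurableEquiv with he
  have h1 : Measure.map e (volume : Measure ℂ) = ENNReal.ofReal ((R ^ 2)⁻¹) • volume := by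
    have := Measure.map_addHaar_smul (volume : Measure ℂ) hR.ne'
    rw [Complex.finrank_real_complex, abs_of_pos (by positivity)] at this
    exact this
  have h2 : ∫⁻ z, F z ∂(Measure.map e volume) = ∫⁻ z, F (e z) := lintegral_map_equiv F e
  rw [h1, lintegral_smul_measure, smul_eq_mul] at h2
  have h3 : ∀ z, e z = (R : ℂ) * z := by
    intro z
    change R • z = _
    rw [Complex.real_smul]
  simp_rw [h3] at h2
  rw [← h2, ← mul_assoc, ← ENNReal.ofReal_mul (by positivity), mul_inv_cancel₀ (by positivity),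
    ENNReal.ofReal_one, one_mul]

lemma DD_scale (t ε R : ℝ) (hR : 0 < R) (c : ℝ → ℂ) (z : ℂ) :
    DD t ε c ((R : ℂ) * z) = DD (t * R ^ 2) (ε / R) c z := by
  unfold DD ep
  congr 1
  funext θ
  congr 3
  rw [mul_assoc, Complex.re_ofReal_mul]
  congr 1
  field_simp

lemma shell (lam : ℝ) (h0 : 0 < lam) (h1 : lam < 1) : ∃ C : ℝ≥0, ∀ (t ε θ₀ : ℝ) (c : ℝ → ℂ)
    (R : ℝ), 0 < R → 0 < t → Measurable c → Integrable c → (∀ θ, c θ ≠ 0 → |θ - θ₀| ≤ 1 / 8) →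
    ∫⁻ z in {z : ℂ | R ≤ ‖z‖ ∧ ‖z‖ < 2 * R}, ‖DD t ε c z‖ₑ ^ 4 ≤
      C * (ENNReal.ofReal (t ^ (-2 * lam)) * ENNReal.ofReal (R ^ (2 - 4 * lam)) +
        ENNReal.ofReal (ε ^ 4 * t⁻¹) * ENNReal.ofReal (R ^ (-4 : ℝ))) * ∫⁻ θ, ‖c θ‖ₑ ^ 4 := by
  obtain ⟨C, hC⟩ := pieceA lam h0 h1
  refine ⟨C * Real.toNNReal (Real.exp 4), ?_⟩
  intro t ε θ₀ c R hR ht hc hci hs
  have hms : MeasurableSet {z : ℂ | R ≤ ‖z‖ ∧ ‖z‖ < 2 * R} := by measurability
  rw [← lintegral_indicator hms, lint_smul _ R hR]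
  have h2 : ∀ z : ℂ, ({z : ℂ | R ≤ ‖z‖ ∧ ‖z‖ < 2 * R}.indicator
      (fun z => ‖DD t ε c z‖ₑ ^ 4)) ((R : ℂ) * z) ≤
      ENNReal.ofReal (Real.exp 4) * (ENNReal.ofReal (wt z) * ‖DD (t * R ^ 2) (ε / R) c z‖ₑ ^ 4) := by
    intro z
    by_cases hz : (R : ℂ) * z ∈ {z : ℂ | R ≤ ‖z‖ ∧ ‖z‖ < 2 * R}
    · rw [indicator_of_mem hz, DD_scale t ε R hR, ← mul_assoc]
      obtain ⟨hz1, hz2⟩ := hz
      rw [norm_mul, Complex.norm_real, Real.norm_eq_abs, abs_of_pos hR] at hz1 hz2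
      have hz3 : 1 ≤ ‖z‖ := by
        by_contra hcon
        push Not at hcon
        nlinarith
      have hz4 : ‖z‖ < 2 := by
        by_contra hcon
        push Not at hcon
        nlinarith
      have h3 : 1 ≤ ENNReal.ofReal (Real.exp 4) * ENNReal.ofReal (wt z) := by
        rw [← ENNReal.ofReal_mul (Real.exp_pos 4).le, ← ENNReal.ofReal_one]
        apply ENNReal.ofReal_le_ofReal
        unfold wt
        have h4 : 1 ≤ ‖z‖ ^ 4 := one_le_pow₀ hz3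
        have h5 : 1 ≤ Real.exp 4 * Real.exp (-‖z‖ ^ 2) := by
          rw [← Real.exp_add]
          apply Real.one_le_exp
          nlinarith
        nlinarith
      exact le_mul_of_one_le_left bot_le h3
    · rw [indicator_of_notMem hz]
      exact bot_le
  have h3 := hC (t * R ^ 2) (ε / R) θ₀ c (by positivity) hc hci hs
  have e1 : ENNReal.ofReal (R ^ 2) * ENNReal.ofReal ((t * R ^ 2) ^ (-2 * lam)) =
      ENNReal.ofReal (t ^ (-2 * lam)) * ENNReal.ofReal (R ^ (2 - 4 * lam)) := by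
    rw [← ENNReal.ofReal_mul (by positivity), ← ENNReal.ofReal_mul (by positivity)]
    congr 1
    rw [Real.mul_rpow ht.le (by positivity), ← Real.rpow_natCast R 2, ← Real.rpow_mul hR.le,
      mul_left_comm, ← Real.rpow_add hR]
    congr 2
    push_cast
    ring
  have e2 : ENNReal.ofReal (R ^ 2) * ENNReal.ofReal ((ε / R) ^ 4 * (t * R ^ 2)⁻¹) =
      ENNReal.ofReal (ε ^ 4 * t⁻¹) * ENNReal.ofReal (R ^ (-4 : ℝ)) := by
    rw [← ENNReal.ofReal_mul (by positivity), ← ENNReal.ofReal_mul (by positivity)]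
    congr 1
    rw [Real.rpow_neg hR.le, show (4 : ℝ) = ((4 : ℕ) : ℝ) by norm_num, Real.rpow_natCast]
    field_simp
  calc _ ≤ ENNReal.ofReal (R ^ 2) * ∫⁻ z, ENNReal.ofReal (Real.exp 4) *
        (ENNReal.ofReal (wt z) * ‖DD (t * R ^ 2) (ε / R) c z‖ₑ ^ 4) := by
        gcongr with z
        exact h2 z
    _ = ENNReal.ofReal (R ^ 2) * (ENNReal.ofReal (Real.exp 4) * ∫⁻ z,
        (ENNReal.ofReal (wt z) * ‖DD (t * R ^ 2) (ε / R) c z‖ₑ ^ 4)) := by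
        rw [lintegral_const_mul' _ _ ENNReal.ofReal_ne_top]
    _ ≤ ENNReal.ofReal (R ^ 2) * (ENNReal.ofReal (Real.exp 4) *
        (C * (ENNReal.ofReal ((t * R ^ 2) ^ (-2 * lam)) +
          ENNReal.ofReal ((ε / R) ^ 4 * (t * R ^ 2)⁻¹)) * ∫⁻ θ, ‖c θ‖ₑ ^ 4)) := by gcongr
    _ = (C * ENNReal.ofReal (Real.exp 4)) *
        (ENNReal.ofReal (R ^ 2) * ENNReal.ofReal ((t * R ^ 2) ^ (-2 * lam)) +
          ENNReal.ofReal (R ^ 2) * ENNReal.ofReal ((ε / R) ^ 4 * (t * R ^ 2)⁻¹)) *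
            ∫⁻ θ, ‖c θ‖ₑ ^ 4 := by ring
    _ = _ := by
        rw [e1, e2, ENNReal.coe_mul]
        rfl

lemma geo (a : ℝ) (ha : a < 0) : ∑' j : ℕ, ENNReal.ofReal (((2 : ℝ) ^ j / 8) ^ a) < ⊤ := by
  have h : ∀ j : ℕ, ENNReal.ofReal (((2 : ℝ) ^ j / 8) ^ a) =
      ENNReal.ofReal (8 ^ (-a)) * ENNReal.ofReal (2 ^ a) ^ j := by
    intro j
    rw [← ENNReal.ofReal_pow (by positivity), ← ENNReal.ofReal_mul (by positivity)]
    congr 1
    rw [Real.div_rpow (by positivity) (by norm_num), Real.rpow_neg (by norm_num),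
      ← Real.rpow_natCast, ← Real.rpow_natCast, ← Real.rpow_mul (by norm_num),
      ← Real.rpow_mul (by norm_num), mul_comm a (j : ℝ)]
    rw [div_eq_mul_inv, mul_comm]
  simp_rw [h]
  rw [ENNReal.tsum_mul_left, ENNReal.tsum_geometric]
  refine ENNReal.mul_lt_top ENNReal.ofReal_lt_top ?_
  rw [ENNReal.inv_lt_top, tsub_pos_iff_lt]
  rw [← ENNReal.ofReal_one]
  apply (ENNReal.ofReal_lt_ofReal_iff one_pos).2
  exact Real.rpow_lt_one_of_one_lt_of_neg (by norm_num) ha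

/-- piece B for functions supported in an arc -/
lemma pieceB0 (lam : ℝ) (h0 : 1 / 2 < lam) (h1 : lam < 1) : ∃ C : ℝ≥0, ∀ (t ε θ₀ : ℝ) (c : ℝ → ℂ),
    0 < t → Measurable c → Integrable c → (∀ θ, c θ ≠ 0 → |θ - θ₀| ≤ 1 / 8) →
    ∫⁻ z in {z : ℂ | 1 / 8 ≤ ‖z‖}, ‖DD t ε c z‖ₑ ^ 4 ≤
      C * (ENNReal.ofReal (t ^ (-2 * lam)) + ENNReal.ofReal (ε ^ 4 * t⁻¹)) * ∫⁻ θ, ‖c θ‖ₑ ^ 4 := by
  obtain ⟨C, hC⟩ := shell lam (by linarith) h1
  set S1 := ∑' j : ℕ, ENNReal.ofReal (((2 : ℝ) ^ j / 8) ^ (2 - 4 * lam)) with hS1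
  set S2 := ∑' j : ℕ, ENNReal.ofReal (((2 : ℝ) ^ j / 8) ^ (-4 : ℝ)) with hS2
  have hS1t : S1 ≠ ⊤ := (geo _ (by linarith)).ne
  have hS2t : S2 ≠ ⊤ := (geo _ (by norm_num)).ne
  refine ⟨C * (S1 + S2).toNNReal, ?_⟩
  intro t ε θ₀ c ht hc hci hs
  rw [ENNReal.coe_mul, ENNReal.coe_toNNReal (by finiteness)]
  have hsub : {z : ℂ | 1 / 8 ≤ ‖z‖} ⊆
      ⋃ j : ℕ, {z : ℂ | (2 : ℝ) ^ j / 8 ≤ ‖z‖ ∧ ‖z‖ < 2 * ((2 : ℝ) ^ j / 8)} := by
    intro z hz
    have hz' : (1 : ℝ) / 8 ≤ ‖z‖ := hz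
    obtain ⟨n, hn1, hn2⟩ := exists_nat_pow_near (x := 8 * ‖z‖) (y := (2 : ℝ)) (by linarith)
      (by norm_num)
    rw [mem_iUnion]
    refine ⟨n, ?_, ?_⟩
    · linarith
    · rw [pow_succ] at hn2
      linarith
  calc _ ≤ ∑' j : ℕ, ∫⁻ z in {z : ℂ | (2 : ℝ) ^ j / 8 ≤ ‖z‖ ∧ ‖z‖ < 2 * ((2 : ℝ) ^ j / 8)},
        ‖DD t ε c z‖ₑ ^ 4 := (lintegral_mono_set hsub).trans (lintegral_iUnion_le _ _)
    _ ≤ ∑' j : ℕ, C * (ENNReal.ofReal (t ^ (-2 * lam)) *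
          ENNReal.ofReal (((2 : ℝ) ^ j / 8) ^ (2 - 4 * lam)) +
        ENNReal.ofReal (ε ^ 4 * t⁻¹) * ENNReal.ofReal (((2 : ℝ) ^ j / 8) ^ (-4 : ℝ))) *
          ∫⁻ θ, ‖c θ‖ₑ ^ 4 := by
        refine ENNReal.tsum_le_tsum fun j => ?_
        exact hC t ε θ₀ c ((2 : ℝ) ^ j / 8) (by positivity) ht hc hci hs
    _ = C * (ENNReal.ofReal (t ^ (-2 * lam)) * S1 + ENNReal.ofReal (ε ^ 4 * t⁻¹) * S2) *
          ∫⁻ θ, ‖c θ‖ₑ ^ 4 := by
        rw [ENNReal.tsum_mul_right, ENNReal.tsum_mul_left, ENNReal.tsum_add, ENNReal.tsum_mul_left,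
          ENNReal.tsum_mul_left]
    _ ≤ C * (ENNReal.ofReal (t ^ (-2 * lam)) * (S1 + S2) +
          ENNReal.ofReal (ε ^ 4 * t⁻¹) * (S1 + S2)) * ∫⁻ θ, ‖c θ‖ₑ ^ 4 := by
        gcongr
        · exact le_self_add
        · exact le_add_self
    _ = _ := by ring

lemma pow4_sum {ι : Type*} (s : Finset ι) (f : ι → ℝ≥0∞) :
    (∑ i ∈ s, f i) ^ 4 ≤ (s.card : ℝ≥0∞) ^ 3 * ∑ i ∈ s, f i ^ 4 := by
  have h := ENNReal.rpow_sum_le_const_mul_sum_rpow s f (p := 4) (by norm_num)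
  have e : ∀ x : ℝ≥0∞, x ^ (4 : ℝ) = x ^ 4 := fun x => by
    rw [← ENNReal.rpow_natCast]; norm_num
  have e3 : (4 : ℝ) - 1 = ((3 : ℕ) : ℝ) := by norm_num
  simp_rw [e] at h
  rw [e3, ENNReal.rpow_natCast] at h
  exact h

/-- the `i`-th arc -/
def arc (i : ℕ) : Set ℝ := Ico (-4 + (i : ℝ) / 4) (-4 + ((i : ℝ) + 1) / 4)

lemma arc_meas (i : ℕ) : MeasurableSet (arc i) := measurableSet_Ico

lemma arc_sum {M : Type*} [AddCommMonoid M] (c : ℝ → M) (hs : ∀ θ, c θ ≠ 0 → |θ| < 4) (θ : ℝ) :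
    ∑ i ∈ Finset.range 32, (arc i).indicator c θ = c θ := by
  by_cases h : c θ = 0
  · rw [h]
    refine Finset.sum_eq_zero fun i _ => ?_
    by_cases hi : θ ∈ arc i
    · rw [indicator_of_mem hi, h]
    · rw [indicator_of_notMem hi]
  · have h1 := hs θ h
    rw [abs_lt] at h1
    have h2 : 0 ≤ 4 * (θ + 4) := by linarith
    set n := ⌊4 * (θ + 4)⌋₊ with hn
    have hn1 : (n : ℝ) ≤ 4 * (θ + 4) := Nat.floor_le h2
    have hn2 : 4 * (θ + 4) < n + 1 := Nat.lt_floor_add_one _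
    have hn3 : n < 32 := by
      have : (n : ℝ) < 32 := by linarith
      exact_mod_cast this
    rw [Finset.sum_eq_single n]
    · rw [indicator_of_mem]
      constructor <;> linarith
    · intro i _ hi
      rw [indicator_of_notMem]
      rintro ⟨hi1, hi2⟩
      apply hi
      have h3 : (i : ℝ) < n + 1 := by linarith
      have h4 : (n : ℝ) < i + 1 := by linarith
      have h3' : i < n + 1 := by exact_mod_cast h3
      have h4' : n < i + 1 := by exact_mod_cast h4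
      omega
    · intro hn4
      exact absurd (Finset.mem_range.2 hn3) hn4

lemma DD_split (t ε : ℝ) (c : ℝ → ℂ) (hci : Integrable c) (hs : ∀ θ, c θ ≠ 0 → |θ| < 4) (z : ℂ) :
    DD t ε c z = ∑ i ∈ Finset.range 32, DD t ε ((arc i).indicator c) z := by
  unfold DD
  rw [← integral_finsetSum]
  · refine integral_congr_ae (Filter.Eventually.of_forall fun θ => ?_)
    simp only
    rw [← Finset.sum_mul, arc_sum c hs θ]
  · intro i _
    have h1 : Integrable ((arc i).indicator c) := hci.indicator (arc_meas i)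
    refine h1.mul_bdd (c := 1) ?_ (Filter.Eventually.of_forall fun θ => (ep_norm t ε z θ).le)
    have := cs_cont
    refine Continuous.aestronglyMeasurable ?_
    unfold ep
    fun_prop

/-- **piece B** -/
lemma pieceB (lam : ℝ) (h0 : 1 / 2 < lam) (h1 : lam < 1) : ∃ C : ℝ≥0, ∀ (t ε : ℝ) (c : ℝ → ℂ),
    0 < t → Measurable c → Integrable c → (∀ θ, c θ ≠ 0 → |θ| < 4) →
    ∫⁻ z in {z : ℂ | 1 / 8 ≤ ‖z‖}, ‖DD t ε c z‖ₑ ^ 4 ≤
      C * (ENNReal.ofReal (t ^ (-2 * lam)) + ENNReal.ofReal (ε ^ 4 * t⁻¹)) * ∫⁻ θ, ‖c θ‖ₑ ^ 4 := by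
  obtain ⟨C, hC⟩ := pieceB0 lam h0 h1
  refine ⟨32 ^ 3 * C, ?_⟩
  intro t ε c ht hc hci hs
  set A : ℝ≥0∞ := ENNReal.ofReal (t ^ (-2 * lam)) + ENNReal.ofReal (ε ^ 4 * t⁻¹) with hA
  have hm : ∀ i, Measurable (fun z => ‖DD t ε ((arc i).indicator c) z‖ₑ ^ 4) := by
    intro i
    have h1 : Measurable (fun z => DD t ε ((arc i).indicator c) z) := by
      unfold DD
      have h2 : StronglyMeasurable (Function.uncurry fun (z : ℂ) (θ : ℝ) =>
          (arc i).indicator c θ * ep t ε z θ) := by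
        apply Measurable.stronglyMeasurable
        have h3 : Measurable (fun q : ℂ × ℝ => (arc i).indicator c q.2) :=
          (hc.indicator (arc_meas i)).comp measurable_snd
        have h4 : Continuous (fun q : ℂ × ℝ => ep t ε q.1 q.2) := by
          have := cs_cont
          unfold ep
          fun_prop
        exact h3.mul h4.measurable
      exact h2.integral_prod_right.measurable
    exact h1.enorm.pow_const 4
  have hsum : ∑ i ∈ Finset.range 32, ∫⁻ θ, ‖(arc i).indicator c θ‖ₑ ^ 4 = ∫⁻ θ, ‖c θ‖ₑ ^ 4 := by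
    rw [← lintegral_finsetSum]
    · refine lintegral_congr fun θ => ?_
      have h2 := arc_sum (fun θ => ‖c θ‖ₑ ^ 4) (fun θ hθ => hs θ (by
        intro h
        apply hθ
        simp [h])) θ
      rw [← h2]
      refine Finset.sum_congr rfl fun i _ => ?_
      by_cases hi : θ ∈ arc i
      · simp [indicator_of_mem hi]
      · simp [indicator_of_notMem hi]
    · intro i _
      exact (hc.indicator (arc_meas i)).enorm.pow_const 4
  calc ∫⁻ z in {z : ℂ | 1 / 8 ≤ ‖z‖}, ‖DD t ε c z‖ₑ ^ 4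
      ≤ ∫⁻ z in {z : ℂ | 1 / 8 ≤ ‖z‖}, 32 ^ 3 *
        ∑ i ∈ Finset.range 32, ‖DD t ε ((arc i).indicator c) z‖ₑ ^ 4 := by
        refine lintegral_mono fun z => ?_
        rw [DD_split t ε c hci hs z]
        refine (pow_le_pow_left' (enorm_sum_le _ _) 4).trans ((pow4_sum _ _).trans ?_)
        rw [Finset.card_range]
        norm_num
    _ = 32 ^ 3 * ∑ i ∈ Finset.range 32,
        ∫⁻ z in {z : ℂ | 1 / 8 ≤ ‖z‖}, ‖DD t ε ((arc i).indicator c) z‖ₑ ^ 4 := by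
        rw [lintegral_const_mul _ (Finset.measurable_sum _ fun i _ => hm i),
          lintegral_finsetSum _ fun i _ => hm i]
    _ ≤ 32 ^ 3 * ∑ i ∈ Finset.range 32, C * A * ∫⁻ θ, ‖(arc i).indicator c θ‖ₑ ^ 4 := by
        gcongr with i hi
        refine hC t ε (-4 + (i : ℝ) / 4 + 1 / 8) _ ht (hc.indicator (arc_meas i))
          (hci.indicator (arc_meas i)) ?_
        intro θ hθ
        have hi2 : θ ∈ arc i := by
          by_contra hcon
          exact hθ (indicator_of_notMem hcon _)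
        obtain ⟨hi3, hi4⟩ := hi2
        rw [abs_le]
        constructor <;> linarith
    _ = _ := by
        rw [← Finset.mul_sum, hsum]
        push_cast
        ring

end Pool.Agent.J6H28.PL
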