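import Mathlib
import Pool.Agent.J6H28.PL.L4B
set_option autoImplicit false

/-! The amplitude: a smooth cut-off in the radial variable, and its chirp representation. -/

namespace Pool.Agent.J6H28.PL

open MeasureTheory Set Complex Filter Topology FourierTransform SchwartzMap
open scoped ENNReal NNReal ComplexConjugate ContDiff

/-- the bump function -/
noncomputable def bmp : ContDiffBump (1 : ℝ) := ⟨1 / 2, 5 / 8, by norm_num, by norm_num⟩

/-- the cut-off -/
noncomputable def ww (r : ℝ) : ℝ := bmp r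

lemma ww_smooth : ContDiff ℝ ∞ ww := bmp.contDiff

lemma ww_cont : Continuous ww := ww_smooth.continuous

lemma ww_one (r : ℝ) (h1 : 1 / 2 ≤ r) (h2 : r ≤ 1) : ww r = 1 := by
  apply bmp.one_of_mem_closedBall
  rw [Metric.mem_closedBall, Real.dist_eq, abs_le]
  change -(1 / 2) ≤ r - 1 ∧ r - 1 ≤ 1 / 2
  constructor <;> linarith

lemma ww_zero (r : ℝ) (h : r ≤ 3 / 8 ∨ 13 / 8 ≤ r) : ww r = 0 := by
  apply bmp.zero_of_le_dist
  rw [Real.dist_eq]
  change 5 / 8 ≤ |r - 1|
  rw [le_abs]
  rcases h with h | h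
  · right; linarith
  · left; linarith

lemma ww_nonneg (r : ℝ) : 0 ≤ ww r := bmp.nonneg

lemma ww_le_one (r : ℝ) : ww r ≤ 1 := bmp.le_one

lemma ww_cs : HasCompactSupport ww := bmp.hasCompactSupport

lemma ww_norm (r : ℝ) : ‖(ww r : ℂ)‖ ≤ 1 := by
  rw [Complex.norm_real, Real.norm_eq_abs, abs_of_nonneg (ww_nonneg r)]
  exact ww_le_one r

/-- the cut-off as a Schwartz function -/
noncomputable def wS : 𝓢(ℝ, ℂ) :=
  HasCompactSupport.toSchwartzMap (f := Complex.ofRealCLM ∘ ww) (ww_cs.comp_left rfl)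
    (Complex.ofRealCLM.contDiff.comp ww_smooth)

lemma wS_apply (r : ℝ) : wS r = (ww r : ℂ) := rfl

/-- its Fourier transform -/
noncomputable def wh (x : ℝ) : ℂ := (𝓕 wS : 𝓢(ℝ, ℂ)) x

lemma wh_integrable : Integrable wh := (𝓕 wS : 𝓢(ℝ, ℂ)).integrable

lemma wh_cont : Continuous wh := (𝓕 wS : 𝓢(ℝ, ℂ)).continuous

lemma wh_mom : Integrable (fun x => |x| ^ 4 * ‖wh x‖) := by
  have := (𝓕 wS : 𝓢(ℝ, ℂ)).integrable_pow_mul volume 4
  simp only [Real.norm_eq_abs] at this
  exact this

lemma ww_integrable : Integrable (fun r => (ww r : ℂ)) := wS.integrable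

lemma ww_inv (r : ℝ) : (ww r : ℂ) = ∫ x, wh x * cexp (((2 * Real.pi * (x * r) : ℝ) : ℂ) * I) := by
  have h1 : 𝓕⁻ (𝓕 (wS : ℝ → ℂ)) r = wS r := by
    apply Integrable.fourierInv_fourier_eq wS.integrable
    · exact (𝓕 wS : 𝓢(ℝ, ℂ)).integrable
    · exact wS.continuous.continuousAt
  rw [Real.fourierInv_eq'] at h1
  rw [← wS_apply, ← h1]
  refine integral_congr_ae (Eventually.of_forall fun x => ?_)
  simp only [smul_eq_mul]
  rw [mul_comm]
  congr 1
  congr 3
  simp only [RCLike.inner_apply, conj_trivial]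
  ring_nf

/-- the oscillatory integral in the radial variable -/
noncomputable def JJ (t u : ℝ) : ℂ := ∫ r, (ww r : ℂ) * cexp (-((t * r ^ 2 + u * r : ℝ) : ℂ) * I)

lemma norm_cexp_neg (x : ℝ) : ‖cexp (-(x : ℂ) * I)‖ = 1 := by
  rw [← Complex.ofReal_neg, Complex.norm_exp_ofReal_mul_I]

lemma fres_reg (t u δ : ℝ) (hδ : 0 < δ) :
    ∫ r : ℝ, (ww r : ℂ) * cexp (-((t * r ^ 2 + u * r : ℝ) : ℂ) * I) * cexp (-((δ * r ^ 2 : ℝ) : ℂ)) =
      (Real.pi / (δ + t * I)) ^ (1 / 2 : ℂ) *
        ∫ x : ℝ, wh x * cexp (-(2 * Real.pi * x - u) ^ 2 / (4 * (δ + t * I))) := by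
  have hb : 0 < ((δ : ℂ) + t * I).re := by simpa using hδ
  have h1 : ∀ r : ℝ, (ww r : ℂ) * cexp (-((t * r ^ 2 + u * r : ℝ) : ℂ) * I) *
      cexp (-((δ * r ^ 2 : ℝ) : ℂ)) = ∫ x, wh x * (cexp (I * (2 * Real.pi * x - u) * r) *
        cexp (-((δ : ℂ) + t * I) * r ^ 2)) := by
    intro r
    rw [ww_inv r, ← integral_mul_const, ← integral_mul_const]
    refine integral_congr_ae (Eventually.of_forall fun x => ?_)
    simp only
    rw [mul_assoc, mul_assoc, ← Complex.exp_add, ← Complex.exp_add, ← Complex.exp_add]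
    congr 2
    push_cast
    ring
  simp_rw [h1]
  rw [integral_integral_swap]
  · rw [← integral_const_mul]
    refine integral_congr_ae (Eventually.of_forall fun x => ?_)
    simp only
    have h2 := fourierIntegral_gaussian hb (2 * Real.pi * x - u)
    rw [integral_const_mul, h2]
    ring
  · have h3 : Integrable (fun q : ℝ × ℝ => Real.exp (-δ * q.1 ^ 2) * ‖wh q.2‖) := by
      rw [Measure.volume_eq_prod]
      exact (integrable_exp_neg_mul_sq hδ).mul_prod wh_integrable.norm
    refine h3.mono' ?_ (Eventually.of_forall fun q => ?_)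
    · have := wh_cont
      refine Continuous.aestronglyMeasurable ?_
      unfold Function.uncurry
      fun_prop
    · simp only [Function.uncurry]
      rw [norm_mul, norm_mul, Complex.norm_exp, Complex.norm_exp]
      have e1 : (I * (2 * Real.pi * (q.2 : ℂ) - u) * (q.1 : ℂ)).re = 0 := by
        have : (I * (2 * Real.pi * (q.2 : ℂ) - u) * (q.1 : ℂ)) =
          (((2 * Real.pi * q.2 - u) * q.1 : ℝ) : ℂ) * I := by push_cast; ring
        rw [this, Complex.re_ofReal_mul, Complex.I_re, mul_zero]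
      have e2 : (-((δ : ℂ) + t * I) * (q.1 : ℂ) ^ 2).re = -δ * q.1 ^ 2 := by
        have : (-((δ : ℂ) + t * I) * (q.1 : ℂ) ^ 2) =
          ((-δ * q.1 ^ 2 : ℝ) : ℂ) + ((-t * q.1 ^ 2 : ℝ) : ℂ) * I := by push_cast; ring
        rw [this, Complex.add_re, Complex.re_ofReal_mul, Complex.I_re, mul_zero, add_zero,
          Complex.ofReal_re]
      rw [e1, e2, Real.exp_zero, one_mul, mul_comm]

lemma fresnel (t u : ℝ) (ht : 0 < t) :
    JJ t u = (Real.pi / (t * I)) ^ (1 / 2 : ℂ) *
        ∫ x : ℝ, wh x * cexp (((1 / (4 * t) * (u - 2 * Real.pi * x) ^ 2 : ℝ) : ℂ) * I) := by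
  set d : ℕ → ℝ := fun n => 1 / ((n : ℝ) + 1) with hd
  have hd0 : ∀ n, 0 < d n := fun n => by positivity
  have hdt : Tendsto d atTop (𝓝 0) := tendsto_one_div_add_atTop_nhds_zero_nat
  have htI : (t : ℂ) * I ≠ 0 := by
    simp [ht.ne']
  have hbt : Tendsto (fun n => ((d n : ℂ) + t * I)) atTop (𝓝 (t * I)) := by
    have : Tendsto (fun n => ((d n : ℂ) + t * I)) atTop (𝓝 (((0 : ℝ) : ℂ) + t * I)) :=
      ((Complex.continuous_ofReal.tendsto _).comp hdt).add_const _
    simpa using this
  have hL : Tendsto (fun n => ∫ r : ℝ, (ww r : ℂ) * cexp (-((t * r ^ 2 + u * r : ℝ) : ℂ) * I) *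
      cexp (-((d n * r ^ 2 : ℝ) : ℂ))) atTop (𝓝 (JJ t u)) := by
    unfold JJ
    refine tendsto_integral_of_dominated_convergence (fun r => ‖(ww r : ℂ)‖) ?_
      ww_integrable.norm ?_ ?_
    · intro n
      have := ww_cont
      refine Continuous.aestronglyMeasurable ?_
      fun_prop
    · intro n
      refine Eventually.of_forall fun r => ?_
      rw [norm_mul, norm_mul, norm_cexp_neg, mul_one, Complex.norm_exp]
      refine mul_le_of_le_one_right (norm_nonneg _) ?_
      rw [Real.exp_le_one_iff, Complex.neg_re, Complex.ofReal_re]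
      have := hd0 n
      have := sq_nonneg r
      nlinarith [mul_nonneg (hd0 n).le (sq_nonneg r)]
    · refine Eventually.of_forall fun r => ?_
      have h1 : Tendsto (fun n => cexp (-((d n * r ^ 2 : ℝ) : ℂ))) atTop (𝓝 1) := by
        have h2 : Continuous fun x : ℝ => cexp (-((x * r ^ 2 : ℝ) : ℂ)) := by fun_prop
        have h3 : Tendsto (fun n => cexp (-((d n * r ^ 2 : ℝ) : ℂ))) atTop
          (𝓝 (cexp (-((0 * r ^ 2 : ℝ) : ℂ)))) := (h2.tendsto 0).comp hdt
        have e0 : cexp (-((0 * r ^ 2 : ℝ) : ℂ)) = 1 := by simp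
        rw [e0] at h3
        exact h3
      have h4 := h1.const_mul ((ww r : ℂ) * cexp (-((t * r ^ 2 + u * r : ℝ) : ℂ) * I))
      rw [mul_one] at h4
      exact h4
  have hR : Tendsto (fun n => (Real.pi / ((d n : ℂ) + t * I)) ^ (1 / 2 : ℂ) *
        ∫ x : ℝ, wh x * cexp (-(2 * Real.pi * x - u) ^ 2 / (4 * ((d n : ℂ) + t * I)))) atTop
      (𝓝 ((Real.pi / (t * I)) ^ (1 / 2 : ℂ) *
        ∫ x : ℝ, wh x * cexp (((1 / (4 * t) * (u - 2 * Real.pi * x) ^ 2 : ℝ) : ℂ) * I))) := by
    refine Tendsto.mul ?_ ?_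
    · have h1 : Tendsto (fun n => (Real.pi : ℂ) / ((d n : ℂ) + t * I)) atTop
          (𝓝 (Real.pi / (t * I))) := tendsto_const_nhds.div hbt htI
      have h2 : (Real.pi : ℂ) / (t * I) ∈ slitPlane := by
        have : (Real.pi : ℂ) / (t * I) = ((-(Real.pi / t) : ℝ) : ℂ) * I := by
          have : (t : ℂ) ≠ 0 := by exact_mod_cast ht.ne'
          push_cast
          field_simp
          rw [I_sq]
          ring
        rw [this, Complex.mem_slitPlane_iff]
        right
        simp [ht.ne', Real.pi_ne_zero]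
      exact Filter.Tendsto.cpow h1 tendsto_const_nhds h2
    · refine tendsto_integral_of_dominated_convergence (fun x => ‖wh x‖) ?_
        wh_integrable.norm ?_ ?_
      · intro n
        have := wh_cont
        refine Continuous.aestronglyMeasurable ?_
        fun_prop
      · intro n
        refine Eventually.of_forall fun x => ?_
        rw [norm_mul, Complex.norm_exp]
        refine mul_le_of_le_one_right (norm_nonneg _) ?_
        rw [Real.exp_le_one_iff]
        have e1 : (-(2 * Real.pi * (x : ℂ) - u) ^ 2 / (4 * ((d n : ℂ) + t * I))) =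
            ((-(2 * Real.pi * x - u) ^ 2 / 4 : ℝ) : ℂ) * ((d n : ℂ) + t * I)⁻¹ := by
          have : ((d n : ℂ) + t * I) ≠ 0 := by
            intro h
            have := congrArg Complex.re h
            simp at this
            exact (hd0 n).ne' this
          push_cast
          field_simp
        rw [e1, Complex.re_ofReal_mul, Complex.inv_re]
        apply mul_nonpos_of_nonpos_of_nonneg
        · have := sq_nonneg (2 * Real.pi * x - u)
          linarith
        · have : ((d n : ℂ) + t * I).re = d n := by simp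
          rw [this]
          exact div_nonneg (hd0 n).le (Complex.normSq_nonneg _)
      · refine Eventually.of_forall fun x => ?_
        refine Tendsto.const_mul _ ?_
        refine (Complex.continuous_exp.tendsto _).comp ?_
        have e2 : (((1 / (4 * t) * (u - 2 * Real.pi * x) ^ 2 : ℝ) : ℂ) * I) =
            -(2 * Real.pi * x - u) ^ 2 / (4 * (t * I)) := by
          have : (t : ℂ) ≠ 0 := by exact_mod_cast ht.ne'
          push_cast
          field_simp
          rw [I_sq]
          ring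
        rw [e2]
        refine Tendsto.div tendsto_const_nhds (hbt.const_mul 4) ?_
        simp [ht.ne']
  have hE : (fun n => ∫ r : ℝ, (ww r : ℂ) * cexp (-((t * r ^ 2 + u * r : ℝ) : ℂ) * I) *
      cexp (-((d n * r ^ 2 : ℝ) : ℂ))) = fun n => (Real.pi / ((d n : ℂ) + t * I)) ^ (1 / 2 : ℂ) *
        ∫ x : ℝ, wh x * cexp (-(2 * Real.pi * x - u) ^ 2 / (4 * ((d n : ℂ) + t * I))) := by
    funext n
    exact fres_reg t u (d n) (hd0 n)
  rw [hE] at hL
  exact tendsto_nhds_unique hL hR

/-- the nonstationary bound -/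
lemma nonstat : ∃ C : ℝ, 0 < C ∧ ∀ t u : ℝ, 0 < t → |u| ≤ 3 * t / 8 → ‖JJ t u‖ ≤ C / t := by
  obtain ⟨D, hD⟩ : ∃ D : ℝ, ∀ r, ‖deriv ww r‖ ≤ D := by
    have h1 : Continuous (deriv ww) := ww_smooth.continuous_deriv (by norm_num)
    exact h1.bounded_above_of_compact_support ww_cs.deriv
  have hD0 : 0 ≤ D := (norm_nonneg _).trans (hD 0)
  refine ⟨2 * (8 * D + 128), by positivity, ?_⟩
  intro t u ht hu
  rw [abs_le] at hu
  have hpos : ∀ r ∈ Icc (1 / 4 : ℝ) 2, t / 8 ≤ 2 * t * r + u := by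
    intro r hr
    nlinarith [hr.1, hu.1]
  have hpos2 : ∀ r ∈ Icc (1 / 4 : ℝ) 2, 0 < 2 * t * r + u := by
    intro r hr
    linarith [hpos r hr]
  set a : ℝ → ℂ := fun r => ((ww r / (2 * t * r + u) : ℝ) : ℂ) with ha
  set a' : ℝ → ℂ := fun r => (((deriv ww r * (2 * t * r + u) - ww r * (2 * t)) /
    (2 * t * r + u) ^ 2 : ℝ) : ℂ) with ha'
  set v : ℝ → ℂ := fun r => cexp (-((t * r ^ 2 + u * r : ℝ) : ℂ) * I) with hv
  set v' : ℝ → ℂ := fun r => v r * (-((2 * t * r + u : ℝ) : ℂ) * I) with hv'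
  have hva : ∀ r ∈ uIcc (1 / 4 : ℝ) 2, HasDerivAt a (a' r) r := by
    intro r hr
    rw [uIcc_of_le (by norm_num)] at hr
    have h1 : HasDerivAt ww (deriv ww r) r :=
      (ww_smooth.differentiable (by norm_num)).differentiableAt.hasDerivAt
    have h2 : HasDerivAt (fun r => 2 * t * r + u) (2 * t) r := by
      simpa using ((hasDerivAt_id r).const_mul (2 * t)).add_const u
    have h3 := h1.div h2 (hpos2 r hr).ne'
    exact h3.ofReal_comp
  have hvv : ∀ r ∈ uIcc (1 / 4 : ℝ) 2, HasDerivAt v (v' r) r := by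
    intro r _
    have h2 : HasDerivAt (fun r : ℝ => t * r ^ 2 + u * r) (2 * t * r + u) r := by
      have h5 := ((hasDerivAt_pow 2 r).const_mul t).add ((hasDerivAt_id' r).const_mul u)
      have e5 : t * (((2 : ℕ) : ℝ) * r ^ (2 - 1)) + u * 1 = 2 * t * r + u := by
        push_cast
        ring
      rw [e5] at h5
      exact h5
    have h3 : HasDerivAt (fun r : ℝ => -((t * r ^ 2 + u * r : ℝ) : ℂ) * I)
        (-((2 * t * r + u : ℝ) : ℂ) * I) r := (h2.ofReal_comp.neg).mul_const I
    exact h3.cexp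
  have hcd : Continuous (deriv ww) := ww_smooth.continuous_deriv (by norm_num)
  have hcw := ww_cont
  have hai : IntervalIntegrable a' volume (1 / 4) 2 := by
    apply ContinuousOn.intervalIntegrable
    rw [uIcc_of_le (by norm_num)]
    refine Complex.continuous_ofReal.comp_continuousOn ?_
    refine ContinuousOn.div (by fun_prop) (by fun_prop) ?_
    intro r hr
    exact pow_ne_zero 2 (hpos2 r hr).ne'
  have hvi : IntervalIntegrable v' volume (1 / 4) 2 := by
    apply Continuous.intervalIntegrable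
    rw [hv', hv]
    fun_prop
  have hparts := intervalIntegral.integral_mul_deriv_eq_deriv_mul hva hvv hai hvi
  have ha1 : a (1 / 4) = 0 := by
    simp only [ha]
    rw [ww_zero _ (Or.inl (by norm_num))]
    simp
  have ha2 : a 2 = 0 := by
    simp only [ha]
    rw [ww_zero _ (Or.inr (by norm_num))]
    simp
  rw [ha1, ha2, zero_mul, zero_mul, sub_zero, zero_sub] at hparts
  have hJ : JJ t u = I * ∫ r in (1 / 4 : ℝ)..2, a r * v' r := by
    rw [← intervalIntegral.integral_const_mul]
    unfold JJ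
    have h1 : ∫ r, (ww r : ℂ) * cexp (-((t * r ^ 2 + u * r : ℝ) : ℂ) * I) =
        ∫ r in Ioc (1 / 4 : ℝ) 2, (ww r : ℂ) * cexp (-((t * r ^ 2 + u * r : ℝ) : ℂ) * I) := by
      symm
      apply setIntegral_eq_integral_of_forall_compl_eq_zero
      intro r hr
      rw [ww_zero, Complex.ofReal_zero, zero_mul]
      by_contra hcon
      push Not at hcon
      exact hr ⟨by linarith [hcon.1], by linarith [hcon.2]⟩
    rw [h1, intervalIntegral.integral_of_le (by norm_num)]
    refine setIntegral_congr_fun measurableSet_Ioc fun r hr => ?_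
    have h2 := hpos2 r ⟨hr.1.le, hr.2⟩
    have h3 : ((2 * t * r + u : ℝ) : ℂ) ≠ 0 := by
      exact_mod_cast h2.ne'
    simp only [ha, hv', hv]
    rw [Complex.ofReal_div]
    generalize ((2 * t * r + u : ℝ) : ℂ) = y at h3
    generalize cexp (-((t * r ^ 2 + u * r : ℝ) : ℂ) * I) = g
    have : I * ((ww r : ℂ) / y * (g * (-y * I))) = (ww r : ℂ) * g * (y / y) * (-(I * I)) := by ring
    rw [this, div_self h3, I_mul_I]
    ring
  rw [hJ, hparts, norm_mul, Complex.norm_I, one_mul, norm_neg]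
  have h4 : ∀ r ∈ Set.uIoc (1 / 4 : ℝ) 2, ‖a' r * v r‖ ≤ (8 * D + 128) / t := by
    intro r hr
    rw [uIoc_of_le (by norm_num)] at hr
    have h2 := hpos r ⟨hr.1.le, hr.2⟩
    have h2' := hpos2 r ⟨hr.1.le, hr.2⟩
    simp only [ha', hv]
    rw [norm_mul, norm_cexp_neg, mul_one, Complex.norm_real, Real.norm_eq_abs, abs_div,
      abs_of_pos (by positivity : 0 < (2 * t * r + u) ^ 2), div_le_div_iff₀ (by positivity) ht]
    have h5 : |deriv ww r * (2 * t * r + u) - ww r * (2 * t)| ≤ D * (2 * t * r + u) + 2 * t := by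
      refine (abs_sub _ _).trans ?_
      rw [abs_mul, abs_mul, abs_of_pos (by positivity : 0 < 2 * t * r + u),
        abs_of_pos (by positivity : 0 < 2 * t), abs_of_nonneg (ww_nonneg r)]
      have h6 := hD r
      rw [Real.norm_eq_abs] at h6
      have h7 := ww_le_one r
      nlinarith
    have h8 : t ≤ 8 * (2 * t * r + u) := by linarith
    set y := 2 * t * r + u with hy
    have hy0 : 0 < y := by linarith
    calc |deriv ww r * y - ww r * (2 * t)| * t ≤ (D * y + 2 * t) * t := by gcongr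
      _ ≤ (D * y + 2 * (8 * y)) * (8 * y) := by gcongr
      _ = (8 * D + 128) * y ^ 2 := by ring
  have h9 := intervalIntegral.norm_integral_le_of_norm_le_const h4
  refine h9.trans ?_
  rw [abs_of_pos (by norm_num)]
  have : 0 ≤ (8 * D + 128) / t := by positivity
  rw [mul_div_assoc]
  nlinarith

end Pool.Agent.J6H28.PL
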