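import Mathlib
import Pool.Agent.J6H28.PL.Amp
set_option autoImplicit false

/-! The `L⁴` estimate of the operators with smooth radial amplitude. -/

namespace Pool.Agent.J6H28.PL

open MeasureTheory Set Complex Filter
open scoped ENNReal NNReal ComplexConjugate

lemma jen {α : Type*} [MeasurableSpace α] (μ : Measure α) (p : ℝ) (hp : 1 < p) (f : α → ℝ≥0∞)
    (hf : AEMeasurable f μ) :
    (∫⁻ x, f x ∂μ) ^ p ≤ (μ univ) ^ (p - 1) * ∫⁻ x, f x ^ p ∂μ := by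
  have hq : p.HolderConjugate (Real.conjExponent p) := Real.HolderConjugate.conjExponent hp
  have h := ENNReal.lintegral_mul_le_Lp_mul_Lq μ hq hf (aemeasurable_const (b := (1 : ℝ≥0∞)))
  have hp0 : 0 < p := by linarith
  have h2 := ENNReal.rpow_le_rpow h hp0.le
  rw [ENNReal.mul_rpow_of_nonneg _ _ hp0.le, ← ENNReal.rpow_mul, ← ENNReal.rpow_mul] at h2
  have e1 : 1 / p * p = 1 := by field_simp
  have e2 : 1 / Real.conjExponent p * p = p - 1 := by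
    unfold Real.conjExponent
    have : p - 1 ≠ 0 := by linarith
    field_simp
  rw [e1, e2, ENNReal.rpow_one] at h2
  simp only [Pi.mul_apply, mul_one, ENNReal.one_rpow, lintegral_const, one_mul] at h2
  rw [mul_comm]
  exact h2

lemma jenw {α : Type*} [MeasurableSpace α] (μ : Measure α) (a g : α → ℝ≥0∞)
    (ha : Measurable a) (hg : Measurable g) :
    (∫⁻ x, a x * g x ∂μ) ^ 4 ≤ (∫⁻ x, a x ∂μ) ^ 3 * ∫⁻ x, a x * g x ^ 4 ∂μ := by
  have h := jen (μ.withDensity a) 4 (by norm_num) g hg.aemeasurable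
  have e : ∀ x : ℝ≥0∞, x ^ (4 : ℝ) = x ^ 4 := fun x => by
    rw [← ENNReal.rpow_natCast]; norm_num
  have e3 : (4 : ℝ) - 1 = ((3 : ℕ) : ℝ) := by norm_num
  simp_rw [e] at h
  rw [e3, ENNReal.rpow_natCast, lintegral_withDensity_eq_lintegral_mul _ ha hg,
    lintegral_withDensity_eq_lintegral_mul _ ha (hg.pow_const 4),
    withDensity_apply _ MeasurableSet.univ, Measure.restrict_univ] at h
  exact h

/-- the operator -/
noncomputable def AA (t k : ℝ) (c : ℝ → ℂ) (ξ : ℂ) : ℂ :=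
  ∫ θ, c θ * JJ t ((ξ * cs θ).re - k)

lemma ep_meas (t : ℝ) : Measurable (fun q : ℝ × ℂ × ℝ => ep t q.1 q.2.1 q.2.2) :=
  (ep_cont t).measurable

lemma DD_meas (t : ℝ) (c : ℝ → ℂ) (hc : Measurable c) :
    Measurable (fun q : ℝ × ℂ => DD t q.1 c q.2) := by
  unfold DD
  have h2 : StronglyMeasurable (Function.uncurry fun (q : ℝ × ℂ) (θ : ℝ) =>
      c θ * ep t q.1 q.2 θ) := by
    apply Measurable.stronglyMeasurable
    have h3 : Measurable (fun q : (ℝ × ℂ) × ℝ => c q.2) := hc.comp measurable_snd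
    have h4 : Continuous (fun q : (ℝ × ℂ) × ℝ => ep t q.1.1 q.1.2 q.2) := by
      have := cs_cont
      unfold ep
      fun_prop
    exact h3.mul h4.measurable
  exact h2.integral_prod_right.measurable

lemma DD_meas2 (t k : ℝ) (c : ℝ → ℂ) (hc : Measurable c) :
    Measurable (fun q : ℝ × ℂ => DD t (k + 2 * Real.pi * q.1) c q.2) := by
  unfold DD
  have h2 : StronglyMeasurable (Function.uncurry fun (q : ℝ × ℂ) (θ : ℝ) =>
      c θ * ep t (k + 2 * Real.pi * q.1) q.2 θ) := by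
    apply Measurable.stronglyMeasurable
    have h3 : Measurable (fun q : (ℝ × ℂ) × ℝ => c q.2) := hc.comp measurable_snd
    have h4 : Continuous (fun q : (ℝ × ℂ) × ℝ => ep t (k + 2 * Real.pi * q.1.1) q.1.2 q.2) := by
      have := cs_cont
      unfold ep
      fun_prop
    exact h3.mul h4.measurable
  exact h2.integral_prod_right.measurable

lemma farDD (lam : ℝ) (h0 : 1 / 2 < lam) (h1 : lam < 1) : ∃ C : ℝ≥0, ∀ (t κ : ℝ) (c : ℝ → ℂ),
    0 < t → Measurable c → Integrable c → (∀ θ, c θ ≠ 0 → |θ| < 4) →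
    ∫⁻ z in {z : ℂ | t / 4 ≤ ‖z‖}, ‖DD (1 / (4 * t)) κ c z‖ₑ ^ 4 ≤
      C * (ENNReal.ofReal (t ^ (2 - 2 * lam)) + ENNReal.ofReal (κ ^ 4 * t ^ (-3 : ℝ))) *
        ∫⁻ θ, ‖c θ‖ₑ ^ 4 := by
  obtain ⟨C, hC⟩ := pieceB lam h0 h1
  refine ⟨4 * C, ?_⟩
  intro t κ c ht hc hci hs
  have hms : MeasurableSet {z : ℂ | t / 4 ≤ ‖z‖} := by measurability
  have hms2 : MeasurableSet {z : ℂ | 1 / 8 ≤ ‖z‖} := by measurability
  rw [← lintegral_indicator hms, lint_smul _ (2 * t) (by positivity)]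
  have h2 : ∀ z : ℂ, ({z : ℂ | t / 4 ≤ ‖z‖}.indicator
      (fun z => ‖DD (1 / (4 * t)) κ c z‖ₑ ^ 4)) (((2 * t : ℝ) : ℂ) * z) =
      ({z : ℂ | 1 / 8 ≤ ‖z‖}.indicator (fun z => ‖DD t (κ / (2 * t)) c z‖ₑ ^ 4)) z := by
    intro z
    have hn : ‖((2 * t : ℝ) : ℂ) * z‖ = 2 * t * ‖z‖ := by
      rw [norm_mul, Complex.norm_real, Real.norm_eq_abs, abs_of_pos (by positivity)]
    by_cases hz : 1 / 8 ≤ ‖z‖
    · rw [indicator_of_mem (show z ∈ {z : ℂ | 1 / 8 ≤ ‖z‖} from hz), indicator_of_mem]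
      · rw [DD_scale _ _ (2 * t) (by positivity)]
        have e : 1 / (4 * t) * (2 * t) ^ 2 = t := by field_simp; norm_num
        rw [e]
      · change t / 4 ≤ ‖((2 * t : ℝ) : ℂ) * z‖
        rw [hn]
        nlinarith
    · rw [indicator_of_notMem (show z ∉ {z : ℂ | 1 / 8 ≤ ‖z‖} from hz), indicator_of_notMem]
      change ¬ (t / 4 ≤ ‖((2 * t : ℝ) : ℂ) * z‖)
      rw [hn]
      push Not at hz ⊢
      nlinarith
  simp_rw [h2]
  rw [lintegral_indicator hms2]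
  have h3 := hC t (κ / (2 * t)) c ht hc hci hs
  have e1 : ENNReal.ofReal ((2 * t) ^ 2) * ENNReal.ofReal (t ^ (-2 * lam)) =
      4 * ENNReal.ofReal (t ^ (2 - 2 * lam)) := by
    rw [← ENNReal.ofReal_mul (by positivity)]
    have : (4 : ℝ≥0∞) = ENNReal.ofReal 4 := by norm_num
    rw [this, ← ENNReal.ofReal_mul (by norm_num)]
    congr 1
    have e4 : t ^ (2 - 2 * lam) = t ^ (2 : ℝ) * t ^ (-2 * lam) := by
      rw [← Real.rpow_add ht]
      congr 1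
      ring
    rw [e4, show (2 : ℝ) = ((2 : ℕ) : ℝ) by norm_num, Real.rpow_natCast]
    push_cast
    ring
  have e2 : ENNReal.ofReal ((2 * t) ^ 2) * ENNReal.ofReal ((κ / (2 * t)) ^ 4 * t⁻¹) ≤
      4 * ENNReal.ofReal (κ ^ 4 * t ^ (-3 : ℝ)) := by
    rw [← ENNReal.ofReal_mul (by positivity)]
    have : (4 : ℝ≥0∞) = ENNReal.ofReal 4 := by norm_num
    rw [this, ← ENNReal.ofReal_mul (by norm_num)]
    apply ENNReal.ofReal_le_ofReal
    rw [Real.rpow_neg ht.le, show (3 : ℝ) = ((3 : ℕ) : ℝ) by norm_num, Real.rpow_natCast]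
    have e5 : (2 * t) ^ 2 * ((κ / (2 * t)) ^ 4 * t⁻¹) = 1 / 4 * (κ ^ 4 * (t ^ 3)⁻¹) := by
      field_simp
      ring
    rw [e5]
    have : 0 ≤ κ ^ 4 * (t ^ 3)⁻¹ := by positivity
    linarith
  calc _ ≤ ENNReal.ofReal ((2 * t) ^ 2) * (C * (ENNReal.ofReal (t ^ (-2 * lam)) +
        ENNReal.ofReal ((κ / (2 * t)) ^ 4 * t⁻¹)) * ∫⁻ θ, ‖c θ‖ₑ ^ 4) := by gcongr
    _ = C * (ENNReal.ofReal ((2 * t) ^ 2) * ENNReal.ofReal (t ^ (-2 * lam)) +
        ENNReal.ofReal ((2 * t) ^ 2) * ENNReal.ofReal ((κ / (2 * t)) ^ 4 * t⁻¹)) *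
          ∫⁻ θ, ‖c θ‖ₑ ^ 4 := by ring
    _ ≤ C * (4 * ENNReal.ofReal (t ^ (2 - 2 * lam)) +
        4 * ENNReal.ofReal (κ ^ 4 * t ^ (-3 : ℝ))) * ∫⁻ θ, ‖c θ‖ₑ ^ 4 := by
        rw [e1]
        gcongr
    _ = _ := by
        push_cast
        ring

/-- representation of the operator -/
lemma AA_eq (t k : ℝ) (ht : 0 < t) (c : ℝ → ℂ) (hc : Measurable c) (hci : Integrable c) (ξ : ℂ) :
    AA t k c ξ = (Real.pi / (t * I)) ^ (1 / 2 : ℂ) *
      ∫ x : ℝ, wh x * DD (1 / (4 * t)) (k + 2 * Real.pi * x) c ξ := by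
  unfold AA DD
  have h1 : ∀ θ : ℝ, c θ * JJ t ((ξ * cs θ).re - k) = (Real.pi / (t * I)) ^ (1 / 2 : ℂ) *
      ∫ x : ℝ, c θ * (wh x * ep (1 / (4 * t)) (k + 2 * Real.pi * x) ξ θ) := by
    intro θ
    rw [fresnel _ _ ht, mul_left_comm, ← integral_const_mul]
    congr 1
    refine integral_congr_ae (Eventually.of_forall fun x => ?_)
    simp only
    congr 2
    unfold ep
    congr 4
    ring
  simp_rw [h1]
  rw [integral_const_mul]
  congr 1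
  rw [integral_integral_swap]
  · refine integral_congr_ae (Eventually.of_forall fun x => ?_)
    simp only
    rw [← integral_const_mul]
    refine integral_congr_ae (Eventually.of_forall fun θ => ?_)
    simp only
    ring
  · have h3 : Integrable (fun q : ℝ × ℝ => ‖c q.1‖ * ‖wh q.2‖) := by
      rw [Measure.volume_eq_prod]
      exact hci.norm.mul_prod wh_integrable.norm
    refine h3.mono' ?_ (Eventually.of_forall fun q => ?_)
    · have hw := wh_cont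
      have h4 : Continuous (fun q : ℝ × ℝ =>
          wh q.2 * ep (1 / (4 * t)) (k + 2 * Real.pi * q.2) ξ q.1) := by
        have := cs_cont
        unfold ep
        fun_prop
      exact ((hc.comp measurable_fst).mul h4.measurable).aestronglyMeasurable
    · simp only [Function.uncurry]
      rw [norm_mul, norm_mul, ep_norm, mul_one]

/-- the `L⁴` estimate far away -/
lemma farA (lam : ℝ) (h0 : 1 / 2 < lam) (h1 : lam < 1) : ∃ C : ℝ≥0, ∀ (t k : ℝ) (c : ℝ → ℂ),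
    1 ≤ t → k ^ 4 ≤ t ^ 3 → Measurable c → Integrable c → (∀ θ, c θ ≠ 0 → |θ| < 4) →
    ∫⁻ z in {z : ℂ | t / 4 ≤ ‖z‖}, ‖AA t k c z‖ₑ ^ 4 ≤
      C * ENNReal.ofReal (t ^ (-2 * lam)) * ∫⁻ θ, ‖c θ‖ₑ ^ 4 := by
  obtain ⟨C, hC⟩ := farDD lam h0 h1
  set M0 : ℝ≥0∞ := ∫⁻ x, ‖wh x‖ₑ with hM0
  set M4 : ℝ≥0∞ := ∫⁻ x, ‖wh x‖ₑ * ENNReal.ofReal (9 + 8 * (2 * Real.pi) ^ 4 * |x| ^ 4) with hM4
  have hM0t : M0 ≠ ⊤ := wh_integrable.2.ne
  have hM4t : M4 ≠ ⊤ := by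
    have h2 : Integrable (fun x => ‖wh x‖ * (9 + 8 * (2 * Real.pi) ^ 4 * |x| ^ 4)) := by
      have h3 := (wh_integrable.norm.mul_const 9).add (wh_mom.const_mul (8 * (2 * Real.pi) ^ 4))
      refine h3.congr (Eventually.of_forall fun x => ?_)
      simp only [Pi.add_apply]
      ring
    have h4 := h2.2.ne
    rw [hM4]
    convert h4 using 1
    refine lintegral_congr fun x => ?_
    rw [enorm_mul, enorm_norm, Real.enorm_of_nonneg (by positivity)]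
  refine ⟨C * (ENNReal.ofReal Real.pi ^ 2 * M0 ^ 3 * M4).toNNReal, ?_⟩
  intro t k c ht hk hc hci hs
  have ht0 : 0 < t := by linarith
  rw [ENNReal.coe_mul, ENNReal.coe_toNNReal (by finiteness)]
  set P : ℂ := (Real.pi / (t * I)) ^ (1 / 2 : ℂ) with hP
  have hPn : ‖P‖ₑ ^ 4 = ENNReal.ofReal Real.pi ^ 2 * ENNReal.ofReal (t ^ (-2 : ℝ)) := by
    have h2 : ‖P‖ = (Real.pi / t) ^ (1 / 2 : ℝ) := by
      rw [hP]
      have := Complex.norm_cpow_real ((Real.pi : ℂ) / (t * I)) (1 / 2)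
      push_cast at this
      rw [this, norm_div, norm_mul, Complex.norm_I, mul_one, Complex.norm_real, Complex.norm_real,
        Real.norm_eq_abs, Real.norm_eq_abs, abs_of_pos Real.pi_pos, abs_of_pos ht0]
    rw [← ofReal_norm, ← ENNReal.ofReal_pow (norm_nonneg _), h2,
      ← ENNReal.ofReal_pow Real.pi_pos.le, ← ENNReal.ofReal_mul (by positivity)]
    congr 1
    rw [← Real.rpow_natCast, ← Real.rpow_mul (by positivity), Real.rpow_neg ht0.le,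
      show (1 / 2 : ℝ) * ((4 : ℕ) : ℝ) = ((2 : ℕ) : ℝ) by norm_num, Real.rpow_natCast,
      show (2 : ℝ) = ((2 : ℕ) : ℝ) by norm_num, Real.rpow_natCast]
    field_simp
  have hDm : Measurable (fun q : ℝ × ℂ => DD (1 / (4 * t)) (k + 2 * Real.pi * q.1) c q.2) := by
    exact DD_meas2 (1 / (4 * t)) k c hc
  have hwm : Measurable wh := wh_cont.measurable
  have hpt : ∀ z : ℂ, ‖AA t k c z‖ₑ ^ 4 ≤ ‖P‖ₑ ^ 4 * (M0 ^ 3 * ∫⁻ x, ‖wh x‖ₑ *
      ‖DD (1 / (4 * t)) (k + 2 * Real.pi * x) c z‖ₑ ^ 4) := by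
    intro z
    rw [AA_eq t k ht0 c hc hci z, enorm_mul, mul_pow]
    gcongr
    have h2 : ‖∫ x : ℝ, wh x * DD (1 / (4 * t)) (k + 2 * Real.pi * x) c z‖ₑ ≤
        ∫⁻ x, ‖wh x‖ₑ * ‖DD (1 / (4 * t)) (k + 2 * Real.pi * x) c z‖ₑ := by
      refine (enorm_integral_le_lintegral_enorm _).trans (le_of_eq ?_)
      refine lintegral_congr fun x => ?_
      rw [enorm_mul]
    refine (pow_le_pow_left' h2 4).trans ?_
    refine jenw volume (fun x => ‖wh x‖ₑ)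
      (fun x => ‖DD (1 / (4 * t)) (k + 2 * Real.pi * x) c z‖ₑ) hwm.enorm ?_
    exact (hDm.comp (measurable_id.prodMk measurable_const)).enorm
  have hjm : Measurable (Function.uncurry fun (z : ℂ) (x : ℝ) => ‖wh x‖ₑ *
      ‖DD (1 / (4 * t)) (k + 2 * Real.pi * x) c z‖ₑ ^ 4) := by
    exact (hwm.comp measurable_snd).enorm.mul ((hDm.comp measurable_swap).enorm.pow_const 4)
  set Q : ℝ≥0∞ := ∫⁻ θ, ‖c θ‖ₑ ^ 4 with hQ
  have hin : ∀ x : ℝ, ∫⁻ z in {z : ℂ | t / 4 ≤ ‖z‖},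
      ‖DD (1 / (4 * t)) (k + 2 * Real.pi * x) c z‖ₑ ^ 4 ≤
      C * ENNReal.ofReal (t ^ (2 - 2 * lam)) *
        ENNReal.ofReal (9 + 8 * (2 * Real.pi) ^ 4 * |x| ^ 4) * Q := by
    intro x
    refine (hC t (k + 2 * Real.pi * x) c ht0 hc hci hs).trans ?_
    rw [mul_assoc (C : ℝ≥0∞) (ENNReal.ofReal _) (ENNReal.ofReal _)]
    gcongr
    rw [← ENNReal.ofReal_add (by positivity) (by positivity), ← ENNReal.ofReal_mul (by positivity)]
    apply ENNReal.ofReal_le_ofReal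
    have e1 : 1 ≤ t ^ (2 - 2 * lam) := Real.one_le_rpow ht (by linarith)
    have e2 : (k + 2 * Real.pi * x) ^ 4 ≤ 8 * (k ^ 4 + (2 * Real.pi) ^ 4 * |x| ^ 4) := by
      have e3 : |x| ^ 4 = x ^ 4 := by rw [← abs_pow]; exact abs_of_nonneg (by positivity)
      rw [e3]
      have e4 : ∀ a b : ℝ, (a + b) ^ 4 ≤ 8 * (a ^ 4 + b ^ 4) := by
        intro a b
        have e5 : (a + b) ^ 2 ≤ 2 * (a ^ 2 + b ^ 2) := by nlinarith [sq_nonneg (a - b)]
        have e6 : (a ^ 2 + b ^ 2) ^ 2 ≤ 2 * (a ^ 4 + b ^ 4) := by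
          nlinarith [sq_nonneg (a ^ 2 - b ^ 2)]
        have e7 : (a + b) ^ 4 = ((a + b) ^ 2) ^ 2 := by ring
        rw [e7]
        have e8 : ((a + b) ^ 2) ^ 2 ≤ (2 * (a ^ 2 + b ^ 2)) ^ 2 :=
          pow_le_pow_left₀ (sq_nonneg _) e5 2
        nlinarith
      have := e4 k (2 * Real.pi * x)
      rw [mul_pow (2 * Real.pi) x 4] at this
      exact this
    have e9 : t ^ (-3 : ℝ) = (t ^ 3)⁻¹ := by
      rw [Real.rpow_neg ht0.le, show (3 : ℝ) = ((3 : ℕ) : ℝ) by norm_num, Real.rpow_natCast]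
    have e10 : (k + 2 * Real.pi * x) ^ 4 * t ^ (-3 : ℝ) ≤ 8 + 8 * (2 * Real.pi) ^ 4 * |x| ^ 4 := by
      rw [e9, ← div_eq_mul_inv, div_le_iff₀ (by positivity)]
      have e11 : 1 ≤ t ^ 3 := one_le_pow₀ ht
      have e12 : 0 ≤ 8 * (2 * Real.pi) ^ 4 * |x| ^ 4 := by positivity
      nlinarith
    have e13 : 0 ≤ 8 + 8 * (2 * Real.pi) ^ 4 * |x| ^ 4 := by positivity
    nlinarith
  calc ∫⁻ z in {z : ℂ | t / 4 ≤ ‖z‖}, ‖AA t k c z‖ₑ ^ 4
      ≤ ∫⁻ z in {z : ℂ | t / 4 ≤ ‖z‖}, ‖P‖ₑ ^ 4 * (M0 ^ 3 * ∫⁻ x, ‖wh x‖ₑ *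
        ‖DD (1 / (4 * t)) (k + 2 * Real.pi * x) c z‖ₑ ^ 4) := lintegral_mono fun z => hpt z
    _ = ‖P‖ₑ ^ 4 * (M0 ^ 3 * ∫⁻ z in {z : ℂ | t / 4 ≤ ‖z‖}, ∫⁻ x, ‖wh x‖ₑ *
        ‖DD (1 / (4 * t)) (k + 2 * Real.pi * x) c z‖ₑ ^ 4) := by
        rw [lintegral_const_mul' _ _ (by finiteness), lintegral_const_mul' _ _ (by finiteness)]
    _ = ‖P‖ₑ ^ 4 * (M0 ^ 3 * ∫⁻ x, ‖wh x‖ₑ * ∫⁻ z in {z : ℂ | t / 4 ≤ ‖z‖},
        ‖DD (1 / (4 * t)) (k + 2 * Real.pi * x) c z‖ₑ ^ 4) := by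
        rw [lintegral_lintegral_swap hjm.aemeasurable]
        congr 2
        refine lintegral_congr fun x => ?_
        rw [lintegral_const_mul' _ _ (by finiteness)]
    _ ≤ ‖P‖ₑ ^ 4 * (M0 ^ 3 * ∫⁻ x, ‖wh x‖ₑ * (C * ENNReal.ofReal (t ^ (2 - 2 * lam)) *
        ENNReal.ofReal (9 + 8 * (2 * Real.pi) ^ 4 * |x| ^ 4) * Q)) := by
        gcongr with x
        exact hin x
    _ = ‖P‖ₑ ^ 4 * (M0 ^ 3 * ((C * ENNReal.ofReal (t ^ (2 - 2 * lam)) * Q) * M4)) := by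
        rw [hM4, ← lintegral_const_mul (C * ENNReal.ofReal (t ^ (2 - 2 * lam)) * Q) (by fun_prop)]
        congr 2
        refine lintegral_congr fun x => ?_
        ring
    _ = C * (ENNReal.ofReal Real.pi ^ 2 * M0 ^ 3 * M4) *
        (ENNReal.ofReal (t ^ (-2 : ℝ)) * ENNReal.ofReal (t ^ (2 - 2 * lam))) * Q := by
        rw [hPn]
        ring
    _ = _ := by
        rw [← ENNReal.ofReal_mul (by positivity), ← Real.rpow_add ht0]
        congr 4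
        ring

/-- the `L⁴` estimate nearby -/
lemma nearA : ∃ C : ℝ≥0, ∀ (t k : ℝ) (c : ℝ → ℂ),
    0 < t → |k| ≤ t / 8 → Measurable c → (∀ θ, c θ ≠ 0 → |θ| < 4) →
    ∫⁻ z in {z : ℂ | t / 4 ≤ ‖z‖}ᶜ, ‖AA t k c z‖ₑ ^ 4 ≤
      C * ENNReal.ofReal (t ^ (-2 : ℝ)) * ∫⁻ θ, ‖c θ‖ₑ ^ 4 := by
  obtain ⟨C, hC0, hC⟩ := nonstat
  refine ⟨(ENNReal.ofReal (C ^ 4) * 8 ^ 3 * (NNReal.pi : ℝ≥0∞)).toNNReal, ?_⟩
  intro t k c ht hk hc hs
  rw [ENNReal.coe_toNNReal (by finiteness)]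
  have h1 : {z : ℂ | t / 4 ≤ ‖z‖}ᶜ = Metric.ball (0 : ℂ) (t / 4) := by
    ext z
    simp
  rw [h1]
  have h2 : ∀ z ∈ Metric.ball (0 : ℂ) (t / 4), ‖AA t k c z‖ₑ ^ 4 ≤
      ENNReal.ofReal (C / t) ^ 4 * (8 ^ 3 * ∫⁻ θ, ‖c θ‖ₑ ^ 4) := by
    intro z hz
    rw [mem_ball_zero_iff] at hz
    have h3 : ‖AA t k c z‖ₑ ≤ ENNReal.ofReal (C / t) * ∫⁻ θ, ‖c θ‖ₑ := by
      unfold AA
      refine (enorm_integral_le_lintegral_enorm _).trans ?_
      rw [← lintegral_const_mul _ hc.enorm]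
      refine lintegral_mono fun θ => ?_
      rw [enorm_mul, mul_comm]
      gcongr
      rw [← ofReal_norm]
      apply ENNReal.ofReal_le_ofReal
      apply hC t _ ht
      have h4 : |(z * cs θ).re| ≤ t / 4 := by
        refine (Complex.abs_re_le_norm _).trans ?_
        rw [norm_mul, cs_norm, mul_one]
        exact hz.le
      rw [abs_le] at h4 hk ⊢
      constructor <;> linarith [h4.1, h4.2, hk.1, hk.2]
    refine (pow_le_pow_left' h3 4).trans ?_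
    rw [mul_pow]
    gcongr
    have h5 : ∫⁻ θ, ‖c θ‖ₑ = ∫⁻ θ in Ioo (-4 : ℝ) 4, ‖c θ‖ₑ := by
      rw [← lintegral_indicator measurableSet_Ioo]
      refine lintegral_congr fun θ => ?_
      by_cases h : c θ = 0
      · by_cases h6 : θ ∈ Ioo (-4 : ℝ) 4
        · rw [indicator_of_mem h6]
        · rw [indicator_of_notMem h6, h, enorm_zero]
      · rw [indicator_of_mem]
        have := hs θ h
        rw [abs_lt] at this
        exact this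
    rw [h5]
    have h6 := jenw (volume.restrict (Ioo (-4 : ℝ) 4)) (fun _ => 1) (fun θ => ‖c θ‖ₑ)
      measurable_const hc.enorm
    simp only [one_mul, lintegral_const, Measure.restrict_apply MeasurableSet.univ, univ_inter,
      Real.volume_Ioo] at h6
    refine h6.trans ?_
    have e8 : ENNReal.ofReal (4 - -4) = 8 := by norm_num
    rw [e8]
    gcongr
    exact Measure.restrict_le_self
  calc ∫⁻ z in Metric.ball (0 : ℂ) (t / 4), ‖AA t k c z‖ₑ ^ 4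
      ≤ ∫⁻ z in Metric.ball (0 : ℂ) (t / 4),
        ENNReal.ofReal (C / t) ^ 4 * (8 ^ 3 * ∫⁻ θ, ‖c θ‖ₑ ^ 4) :=
        setLIntegral_mono measurable_const h2
    _ = ENNReal.ofReal (C / t) ^ 4 * (8 ^ 3 * ∫⁻ θ, ‖c θ‖ₑ ^ 4) *
        (ENNReal.ofReal (t / 4) ^ 2 * NNReal.pi) := by
        rw [lintegral_const, Measure.restrict_apply MeasurableSet.univ, univ_inter,
          Complex.volume_ball]
    _ = (8 ^ 3 * NNReal.pi) * (ENNReal.ofReal (C / t) ^ 4 * ENNReal.ofReal (t / 4) ^ 2) *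
        ∫⁻ θ, ‖c θ‖ₑ ^ 4 := by ring
    _ ≤ (8 ^ 3 * NNReal.pi) * (ENNReal.ofReal (C ^ 4) * ENNReal.ofReal (t ^ (-2 : ℝ))) *
        ∫⁻ θ, ‖c θ‖ₑ ^ 4 := by
        refine mul_le_mul_left (mul_le_mul_right ?_ _) _
        rw [← ENNReal.ofReal_pow (by positivity), ← ENNReal.ofReal_pow (by positivity),
          ← ENNReal.ofReal_mul (by positivity), ← ENNReal.ofReal_mul (by positivity)]
        apply ENNReal.ofReal_le_ofReal
        rw [Real.rpow_neg ht.le, show (2 : ℝ) = ((2 : ℕ) : ℝ) by norm_num, Real.rpow_natCast]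
        have : (C / t) ^ 4 * (t / 4) ^ 2 = C ^ 4 * (t ^ 2)⁻¹ / 16 := by
          field_simp
          norm_num
        rw [this]
        have : 0 ≤ C ^ 4 * (t ^ 2)⁻¹ := by positivity
        linarith
    _ = _ := by ring

/-- **the `L⁴` estimate** -/
lemma AA4 (lam : ℝ) (h0 : 1 / 2 < lam) (h1 : lam < 1) : ∃ C : ℝ≥0, ∀ (t k : ℝ) (c : ℝ → ℂ),
    1 ≤ t → k ^ 4 ≤ t ^ 3 → |k| ≤ t / 8 → Measurable c → Integrable c →
    (∀ θ, c θ ≠ 0 → |θ| < 4) →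
    ∫⁻ z, ‖AA t k c z‖ₑ ^ 4 ≤ C * ENNReal.ofReal (t ^ (-2 * lam)) * ∫⁻ θ, ‖c θ‖ₑ ^ 4 := by
  obtain ⟨C1, hC1⟩ := farA lam h0 h1
  obtain ⟨C2, hC2⟩ := nearA
  refine ⟨C1 + C2, ?_⟩
  intro t k c ht hk1 hk2 hc hci hs
  have hms : MeasurableSet {z : ℂ | t / 4 ≤ ‖z‖} := by measurability
  rw [← lintegral_add_compl _ hms]
  have h2 := hC1 t k c ht hk1 hc hci hs
  have h3 := hC2 t k c (by linarith) hk2 hc hs
  have h4 : ENNReal.ofReal (t ^ (-2 : ℝ)) ≤ ENNReal.ofReal (t ^ (-2 * lam)) := by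
    apply ENNReal.ofReal_le_ofReal
    apply Real.rpow_le_rpow_of_exponent_le ht
    linarith
  calc _ ≤ C1 * ENNReal.ofReal (t ^ (-2 * lam)) * (∫⁻ θ, ‖c θ‖ₑ ^ 4) +
        C2 * ENNReal.ofReal (t ^ (-2 : ℝ)) * ∫⁻ θ, ‖c θ‖ₑ ^ 4 := add_le_add h2 h3
    _ ≤ C1 * ENNReal.ofReal (t ^ (-2 * lam)) * (∫⁻ θ, ‖c θ‖ₑ ^ 4) +
        C2 * ENNReal.ofReal (t ^ (-2 * lam)) * ∫⁻ θ, ‖c θ‖ₑ ^ 4 := by gcongr
    _ = _ := by
        push_cast
        ring

end Pool.Agent.J6H28.PL
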