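import Mathlib
set_option autoImplicit false

/-! Fourier series of functions of bounded variation. -/

namespace Pool.Agent.J6H28.PL

open MeasureTheory Set Complex Filter
open scoped ENNReal NNReal

/-- Fourier coefficient -/
noncomputable def fc (φ : ℝ → ℂ) (n : ℤ) : ℂ :=
  ((1 / (2 * Real.pi) : ℝ) : ℂ) *
    ∫ r in Ioc (-Real.pi) Real.pi, φ r * cexp (-((n * r : ℝ) : ℂ) * I)

/-- partial sum -/
noncomputable def fs (φ : ℝ → ℂ) (N : ℕ) (r : ℝ) : ℂ :=
  ∑ n ∈ Finset.Icc (-(N : ℤ)) N, fc φ n * cexp (((n * r : ℝ) : ℂ) * I)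

lemma fc_eq (φ : ℝ → ℂ) (n : ℤ) :
    fourierCoeffOn (show -Real.pi < Real.pi by linarith [Real.pi_pos]) φ n = fc φ n := by
  rw [fourierCoeffOn_eq_integral, intervalIntegral.integral_of_le (by linarith [Real.pi_pos])]
  unfold fc
  rw [Complex.real_smul]
  congr 1
  · congr 1
    ring
  · refine setIntegral_congr_fun measurableSet_Ioc fun r _ => ?_
    rw [fourier_coe_apply, smul_eq_mul, mul_comm]
    congr 2
    have : (Real.pi : ℂ) ≠ 0 := by exact_mod_cast Real.pi_ne_zero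
    push_cast
    field_simp
    ring

lemma int_exp (k : ℤ) (hk : k ≠ 0) :
    ∫ r in (-Real.pi)..Real.pi, cexp (((k * r : ℝ) : ℂ) * I) = 0 := by
  have hc : ((k : ℂ) * I) ≠ 0 := by
    simp [hk]
  have h1 : ∀ r : ℝ, cexp (((k * r : ℝ) : ℂ) * I) = cexp (((k : ℂ) * I) * r) := by
    intro r
    congr 1
    push_cast
    ring
  simp_rw [h1]
  rw [integral_exp_mul_complex hc]
  have h2 : (k : ℂ) * I * ((Real.pi : ℝ) : ℂ) =
      (k : ℂ) * I * ((-Real.pi : ℝ) : ℂ) + (k : ℂ) * (2 * Real.pi * I) := by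
    push_cast
    ring
  rw [h2, Complex.exp_add, Complex.exp_int_mul_two_pi_mul_I, mul_one, sub_self, zero_div]

lemma fc_exp (m n : ℤ) :
    fc (fun r => cexp (((m * r : ℝ) : ℂ) * I)) n = if m = n then 1 else 0 := by
  unfold fc
  have h1 : ∀ r : ℝ, cexp (((m * r : ℝ) : ℂ) * I) * cexp (-((n * r : ℝ) : ℂ) * I) =
      cexp (((((m - n : ℤ) : ℝ) * r : ℝ) : ℂ) * I) := by
    intro r
    rw [← Complex.exp_add]
    congr 1
    push_cast
    ring
  simp_rw [h1]
  rw [← intervalIntegral.integral_of_le (by linarith [Real.pi_pos])]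
  by_cases h : m = n
  · rw [if_pos h, h]
    simp only [sub_self, Int.cast_zero, zero_mul, Complex.ofReal_zero, Complex.exp_zero,
      intervalIntegral.integral_const]
    rw [Complex.real_smul, mul_one, ← Complex.ofReal_mul]
    have : 1 / (2 * Real.pi) * (Real.pi - -Real.pi) = 1 := by
      have := Real.pi_pos
      field_simp
      ring
    rw [this, Complex.ofReal_one]
  · rw [if_neg h, int_exp _ (sub_ne_zero.2 h), mul_zero]

lemma fc_sub (φ ψ : ℝ → ℂ) (hφ : IntegrableOn φ (Ioc (-Real.pi) Real.pi))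
    (hψ : IntegrableOn ψ (Ioc (-Real.pi) Real.pi)) (n : ℤ) :
    fc (fun r => φ r - ψ r) n = fc φ n - fc ψ n := by
  unfold fc
  have hb : ∀ f : ℝ → ℂ, IntegrableOn f (Ioc (-Real.pi) Real.pi) →
      Integrable (fun r => f r * cexp (-((n * r : ℝ) : ℂ) * I))
        (volume.restrict (Ioc (-Real.pi) Real.pi)) := by
    intro f hf
    refine Integrable.mul_bdd (c := 1) hf ?_ (Eventually.of_forall fun r => ?_)
    · apply Continuous.aestronglyMeasurable
      fun_prop
    · rw [← Complex.ofReal_neg, Complex.norm_exp_ofReal_mul_I]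
  rw [← mul_sub, ← integral_sub (hb φ hφ) (hb ψ hψ)]
  congr 1
  refine integral_congr_ae (Eventually.of_forall fun r => ?_)
  simp only
  ring

lemma fs_cont (φ : ℝ → ℂ) (N : ℕ) : Continuous (fs φ N) := by
  unfold fs
  fun_prop

lemma fc_fs (φ : ℝ → ℂ) (N : ℕ) (m : ℤ) :
    fc (fs φ N) m = if m ∈ Finset.Icc (-(N : ℤ)) N then fc φ m else 0 := by
  have h1 : fc (fs φ N) m = ∑ n ∈ Finset.Icc (-(N : ℤ)) N,
      fc φ n * fc (fun r => cexp (((n * r : ℝ) : ℂ) * I)) m := by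
    conv_lhs => unfold fc
    have h2 : ∀ r : ℝ, fs φ N r * cexp (-((m * r : ℝ) : ℂ) * I) =
        ∑ n ∈ Finset.Icc (-(N : ℤ)) N,
          fc φ n * (cexp (((n * r : ℝ) : ℂ) * I) * cexp (-((m * r : ℝ) : ℂ) * I)) := by
      intro r
      unfold fs
      rw [Finset.sum_mul]
      refine Finset.sum_congr rfl fun n _ => ?_
      ring
    simp_rw [h2]
    rw [integral_finsetSum, Finset.mul_sum]
    · refine Finset.sum_congr rfl fun n _ => ?_
      rw [integral_const_mul]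
      conv_rhs => unfold fc
      unfold fc
      ring
    · intro n _
      have h3 : Continuous (fun r : ℝ => fc φ n * (cexp (((n * r : ℝ) : ℂ) * I) *
        cexp (-((m * r : ℝ) : ℂ) * I))) := by fun_prop
      exact (h3.integrableOn_Icc (a := -Real.pi) (b := Real.pi)).mono_set Ioc_subset_Icc_self
  rw [h1]
  simp_rw [fc_exp]
  simp

lemma tail (φ : ℝ → ℂ) (hm : Measurable φ) (B : ℝ) (hb : ∀ r, ‖φ r‖ ≤ B)
    (hf : ∀ n : ℤ, n ≠ 0 → ‖fc φ n‖ ≤ B / |(n : ℝ)|) (N : ℕ) :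
    ∫ r in Ioc (-Real.pi) Real.pi, ‖φ r - fs φ N r‖ ^ 2 ≤ 8 * Real.pi * B ^ 2 / (N + 1) := by
  have hB : 0 ≤ B := (norm_nonneg _).trans (hb 0)
  have hpi := Real.pi_pos
  have hc := fs_cont φ N
  set g : ℝ → ℂ := fun r => φ r - fs φ N r with hg
  have hφi : IntegrableOn φ (Ioc (-Real.pi) Real.pi) := by
    refine Measure.integrableOn_of_bounded (M := B) (by simp) hm.aestronglyMeasurable
      (Eventually.of_forall hb)
  have hfi : IntegrableOn (fs φ N) (Ioc (-Real.pi) Real.pi) :=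
    (hc.integrableOn_Icc (a := -Real.pi) (b := Real.pi)).mono_set Ioc_subset_Icc_self
  obtain ⟨D, hD⟩ : ∃ D, ∀ r ∈ Icc (-Real.pi) Real.pi, ‖fs φ N r‖ ≤ D :=
    (isCompact_Icc (a := -Real.pi) (b := Real.pi)).exists_bound_of_continuousOn hc.continuousOn
  have hgm : MemLp g 2 (volume.restrict (Ioc (-Real.pi) Real.pi)) := by
    refine MemLp.of_bound (hm.sub hc.measurable).aestronglyMeasurable (B + D) ?_
    refine (ae_restrict_iff' measurableSet_Ioc).2 (Eventually.of_forall fun r hr => ?_)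
    exact (norm_sub_le _ _).trans (add_le_add (hb r) (hD r (Ioc_subset_Icc_self hr)))
  have hP := hasSum_sq_fourierCoeffOn (show -Real.pi < Real.pi by linarith) hgm
  have hgc : ∀ n : ℤ, ‖fourierCoeffOn (show -Real.pi < Real.pi by linarith) g n‖ ^ 2 =
      if n ∈ Finset.Icc (-(N : ℤ)) N then 0 else ‖fc φ n‖ ^ 2 := by
    intro n
    rw [fc_eq, hg, fc_sub φ (fs φ N) hφi hfi, fc_fs]
    split_ifs with h
    · simp
    · simp
  simp_rw [hgc] at hP
  set F : ℤ → ℝ := fun n => if n ∈ Finset.Icc (-(N : ℤ)) N then 0 else ‖fc φ n‖ ^ 2 with hF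
  have hF0 : ∀ n, 0 ≤ F n := by
    intro n
    simp only [hF]
    split_ifs <;> positivity
  have hFb : ∀ K : ℕ, F ((K : ℤ) + 1) ≤ B ^ 2 / ((K : ℝ) + 1) ^ 2 ∧
      F (-((K : ℤ) + 1)) ≤ B ^ 2 / ((K : ℝ) + 1) ^ 2 := by
    intro K
    have h1 : ∀ n : ℤ, n ≠ 0 → F n ≤ B ^ 2 / |(n : ℝ)| ^ 2 := by
      intro n hn
      simp only [hF]
      split_ifs
      · positivity
      · rw [← div_pow]
        exact pow_le_pow_left₀ (norm_nonneg _) (hf n hn) 2
    constructor
    · have h2 := h1 ((K : ℤ) + 1) (by positivity)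
      push_cast at h2
      rwa [sq_abs] at h2
    · have h2 := h1 (-((K : ℤ) + 1)) (by
        rw [neg_ne_zero]
        positivity)
      push_cast at h2
      rwa [sq_abs, neg_sq] at h2
  have hK : ∀ K : ℕ, N ≤ K → ∑ n ∈ Finset.Icc (-(K : ℤ)) K, F n ≤
      4 * B ^ 2 * (1 / ((N : ℝ) + 1) - 1 / ((K : ℝ) + 1)) := by
    intro K hNK
    induction K, hNK using Nat.le_induction with
    | base =>
      rw [sub_self, mul_zero]
      apply le_of_eq
      refine Finset.sum_eq_zero fun n hn => ?_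
      simp only [hF]
      rw [if_pos hn]
    | succ K hNK ih =>
      have h3 := Finset.sum_Icc_succ_eq_add_endpoints F (N := K)
      have h4 : Finset.Icc (-((K + 1 : ℕ) : ℤ)) ((K + 1 : ℕ) : ℤ) =
          Finset.Icc (-((K : ℤ) + 1)) ((K : ℤ) + 1) := by push_cast; rfl
      rw [h4, h3]
      obtain ⟨h5, h6⟩ := hFb K
      have h7 : 2 * (B ^ 2 / ((K : ℝ) + 1) ^ 2) ≤
          4 * B ^ 2 * (1 / ((K : ℝ) + 1) - 1 / ((K : ℝ) + 2)) := by
        have hk0 : (0 : ℝ) ≤ K := Nat.cast_nonneg K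
        have e1 : 4 * B ^ 2 * (1 / ((K : ℝ) + 1) - 1 / ((K : ℝ) + 2)) =
            4 * B ^ 2 / (((K : ℝ) + 1) * ((K : ℝ) + 2)) := by
          field_simp
          ring
        rw [e1, ← mul_div_assoc, div_le_div_iff₀ (by positivity) (by positivity)]
        have : 0 ≤ B ^ 2 := sq_nonneg B
        have e2 : 2 * (((K : ℝ) + 1) * ((K : ℝ) + 2)) ≤ 4 * ((K : ℝ) + 1) ^ 2 := by nlinarith
        nlinarith
      push_cast
      have e3 : (K : ℝ) + 1 + 1 = K + 2 := by ring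
      rw [e3]
      linarith
  have hle : (Real.pi - -Real.pi)⁻¹ • ∫ r in (-Real.pi)..Real.pi, ‖g r‖ ^ 2 ≤
      4 * B ^ 2 * (1 / ((N : ℝ) + 1)) := by
    refine le_of_tendsto' hP fun s => ?_
    obtain ⟨K, hK1, hK2⟩ : ∃ K : ℕ, N ≤ K ∧ s ⊆ Finset.Icc (-(K : ℤ)) K := by
      refine ⟨N + ∑ n ∈ s, n.natAbs, by omega, ?_⟩
      intro n hn
      have h1 : n.natAbs ≤ ∑ n ∈ s, n.natAbs :=
        Finset.single_le_sum (f := fun n : ℤ => n.natAbs) (fun _ _ => Nat.zero_le _) hn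
      rw [Finset.mem_Icc]
      omega
    calc ∑ n ∈ s, F n ≤ ∑ n ∈ Finset.Icc (-(K : ℤ)) K, F n :=
          Finset.sum_le_sum_of_subset_of_nonneg hK2 fun n _ _ => hF0 n
      _ ≤ 4 * B ^ 2 * (1 / ((N : ℝ) + 1) - 1 / ((K : ℝ) + 1)) := hK K hK1
      _ ≤ _ := by
        have : 0 ≤ 1 / ((K : ℝ) + 1) := by positivity
        have := sq_nonneg B
        nlinarith
  rw [intervalIntegral.integral_of_le (by linarith), smul_eq_mul, sub_neg_eq_add,
    inv_mul_le_iff₀ (by positivity)] at hle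
  refine hle.trans (le_of_eq ?_)
  ring

lemma tail' (φ : ℝ → ℂ) (hm : Measurable φ) (B : ℝ) (hb : ∀ r, ‖φ r‖ ≤ B)
    (hf : ∀ n : ℤ, n ≠ 0 → ‖fc φ n‖ ≤ B / |(n : ℝ)|) (N : ℕ) :
    ∫⁻ r in Ioc (-Real.pi) Real.pi, ‖φ r - fs φ N r‖ₑ ^ 2 ≤
      ENNReal.ofReal (8 * Real.pi * B ^ 2 / (N + 1)) := by
  have hc := fs_cont φ N
  obtain ⟨D, hD⟩ : ∃ D, ∀ r ∈ Icc (-Real.pi) Real.pi, ‖fs φ N r‖ ≤ D :=
    (isCompact_Icc (a := -Real.pi) (b := Real.pi)).exists_bound_of_continuousOn hc.continuousOn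
  have hgm : MemLp (fun r => φ r - fs φ N r) 2 (volume.restrict (Ioc (-Real.pi) Real.pi)) := by
    refine MemLp.of_bound (hm.sub hc.measurable).aestronglyMeasurable (B + D) ?_
    refine (ae_restrict_iff' measurableSet_Ioc).2 (Eventually.of_forall fun r hr => ?_)
    exact (norm_sub_le _ _).trans (add_le_add (hb r) (hD r (Ioc_subset_Icc_self hr)))
  have hi := (memLp_two_iff_integrable_sq_norm hgm.1).1 hgm
  have h1 := ofReal_integral_eq_lintegral_ofReal hi (Eventually.of_forall fun r => by positivity)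
  have h2 : ∀ r, ENNReal.ofReal (‖φ r - fs φ N r‖ ^ 2) = ‖φ r - fs φ N r‖ₑ ^ 2 := by
    intro r
    rw [ENNReal.ofReal_pow (norm_nonneg _), ofReal_norm]
  simp_rw [h2] at h1
  rw [← h1]
  exact ENNReal.ofReal_le_ofReal (tail φ hm B hb hf N)

lemma fc_bv (φ : ℝ → ℂ) (hφ : Integrable φ) (hs : ∀ r, φ r ≠ 0 → 0 ≤ r ∧ r ≤ 2)
    (B : ℝ) (hB : 0 ≤ B)
    (hmod : ∀ h : ℝ, 0 < h → ∫⁻ r, ‖φ (r + h) - φ r‖ₑ ≤ ENNReal.ofReal (h * B)) (n : ℤ)
    (hn : n ≠ 0) : ‖fc φ n‖ ≤ B / |(n : ℝ)| := by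
  have hpi := Real.pi_pos
  have hn0 : 0 < |(n : ℝ)| := by
    rw [abs_pos]
    exact_mod_cast hn
  set h : ℝ := Real.pi / |(n : ℝ)| with hh
  have hh0 : 0 < h := by positivity
  set X : ℂ := ∫ r, φ r * cexp (-((n * r : ℝ) : ℂ) * I) with hX
  have hnorm : ∀ r : ℝ, ‖cexp (-((n * r : ℝ) : ℂ) * I)‖ = 1 := fun r => by
    rw [← Complex.ofReal_neg, Complex.norm_exp_ofReal_mul_I]
  have hfc : fc φ n = ((1 / (2 * Real.pi) : ℝ) : ℂ) * X := by
    unfold fc
    congr 1
    apply setIntegral_eq_integral_of_forall_compl_eq_zero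
    intro r hr
    have : φ r = 0 := by
      by_contra hcon
      obtain ⟨h1, h2⟩ := hs r hcon
      have := Real.pi_gt_three
      exact hr ⟨by linarith, by linarith⟩
    rw [this, zero_mul]
  have hi : ∀ f : ℝ → ℂ, Integrable f → Integrable (fun r => f r * cexp (-((n * r : ℝ) : ℂ) * I)) := by
    intro f hf
    refine Integrable.mul_bdd (c := 1) hf ?_ (Eventually.of_forall fun r => (hnorm r).le)
    apply Continuous.aestronglyMeasurable
    fun_prop
  have hshift : X = -∫ r, φ (r + h) * cexp (-((n * r : ℝ) : ℂ) * I) := by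
    rw [hX, ← integral_add_right_eq_self _ h, ← integral_neg]
    refine integral_congr_ae (Eventually.of_forall fun r => ?_)
    simp only
    have e1 : cexp (-((n * (r + h) : ℝ) : ℂ) * I) = -cexp (-((n * r : ℝ) : ℂ) * I) := by
      have e2 : -((n * (r + h) : ℝ) : ℂ) * I = -((n * r : ℝ) : ℂ) * I + -((n * h : ℝ) : ℂ) * I := by
        push_cast
        ring
      rw [e2, Complex.exp_add]
      have e3 : cexp (-((n * h : ℝ) : ℂ) * I) = -1 := by
        rcases abs_choice (n : ℝ) with h4 | h4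
        · have : (n : ℝ) * h = Real.pi := by
            rw [hh, h4]
            rw [h4] at hn0
            field_simp
          rw [this, neg_mul, Complex.exp_neg, Complex.exp_pi_mul_I]
          norm_num
        · have : (n : ℝ) * h = -Real.pi := by
            rw [hh, h4]
            have : (n : ℝ) ≠ 0 := by exact_mod_cast hn
            field_simp
          rw [this]
          push_cast
          rw [neg_neg, Complex.exp_pi_mul_I]
      rw [e3]
      ring
    rw [e1]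
    ring
  have h2X : (2 : ℂ) * X = -∫ r, (φ (r + h) - φ r) * cexp (-((n * r : ℝ) : ℂ) * I) := by
    have e5 : ∫ r, (φ (r + h) - φ r) * cexp (-((n * r : ℝ) : ℂ) * I) =
        (∫ r, φ (r + h) * cexp (-((n * r : ℝ) : ℂ) * I)) - X := by
      rw [hX, ← integral_sub (hi _ (hφ.comp_add_right h)) (hi _ hφ)]
      refine integral_congr_ae (Eventually.of_forall fun r => ?_)
      simp only
      ring
    rw [e5]
    linear_combination hshift
  have h3 : ‖(2 : ℂ) * X‖ₑ ≤ ENNReal.ofReal (h * B) := by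
    rw [h2X, enorm_neg]
    refine (enorm_integral_le_lintegral_enorm _).trans (le_trans (le_of_eq ?_) (hmod h hh0))
    refine lintegral_congr fun r => ?_
    rw [enorm_mul, ← ofReal_norm (cexp _), hnorm, ENNReal.ofReal_one, mul_one]
  rw [← ofReal_norm, ENNReal.ofReal_le_ofReal_iff (by positivity), norm_mul, Complex.norm_ofNat] at h3
  rw [hfc, norm_mul, Complex.norm_real, Real.norm_eq_abs, abs_of_pos (by positivity)]
  have h4 : ‖X‖ ≤ Real.pi / |(n : ℝ)| * B / 2 := by linarith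
  calc 1 / (2 * Real.pi) * ‖X‖ ≤ 1 / (2 * Real.pi) * (Real.pi / |(n : ℝ)| * B / 2) := by gcongr
    _ = (B / |(n : ℝ)|) / 4 := by
      field_simp
      ring
    _ ≤ B / |(n : ℝ)| := by
      have : 0 ≤ B / |(n : ℝ)| := by positivity
      linarith

lemma fc_zero (φ : ℝ → ℂ) (B : ℝ) (hb : ∀ r, ‖φ r‖ ≤ B)
    (n : ℤ) : ‖fc φ n‖ ≤ B := by
  have hB : 0 ≤ B := (norm_nonneg _).trans (hb 0)
  have hpi := Real.pi_pos
  unfold fc
  rw [norm_mul, Complex.norm_real, Real.norm_eq_abs, abs_of_pos (by positivity)]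
  have h1 : ‖∫ r in Ioc (-Real.pi) Real.pi, φ r * cexp (-((n * r : ℝ) : ℂ) * I)‖ ≤
      B * (volume (Ioc (-Real.pi) Real.pi)).toReal := by
    apply norm_setIntegral_le_of_norm_le_const (by simp)
    intro r _
    rw [norm_mul, ← Complex.ofReal_neg, Complex.norm_exp_ofReal_mul_I, mul_one]
    exact hb r
  rw [Real.volume_Ioc, ENNReal.toReal_ofReal (by linarith)] at h1
  calc 1 / (2 * Real.pi) * _ ≤ 1 / (2 * Real.pi) * (B * (Real.pi - -Real.pi)) := by gcongr
    _ = B := by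
      field_simp
      ring

/-- the weights -/
noncomputable def kap (n : ℤ) : ℝ := 1 / max 1 |(n : ℝ)|

lemma kap_nonneg (n : ℤ) : 0 ≤ kap n := by
  unfold kap
  positivity

lemma kap_sum (N : ℕ) : ∑ n ∈ Finset.Icc (-(N : ℤ)) N, kap n ≤ 1 + 4 * Real.log ((N : ℝ) + 1) := by
  induction N with
  | zero => simp [kap]
  | succ N ih =>
    have h3 := Finset.sum_Icc_succ_eq_add_endpoints kap (N := N)
    have h4 : Finset.Icc (-((N + 1 : ℕ) : ℤ)) ((N + 1 : ℕ) : ℤ) =
        Finset.Icc (-((N : ℤ) + 1)) ((N : ℤ) + 1) := by push_cast; rfl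
    rw [h4, h3]
    have h5 : kap ((N : ℤ) + 1) = 1 / ((N : ℝ) + 1) := by
      unfold kap
      push_cast
      rw [abs_of_pos (by positivity), max_eq_right]
      have : (0 : ℝ) ≤ N := Nat.cast_nonneg N
      linarith
    have h6 : kap (-((N : ℤ) + 1)) = 1 / ((N : ℝ) + 1) := by
      rw [← h5]
      unfold kap
      push_cast
      rw [abs_neg]
    rw [h5, h6]
    have hN : (0 : ℝ) ≤ N := Nat.cast_nonneg N
    have h7 : 1 / ((N : ℝ) + 2) ≤ Real.log ((N : ℝ) + 2) - Real.log ((N : ℝ) + 1) := by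
      rw [← Real.log_div (by positivity) (by positivity)]
      have h8 := Real.one_sub_inv_le_log_of_pos
        (show 0 < ((N : ℝ) + 2) / ((N : ℝ) + 1) by positivity)
      refine le_trans (le_of_eq ?_) h8
      field_simp
      ring
    have h9 : 2 * (1 / ((N : ℝ) + 1)) ≤ 4 * (1 / ((N : ℝ) + 2)) := by
      rw [← mul_div_assoc, ← mul_div_assoc, div_le_div_iff₀ (by positivity) (by positivity)]
      linarith
    push_cast
    have e3 : (N : ℝ) + 1 + 1 = N + 2 := by ring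
    rw [e3]
    linarith

lemma kap_sum' (η : ℝ) (hη : 0 < η) (N : ℕ) :
    ∑ n ∈ Finset.Icc (-(N : ℤ)) N, kap n ≤ (1 + 4 / η) * ((N : ℝ) + 1) ^ η := by
  have h1 := kap_sum N
  have hN : (0 : ℝ) ≤ N := Nat.cast_nonneg N
  have h2 : Real.log ((N : ℝ) + 1) ≤ ((N : ℝ) + 1) ^ η / η :=
    Real.log_le_rpow_div (by positivity) hη
  have h3 : 1 ≤ ((N : ℝ) + 1) ^ η := Real.one_le_rpow (by linarith) hη.le
  have h4 : 4 * (((N : ℝ) + 1) ^ η / η) = 4 / η * ((N : ℝ) + 1) ^ η := by ring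
  linarith

end Pool.Agent.J6H28.PL
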