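import Mathlib
import Pool.Agent.J6H28.PL.Ak
import Pool.Agent.H153R4.Pl
import Pool.Agent.H438R2.RZ.M1
set_option autoImplicit false

/-! The extension operator at a fixed time in polar coordinates. -/

namespace Pool.Agent.J6H28.PL

open MeasureTheory Set Complex Filter FourierTransform
open scoped ENNReal NNReal ComplexConjugate RealInnerProductSpace

/-- the target of polar coordinates -/
def tgt : Set (ℝ × ℝ) := Ioi (0 : ℝ) ×ˢ Ioo (-Real.pi) Real.pi

lemma tgt_meas : MeasurableSet tgt := measurableSet_Ioi.prod measurableSet_Ioo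

/-- the phase factor -/
noncomputable def ph (t : ℝ) (ξ : ℂ) (p : ℝ × ℝ) : ℂ :=
  cexp (-((t * p.1 ^ 2 + p.1 * (ξ * cs p.2).re : ℝ) : ℂ) * I)

/-- the operator -/
noncomputable def TV (t : ℝ) (V : ℝ × ℝ → ℂ) (ξ : ℂ) : ℂ :=
  ∫ p in tgt, V p * ph t ξ p

lemma ph_norm (t : ℝ) (ξ : ℂ) (p : ℝ × ℝ) : ‖ph t ξ p‖ = 1 := norm_cexp_neg _

lemma ph_enorm (t : ℝ) (ξ : ℂ) (p : ℝ × ℝ) : ‖ph t ξ p‖ₑ = 1 := by
  rw [← ofReal_norm, ph_norm, ENNReal.ofReal_one]

lemma ph_cont (t : ℝ) : Continuous (fun q : ℂ × (ℝ × ℝ) => ph t q.1 q.2) := by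
  have := cs_cont
  unfold ph
  fun_prop

lemma TV_meas (t : ℝ) (V : ℝ × ℝ → ℂ) (hV : Measurable V) : Measurable (TV t V) := by
  have h2 : StronglyMeasurable (Function.uncurry fun (ξ : ℂ) (p : ℝ × ℝ) => V p * ph t ξ p) := by
    apply Measurable.stronglyMeasurable
    exact (hV.comp measurable_snd).mul (ph_cont t).measurable
  exact h2.integral_prod_right.measurable

lemma TV_sup (t : ℝ) (V : ℝ × ℝ → ℂ) (ξ : ℂ) : ‖TV t V ξ‖ₑ ≤ ∫⁻ p in tgt, ‖V p‖ₑ := by
  unfold TV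
  refine (enorm_integral_le_lintegral_enorm _).trans (le_of_eq ?_)
  refine lintegral_congr fun p => ?_
  rw [enorm_mul, ph_enorm, mul_one]

lemma symm_eq (p : ℝ × ℝ) : Complex.polarCoord.symm p = (p.1 : ℂ) * conj (cs p.2) := by
  rw [Complex.polarCoord_symm_apply]
  congr 1
  apply Complex.ext
  · rw [Complex.conj_re, cs_re]
    simp only [Complex.add_re, Complex.ofReal_re, Complex.re_ofReal_mul, Complex.I_re, mul_zero,
      add_zero]
  · rw [Complex.conj_im, cs_im]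
    simp only [Complex.add_im, Complex.ofReal_im, Complex.im_ofReal_mul, Complex.I_im, mul_one,
      zero_add, neg_neg]

lemma inner_symm (p : ℝ × ℝ) (ξ : ℂ) : ⟪Complex.polarCoord.symm p, ξ⟫ = p.1 * (ξ * cs p.2).re := by
  rw [symm_eq, Complex.inner, map_mul, Complex.conj_ofReal, Complex.conj_conj, mul_left_comm,
    Complex.re_ofReal_mul]

lemma norm_symm (p : ℝ × ℝ) : ‖Complex.polarCoord.symm p‖ = |p.1| := by
  rw [symm_eq, norm_mul, Complex.norm_real, RCLike.norm_conj, cs_norm, mul_one, Real.norm_eq_abs]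

/-- the function in the plane -/
noncomputable def GG (t : ℝ) (V : ℝ × ℝ → ℂ) (x : ℂ) : ℂ :=
  ((‖x‖⁻¹ : ℝ) : ℂ) * V (‖x‖, Complex.arg x) * cexp (-((t * ‖x‖ ^ 2 : ℝ) : ℂ) * I)

lemma GG_symm (t : ℝ) (V : ℝ × ℝ → ℂ) (p : ℝ × ℝ) (hp : p ∈ tgt) :
    GG t V (Complex.polarCoord.symm p) =
      ((p.1⁻¹ : ℝ) : ℂ) * V p * cexp (-((t * p.1 ^ 2 : ℝ) : ℂ) * I) := by
  have h1 : Complex.polarCoord (Complex.polarCoord.symm p) = p :=
    Complex.polarCoord.right_inv (by rw [Complex.polarCoord_target]; exact hp)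
  rw [Complex.polarCoord_apply] at h1
  have h2 : ‖Complex.polarCoord.symm p‖ = p.1 := by
    rw [norm_symm]; exact abs_of_pos hp.1
  unfold GG
  rw [h1, h2]

lemma GG_meas (t : ℝ) (V : ℝ × ℝ → ℂ) (hV : Measurable V) : Measurable (GG t V) := by
  unfold GG
  have h1 : Measurable (fun x : ℂ => V (‖x‖, Complex.arg x)) :=
    hV.comp (measurable_norm.prodMk Complex.measurable_arg)
  fun_prop

/-- **the `L²` estimate** -/
lemma TV_L2 (t : ℝ) (V : ℝ × ℝ → ℂ) (hV : Measurable V)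
    (hs : ∀ p, V p ≠ 0 → 3 / 8 ≤ p.1 ∧ p.1 ≤ 2) :
    ∫⁻ ξ, ‖TV t V ξ‖ₑ ^ 2 ≤ ENNReal.ofReal ((2 * Real.pi) ^ 2 * (8 / 3)) * ∫⁻ p in tgt, ‖V p‖ₑ ^ 2 := by
  by_cases hinf : ∫⁻ p in tgt, ‖V p‖ₑ ^ 2 = ⊤
  · rw [hinf, ENNReal.mul_top]
    · exact le_top
    · have := Real.pi_pos
      rw [Ne, ENNReal.ofReal_eq_zero, not_le]
      positivity
  have hG := GG_meas t V hV
  -- L² norm
  have hL2 : ∫⁻ x, ‖GG t V x‖ₑ ^ 2 ≤ ENNReal.ofReal (8 / 3) * ∫⁻ p in tgt, ‖V p‖ₑ ^ 2 := by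
    rw [← Complex.lintegral_comp_polarCoord_symm, ← lintegral_const_mul' _ _ (by finiteness)]
    refine setLIntegral_mono (by fun_prop) fun p hp => ?_
    rw [GG_symm t V p hp, smul_eq_mul, enorm_mul, enorm_mul, ← ofReal_norm (cexp _),
      norm_cexp_neg, ENNReal.ofReal_one, mul_one, mul_pow, ← mul_assoc]
    by_cases h0 : V p = 0
    · simp [h0]
    gcongr
    obtain ⟨h1, h2⟩ := hs p h0
    have hp0 : 0 < p.1 := hp.1
    rw [← ofReal_norm, Complex.norm_real, Real.norm_eq_abs, abs_of_pos (by positivity),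
      ← ENNReal.ofReal_pow (by positivity), ← ENNReal.ofReal_mul hp0.le]
    apply ENNReal.ofReal_le_ofReal
    have : p.1 * p.1⁻¹ ^ 2 = p.1⁻¹ := by field_simp
    rw [this, inv_le_comm₀ hp0 (by norm_num)]
    norm_num
    exact h1
  have hL2' : ∫⁻ x, ‖GG t V x‖ₑ ^ 2 ≠ ⊤ := ne_top_of_le_ne_top (by finiteness) hL2
  -- L¹ norm
  have hV1 : ∫⁻ p in tgt, ‖V p‖ₑ ≠ ⊤ := by
    have h1 : ∫⁻ p in tgt, ‖V p‖ₑ ≤ ∫⁻ p in tgt,
        ((Icc (3 / 8 : ℝ) 2 ×ˢ Ioo (-Real.pi) Real.pi).indicator (fun _ => (1 : ℝ≥0∞)) p +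
          ‖V p‖ₑ ^ 2) := by
      refine setLIntegral_mono ?_ fun p hp => ?_
      · have : Measurable ((Icc (3 / 8 : ℝ) 2 ×ˢ Ioo (-Real.pi) Real.pi).indicator
            (fun _ : ℝ × ℝ => (1 : ℝ≥0∞))) :=
          measurable_const.indicator (measurableSet_Icc.prod measurableSet_Ioo)
        fun_prop
      · by_cases h0 : V p = 0
        · simp [h0]
        · obtain ⟨h2, h3⟩ := hs p h0
          rw [indicator_of_mem (show p ∈ Icc (3 / 8 : ℝ) 2 ×ˢ Ioo (-Real.pi) Real.pi from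
            ⟨⟨h2, h3⟩, hp.2⟩)]
          rcases le_total ‖V p‖ₑ 1 with h4 | h4
          · exact h4.trans le_self_add
          · refine le_trans ?_ le_add_self
            rw [sq]
            exact le_mul_of_one_le_left bot_le h4
    refine ne_top_of_le_ne_top ?_ h1
    rw [lintegral_add_right _ (by fun_prop)]
    refine ENNReal.add_ne_top.2 ⟨?_, hinf⟩
    refine ne_top_of_le_ne_top ?_ (setLIntegral_le_lintegral _ _)
    rw [lintegral_indicator (measurableSet_Icc.prod measurableSet_Ioo), lintegral_const,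
      Measure.restrict_apply MeasurableSet.univ, univ_inter, Measure.volume_eq_prod,
      Measure.prod_prod, Real.volume_Icc, Real.volume_Ioo]
    finiteness
  have hL1 : ∫⁻ x, ‖GG t V x‖ₑ ≠ ⊤ := by
    rw [← Complex.lintegral_comp_polarCoord_symm]
    refine ne_top_of_le_ne_top hV1 ?_
    refine setLIntegral_mono (by fun_prop) fun p hp => ?_
    rw [GG_symm t V p hp, smul_eq_mul, enorm_mul, enorm_mul, ← ofReal_norm (cexp _),
      norm_cexp_neg, ENNReal.ofReal_one, mul_one, ← mul_assoc]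
    have hp0 : 0 < p.1 := hp.1
    rw [← ofReal_norm ((p.1⁻¹ : ℝ) : ℂ), Complex.norm_real, Real.norm_eq_abs,
      abs_of_pos (by positivity), ← ENNReal.ofReal_mul hp0.le, mul_inv_cancel₀ hp0.ne',
      ENNReal.ofReal_one, one_mul]
  have hi1 : Integrable (GG t V) := ⟨hG.aestronglyMeasurable, hL1.lt_top⟩
  have hi2 : MemLp (GG t V) 2 := by
    rw [memLp_two_iff_integrable_sq_norm hG.aestronglyMeasurable]
    refine ⟨(hG.norm.pow_const 2).aestronglyMeasurable, ?_⟩
    rw [HasFiniteIntegral]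
    refine lt_of_eq_of_lt ?_ hL2'.lt_top
    refine lintegral_congr fun x => ?_
    rw [enorm_pow, enorm_norm]
  have hpl := Pool.Agent.H153R4.plancherel (GG t V) hi1 hi2
  have hF : ∀ ζ : ℂ, TV t V (((2 * Real.pi : ℝ) : ℂ) * ζ) = 𝓕 (GG t V) ζ := by
    intro ζ
    rw [Real.fourier_eq', ← Complex.integral_comp_polarCoord_symm]
    unfold TV
    refine setIntegral_congr_fun tgt_meas fun p hp => ?_
    rw [GG_symm t V p hp, inner_symm, Complex.real_smul, smul_eq_mul]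
    have hp0 : (p.1 : ℂ) ≠ 0 := by exact_mod_cast (show (0 : ℝ) < p.1 from hp.1).ne'
    have e1 : (p.1 : ℂ) * (cexp (((-2 * Real.pi * (p.1 * (ζ * cs p.2).re) : ℝ) : ℂ) * I) *
        (((p.1⁻¹ : ℝ) : ℂ) * V p * cexp (-((t * p.1 ^ 2 : ℝ) : ℂ) * I))) =
        V p * (cexp (((-2 * Real.pi * (p.1 * (ζ * cs p.2).re) : ℝ) : ℂ) * I) *
          cexp (-((t * p.1 ^ 2 : ℝ) : ℂ) * I)) := by
      push_cast
      field_simp
    rw [e1, ← Complex.exp_add]
    unfold ph
    congr 2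
    rw [mul_assoc ((2 * Real.pi : ℝ) : ℂ), Complex.re_ofReal_mul]
    push_cast
    ring
  rw [lint_smul _ (2 * Real.pi) (by positivity)]
  simp_rw [hF]
  rw [hpl, ENNReal.ofReal_mul (by positivity), mul_assoc]
  gcongr

/-- the relation to the operator `AA` -/
lemma TV_AA (t k : ℝ) (c : ℝ → ℂ) (hc : Measurable c) (hci : Integrable c)
    (hs : ∀ θ, c θ ≠ 0 → θ ∈ Ioo (-Real.pi) Real.pi) (ξ : ℂ) :
    TV t (fun p => c p.2 * ((ww p.1 : ℂ) * cexp (((k * p.1 : ℝ) : ℂ) * I))) ξ = AA t k c ξ := by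
  unfold TV
  rw [setIntegral_eq_integral_of_forall_compl_eq_zero]
  · have hI : Integrable (fun p : ℝ × ℝ =>
        c p.2 * ((ww p.1 : ℂ) * cexp (((k * p.1 : ℝ) : ℂ) * I)) * ph t ξ p) := by
      have h3 : Integrable (fun p : ℝ × ℝ => ‖(ww p.1 : ℂ)‖ * ‖c p.2‖) := by
        rw [Measure.volume_eq_prod]
        exact ww_integrable.norm.mul_prod hci.norm
      refine h3.mono' ?_ (Eventually.of_forall fun p => ?_)
      · have hw := ww_cont
        have h4 : Continuous (fun p : ℝ × ℝ => ph t ξ p) := by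
          have := cs_cont
          unfold ph
          fun_prop
        have h5 : Continuous (fun p : ℝ × ℝ => (ww p.1 : ℂ) * cexp (((k * p.1 : ℝ) : ℂ) * I)) := by
          fun_prop
        exact (((hc.comp measurable_snd).mul h5.measurable).mul h4.measurable).aestronglyMeasurable
      · rw [norm_mul, ph_norm, mul_one, norm_mul, norm_mul, Complex.norm_exp_ofReal_mul_I, mul_one,
          mul_comm]
    rw [Measure.volume_eq_prod] at hI ⊢
    rw [integral_prod_symm _ hI]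
    unfold AA
    refine integral_congr_ae (Eventually.of_forall fun θ => ?_)
    simp only
    unfold JJ
    rw [← integral_const_mul]
    refine integral_congr_ae (Eventually.of_forall fun r => ?_)
    simp only
    rw [mul_assoc, mul_assoc (ww r : ℂ)]
    congr 2
    unfold ph
    rw [← Complex.exp_add]
    congr 1
    push_cast
    ring
  · intro p hp
    by_cases h0 : c p.2 = 0
    · simp [h0]
    · have h1 := hs _ h0
      have h2 : p.1 ≤ 0 := by
        by_contra hcon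
        push Not at hcon
        exact hp ⟨hcon, h1⟩
      simp [ww_zero p.1 (Or.inl (by linarith))]

lemma AA2 (t k : ℝ) (c : ℝ → ℂ) (hc : Measurable c) (hci : Integrable c)
    (hs : ∀ θ, c θ ≠ 0 → θ ∈ Ioo (-Real.pi) Real.pi) :
    ∫⁻ ξ, ‖AA t k c ξ‖ₑ ^ 2 ≤ ENNReal.ofReal (2 * ((2 * Real.pi) ^ 2 * (8 / 3))) *
      ∫⁻ θ, ‖c θ‖ₑ ^ 2 := by
  have hw := ww_cont
  have hm : Measurable (fun p : ℝ × ℝ => c p.2 * ((ww p.1 : ℂ) * cexp (((k * p.1 : ℝ) : ℂ) * I))) := by
    have h5 : Continuous (fun p : ℝ × ℝ => (ww p.1 : ℂ) * cexp (((k * p.1 : ℝ) : ℂ) * I)) := by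
      fun_prop
    exact (hc.comp measurable_snd).mul h5.measurable
  have h1 := TV_L2 t _ hm (by
    intro p hp
    have h2 : ww p.1 ≠ 0 := by
      intro h
      apply hp
      rw [h]
      simp
    by_contra hcon
    apply h2
    apply ww_zero
    by_contra hcon2
    push Not at hcon2
    apply hcon
    constructor <;> linarith [hcon2.1, hcon2.2])
  simp_rw [TV_AA t k c hc hci hs] at h1
  refine h1.trans ?_
  rw [ENNReal.ofReal_mul (by norm_num : (0 : ℝ) ≤ 2), mul_comm (ENNReal.ofReal 2), mul_assoc]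
  gcongr
  calc ∫⁻ p in tgt, ‖c p.2 * ((ww p.1 : ℂ) * cexp (((k * p.1 : ℝ) : ℂ) * I))‖ₑ ^ 2
      ≤ ∫⁻ p : ℝ × ℝ, (Icc (0 : ℝ) 2).indicator (fun _ => (1 : ℝ≥0∞)) p.1 * ‖c p.2‖ₑ ^ 2 := by
        refine (setLIntegral_le_lintegral _ _).trans (lintegral_mono fun p => ?_)
        rw [enorm_mul, enorm_mul, ← ofReal_norm (cexp _), Complex.norm_exp_ofReal_mul_I,
          ENNReal.ofReal_one, mul_one, mul_pow, mul_comm]
        gcongr
        by_cases h3 : p.1 ∈ Icc (0 : ℝ) 2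
        · rw [indicator_of_mem h3, ← ofReal_norm]
          have := ww_norm p.1
          have h4 : ENNReal.ofReal ‖(ww p.1 : ℂ)‖ ≤ 1 := by
            rw [← ENNReal.ofReal_one]
            exact ENNReal.ofReal_le_ofReal this
          exact pow_le_one' h4 2
        · rw [indicator_of_notMem h3, ww_zero]
          · simp
          · by_contra hcon
            push Not at hcon
            exact h3 ⟨by linarith [hcon.1], by linarith [hcon.2]⟩
    _ = (∫⁻ r : ℝ, (Icc (0 : ℝ) 2).indicator (fun _ => (1 : ℝ≥0∞)) r) * ∫⁻ θ, ‖c θ‖ₑ ^ 2 := by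
        rw [Measure.volume_eq_prod]
        exact lintegral_prod_mul (measurable_const.indicator measurableSet_Icc).aemeasurable
          (hc.enorm.pow_const 2).aemeasurable
    _ = ENNReal.ofReal 2 * ∫⁻ θ, ‖c θ‖ₑ ^ 2 := by
        rw [lintegral_indicator measurableSet_Icc, lintegral_const,
          Measure.restrict_apply MeasurableSet.univ, univ_inter, Real.volume_Icc]
        norm_num

end Pool.Agent.J6H28.PL
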