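import Mathlib
import Pool.Agent.J6H28.PL.Tv
set_option autoImplicit false

/-! Interpolation between the `L²` and the `L⁴` estimates. -/

namespace Pool.Agent.J6H28.PL

open MeasureTheory Set Complex Filter
open scoped ENNReal NNReal ComplexConjugate

lemma JJ_meas (t : ℝ) : Measurable (JJ t) := by
  unfold JJ
  have h2 : StronglyMeasurable (Function.uncurry fun (u r : ℝ) =>
      (ww r : ℂ) * cexp (-((t * r ^ 2 + u * r : ℝ) : ℂ) * I)) := by
    have := ww_cont
    apply Continuous.stronglyMeasurable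
    unfold Function.uncurry
    fun_prop
  exact h2.integral_prod_right.measurable

lemma JJ_bound (t u : ℝ) : ‖JJ t u‖ ≤ ∫ r, ‖(ww r : ℂ)‖ := by
  unfold JJ
  refine (norm_integral_le_integral_norm _).trans (le_of_eq ?_)
  refine integral_congr_ae (Eventually.of_forall fun r => ?_)
  simp only
  rw [norm_mul, norm_cexp_neg, mul_one]

lemma AA_integrable (t k : ℝ) (c : ℝ → ℂ) (hci : Integrable c) (ξ : ℂ) :
    Integrable (fun θ => c θ * JJ t ((ξ * cs θ).re - k)) := by
  refine hci.mul_bdd (c := ∫ r, ‖(ww r : ℂ)‖) ?_ (Eventually.of_forall fun θ => JJ_bound _ _)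
  have h1 : Measurable (fun θ : ℝ => (ξ * cs θ).re - k) := by
    have := cs_cont
    fun_prop
  exact ((JJ_meas t).comp h1).aestronglyMeasurable

lemma AA_add (t k : ℝ) (c d : ℝ → ℂ) (hci : Integrable c) (hdi : Integrable d) (ξ : ℂ) :
    AA t k (fun θ => c θ + d θ) ξ = AA t k c ξ + AA t k d ξ := by
  unfold AA
  rw [← integral_add (AA_integrable t k c hci ξ) (AA_integrable t k d hdi ξ)]
  refine integral_congr_ae (Eventually.of_forall fun θ => ?_)
  simp only
  ring

lemma AA_meas (t k : ℝ) (c : ℝ → ℂ) (hc : Measurable c) : Measurable (AA t k c) := by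
  have h2 : StronglyMeasurable (Function.uncurry fun (ξ : ℂ) (θ : ℝ) =>
      c θ * JJ t ((ξ * cs θ).re - k)) := by
    apply Measurable.stronglyMeasurable
    have h1 : Measurable (fun p : ℂ × ℝ => (p.1 * cs p.2).re - k) := by
      have := cs_cont
      fun_prop
    exact (hc.comp measurable_snd).mul ((JJ_meas t).comp h1)
  exact h2.integral_prod_right.measurable

/-- **the `L^q` estimate for one frequency** -/
lemma AAq (lam q : ℝ) (h0 : 1 / 2 < lam) (h1 : lam < 1) (hq : 2 < q) (hq4 : q < 4) :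
    ∃ C : ℝ≥0, ∀ (t k : ℝ) (c : ℝ → ℂ), 1 ≤ t → k ^ 4 ≤ t ^ 3 → |k| ≤ t / 8 → Measurable c →
    Integrable c → (∀ θ, c θ ≠ 0 → θ ∈ Ioo (-Real.pi) Real.pi) →
    ∫⁻ z, ‖AA t k c z‖ₑ ^ q ≤
      C * ENNReal.ofReal (t ^ (-lam * (q - 2))) * ∫⁻ θ, ‖c θ‖ₑ ^ q := by
  obtain ⟨Cm, hCm0, hCm⟩ := Pool.Agent.H438R2.RZ.marc24 q hq hq4
  obtain ⟨C4, hC4⟩ := AA4 lam h0 h1
  set M2 : ℝ := 2 * ((2 * Real.pi) ^ 2 * (8 / 3)) with hM2
  have hM20 : 0 < M2 := by have := Real.pi_pos; positivity
  set D : ℝ := (C4 : ℝ) + 1 with hD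
  have hD0 : 0 < D := by have := C4.2; positivity
  refine ⟨Real.toNNReal (Cm * M2 ^ ((4 - q) / 2) * D ^ ((q - 2) / 2)), ?_⟩
  intro t k c ht hk1 hk2 hc hci hs
  have ht0 : 0 < t := by linarith
  have hpi4 : ∀ θ : ℝ, θ ∈ Ioo (-Real.pi) Real.pi → |θ| < 4 := by
    intro θ hθ
    have := Real.pi_lt_d2
    rw [abs_lt]
    constructor <;> linarith [hθ.1, hθ.2]
  have key := hCm (X := ℝ) (Y := ℂ) volume volume (fun z => ‖AA t k c z‖) (fun θ => ‖c θ‖)
    (AA_meas t k c hc).norm hc.norm (fun _ => norm_nonneg _) (fun _ => norm_nonneg _)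
    M2 (D * t ^ (-2 * lam)) hM20 (by positivity) (by
      intro s hs0
      set c1 : ℝ → ℂ := {θ | s < ‖c θ‖}.indicator c with hc1
      set c2 : ℝ → ℂ := {θ | ‖c θ‖ ≤ s}.indicator c with hc2
      have hm1 : MeasurableSet {θ | s < ‖c θ‖} := measurableSet_lt measurable_const hc.norm
      have hm2 : MeasurableSet {θ | ‖c θ‖ ≤ s} := measurableSet_le hc.norm measurable_const
      have hs1 : ∀ θ, c1 θ ≠ 0 → θ ∈ Ioo (-Real.pi) Real.pi := by
        intro θ hθ
        apply hs
        intro h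
        apply hθ
        simp only [hc1, indicator_apply_eq_zero]
        exact fun _ => h
      have hs2 : ∀ θ, c2 θ ≠ 0 → θ ∈ Ioo (-Real.pi) Real.pi := by
        intro θ hθ
        apply hs
        intro h
        apply hθ
        simp only [hc2, indicator_apply_eq_zero]
        exact fun _ => h
      have hi1 : Integrable c1 := hci.indicator hm1
      have hi2 : Integrable c2 := hci.indicator hm2
      have hme1 : Measurable c1 := hc.indicator hm1
      have hme2 : Measurable c2 := hc.indicator hm2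
      have hsum : c = fun θ => c1 θ + c2 θ := by
        funext θ
        simp only [hc1, hc2]
        by_cases h : s < ‖c θ‖
        · rw [indicator_of_mem (show θ ∈ {θ | s < ‖c θ‖} from h),
            indicator_of_notMem (show θ ∉ {θ | ‖c θ‖ ≤ s} from not_le.2 h), add_zero]
        · rw [indicator_of_notMem (show θ ∉ {θ | s < ‖c θ‖} from h),
            indicator_of_mem (show θ ∈ {θ | ‖c θ‖ ≤ s} from not_lt.1 h), zero_add]
      refine ⟨fun z => ‖AA t k c1 z‖ₑ, fun z => ‖AA t k c2 z‖ₑ, (AA_meas t k c1 hme1).enorm,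
        (AA_meas t k c2 hme2).enorm, ?_, ?_, ?_⟩
      · refine Eventually.of_forall fun z => ?_
        have h2 : AA t k c z = AA t k c1 z + AA t k c2 z := by
          rw [← AA_add t k c1 c2 hi1 hi2 z, ← hsum]
        change ENNReal.ofReal ‖AA t k c z‖ ≤ ‖AA t k c1 z‖ₑ + ‖AA t k c2 z‖ₑ
        rw [ofReal_norm, h2]
        exact enorm_add_le _ _
      · refine (AA2 t k c1 hme1 hi1 hs1).trans (le_of_eq ?_)
        congr 1
        rw [← lintegral_indicator hm1]
        refine lintegral_congr fun θ => ?_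
        by_cases h : s < ‖c θ‖
        · simp only [hc1]
          rw [indicator_of_mem (show θ ∈ {θ | s < ‖c θ‖} from h),
            indicator_of_mem (show θ ∈ {θ | s < ‖c θ‖} from h), ofReal_norm]
        · simp only [hc1]
          rw [indicator_of_notMem (show θ ∉ {θ | s < ‖c θ‖} from h),
            indicator_of_notMem (show θ ∉ {θ | s < ‖c θ‖} from h)]
          simp
      · refine (hC4 t k c2 ht hk1 hk2 hme2 hi2 (fun θ hθ => hpi4 θ (hs2 θ hθ))).trans ?_
        have e1 : (C4 : ℝ≥0∞) * ENNReal.ofReal (t ^ (-2 * lam)) ≤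
            ENNReal.ofReal (D * t ^ (-2 * lam)) := by
          rw [ENNReal.ofReal_mul hD0.le]
          gcongr
          rw [show (C4 : ℝ≥0∞) = ENNReal.ofReal (C4 : ℝ) from ENNReal.ofReal_coe_nnreal.symm]
          apply ENNReal.ofReal_le_ofReal
          linarith
        refine (mul_le_mul_left e1 _).trans (le_of_eq ?_)
        congr 1
        rw [← lintegral_indicator hm2]
        refine lintegral_congr fun θ => ?_
        by_cases h : ‖c θ‖ ≤ s
        · simp only [hc2]
          rw [indicator_of_mem (show θ ∈ {θ | ‖c θ‖ ≤ s} from h),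
            indicator_of_mem (show θ ∈ {θ | ‖c θ‖ ≤ s} from h), ofReal_norm]
        · simp only [hc2]
          rw [indicator_of_notMem (show θ ∉ {θ | ‖c θ‖ ≤ s} from h),
            indicator_of_notMem (show θ ∉ {θ | ‖c θ‖ ≤ s} from h)]
          simp)
  simp only [ofReal_norm] at key
  refine key.trans ?_
  gcongr
  change _ ≤ ENNReal.ofReal (Cm * M2 ^ ((4 - q) / 2) * D ^ ((q - 2) / 2)) *
    ENNReal.ofReal (t ^ (-lam * (q - 2)))
  rw [← ENNReal.ofReal_mul (by positivity)]
  apply le_of_eq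
  congr 1
  rw [Real.mul_rpow hD0.le (by positivity), ← Real.rpow_mul ht0.le]
  have e3 : -2 * lam * ((q - 2) / 2) = -lam * (q - 2) := by ring
  rw [e3]
  ring

end Pool.Agent.J6H28.PL
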