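import Mathlib
import Pool.Agent.J6H28.PL.Interp
import Pool.Agent.J6H28.PL.Fs
set_option autoImplicit false

/-! Preparations for the estimate at a fixed time. -/

namespace Pool.Agent.J6H28.PL

open MeasureTheory Set Complex Filter
open scoped ENNReal NNReal

lemma lq_sum {ι : Type*} (s : Finset ι) (G : ι → ℂ → ℂ) (κ : ι → ℝ≥0∞) (M : ℝ≥0∞) (q : ℝ)
    (hq : 1 ≤ q) (hG : ∀ i ∈ s, Measurable (G i))
    (h : ∀ i ∈ s, ∫⁻ z, ‖G i z‖ₑ ^ q ≤ κ i ^ q * M) :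
    ∫⁻ z, ‖∑ i ∈ s, G i z‖ₑ ^ q ≤ (∑ i ∈ s, κ i) ^ q * M := by
  have hq0 : 0 < q := by linarith
  have hq1 : ENNReal.ofReal q ≠ 0 := by
    rw [Ne, ENNReal.ofReal_eq_zero, not_le]
    exact hq0
  have e : ∀ g : ℂ → ℂ, eLpNorm g (ENNReal.ofReal q) volume = (∫⁻ z, ‖g z‖ₑ ^ q) ^ (1 / q) := by
    intro g
    rw [eLpNorm_eq_lintegral_rpow_enorm_toReal hq1 ENNReal.ofReal_ne_top,
      ENNReal.toReal_ofReal hq0.le]
  have h1 := eLpNorm_sum_le (μ := (volume : Measure ℂ)) (p := ENNReal.ofReal q)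
    (fun i hi => (hG i hi).aestronglyMeasurable) (by
      rw [← ENNReal.ofReal_one]
      exact ENNReal.ofReal_le_ofReal hq)
  rw [e] at h1
  simp only [Finset.sum_apply] at h1
  have h2 : ∑ i ∈ s, eLpNorm (G i) (ENNReal.ofReal q) volume ≤ (∑ i ∈ s, κ i) * M ^ (1 / q) := by
    rw [Finset.sum_mul]
    refine Finset.sum_le_sum fun i hi => ?_
    rw [e]
    refine (ENNReal.rpow_le_rpow (h i hi) (by positivity)).trans (le_of_eq ?_)
    rw [ENNReal.mul_rpow_of_nonneg _ _ (by positivity), ← ENNReal.rpow_mul]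
    have : q * (1 / q) = 1 := by field_simp
    rw [this, ENNReal.rpow_one]
  have h3 := ENNReal.rpow_le_rpow (h1.trans h2) hq0.le
  rw [ENNReal.mul_rpow_of_nonneg _ _ hq0.le, ← ENNReal.rpow_mul, ← ENNReal.rpow_mul] at h3
  have : 1 / q * q = 1 := by field_simp
  rw [this, ENNReal.rpow_one, ENNReal.rpow_one] at h3
  exact h3

lemma prodq {α : Type*} [MeasurableSpace α] (μ : Measure α) (q : ℝ) (hq : 2 < q) (B : α → ℝ≥0∞)
    (hB : AEMeasurable B μ) :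
    (∫⁻ x, B x ∂μ) ^ (q - 2) * ∫⁻ x, B x ^ 2 ∂μ ≤ (μ univ) ^ (q - 2) * ∫⁻ x, B x ^ q ∂μ := by
  have hq0 : 0 < q := by linarith
  set X := ∫⁻ x, B x ^ q ∂μ with hX
  set m := μ univ with hm
  have J1 := jen μ q (by linarith) B hB
  have J2 := jen μ (q / 2) (by linarith) (fun x => B x ^ 2) (hB.pow_const 2)
  have e1 : ∀ x, (B x ^ 2) ^ (q / 2) = B x ^ q := by
    intro x
    rw [← ENNReal.rpow_natCast, ← ENNReal.rpow_mul]
    congr 1
    push_cast
    ring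
  simp_rw [e1] at J2
  have K1 := ENNReal.rpow_le_rpow J1 (z := (q - 2) / q) (by
    apply div_nonneg <;> linarith)
  have K2 := ENNReal.rpow_le_rpow J2 (z := 2 / q) (by positivity)
  rw [← ENNReal.rpow_mul] at K1 K2
  have e2 : q * ((q - 2) / q) = q - 2 := by field_simp
  have e3 : q / 2 * (2 / q) = 1 := by field_simp
  rw [e2] at K1
  rw [e3, ENNReal.rpow_one] at K2
  refine (mul_le_mul' K1 K2).trans (le_of_eq ?_)
  rw [ENNReal.mul_rpow_of_nonneg _ _ (by apply div_nonneg <;> linarith),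
    ENNReal.mul_rpow_of_nonneg _ _ (by positivity), ← ENNReal.rpow_mul, ← ENNReal.rpow_mul]
  have e4 : m ^ ((q - 1) * ((q - 2) / q)) * X ^ ((q - 2) / q) * (m ^ ((q / 2 - 1) * (2 / q)) *
      X ^ (2 / q)) = (m ^ ((q - 1) * ((q - 2) / q)) * m ^ ((q / 2 - 1) * (2 / q))) *
        (X ^ ((q - 2) / q) * X ^ (2 / q)) := by ring
  rw [e4, ← ENNReal.rpow_add_of_nonneg, ← ENNReal.rpow_add_of_nonneg]
  · have e5 : (q - 1) * ((q - 2) / q) + (q / 2 - 1) * (2 / q) = q - 2 := by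
      field_simp
      ring
    have e6 : (q - 2) / q + 2 / q = 1 := by
      field_simp
      ring
    rw [e5, e6, ENNReal.rpow_one]
  · apply div_nonneg <;> linarith
  · positivity
  · apply mul_nonneg
    · linarith
    · apply div_nonneg <;> linarith
  · apply mul_nonneg
    · linarith
    · positivity

lemma TV_q (q : ℝ) (hq : 2 < q) (t : ℝ) (V : ℝ × ℝ → ℂ) (hV : Measurable V)
    (hs : ∀ p, V p ≠ 0 → 3 / 8 ≤ p.1 ∧ p.1 ≤ 2) :
    ∫⁻ ξ, ‖TV t V ξ‖ₑ ^ q ≤ ENNReal.ofReal ((2 * Real.pi) ^ 2 * (8 / 3)) *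
      ((∫⁻ p in tgt, ‖V p‖ₑ) ^ (q - 2) * ∫⁻ p in tgt, ‖V p‖ₑ ^ 2) := by
  have h1 : ∀ ξ, ‖TV t V ξ‖ₑ ^ q ≤ (∫⁻ p in tgt, ‖V p‖ₑ) ^ (q - 2) * ‖TV t V ξ‖ₑ ^ 2 := by
    intro ξ
    have e : ‖TV t V ξ‖ₑ ^ q = ‖TV t V ξ‖ₑ ^ (q - 2) * ‖TV t V ξ‖ₑ ^ 2 := by
      rw [← ENNReal.rpow_natCast, ← ENNReal.rpow_add_of_nonneg _ _ (by linarith) (by norm_num)]
      congr 1
      push_cast
      ring
    rw [e]
    gcongr
    exact TV_sup t V ξ
  refine (lintegral_mono h1).trans ?_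
  rw [lintegral_const_mul _ ((TV_meas t V hV).enorm.pow_const 2), mul_left_comm]
  gcongr
  exact TV_L2 t V hV hs

/-- coefficient functions -/
noncomputable def an (V : ℝ × ℝ → ℂ) (n : ℤ) (θ : ℝ) : ℂ := fc (fun r => V (r, θ)) n

lemma an_meas (V : ℝ × ℝ → ℂ) (hV : Measurable V) (n : ℤ) : Measurable (an V n) := by
  unfold an fc
  have h2 : StronglyMeasurable (Function.uncurry fun (θ r : ℝ) =>
      V (r, θ) * cexp (-((n * r : ℝ) : ℂ) * I)) := by
    apply Measurable.stronglyMeasurable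
    have h3 : Measurable (fun p : ℝ × ℝ => V (p.2, p.1)) := hV.comp measurable_swap
    have h4 : Continuous (fun p : ℝ × ℝ => cexp (-((n * p.2 : ℝ) : ℂ) * I)) := by fun_prop
    exact h3.mul h4.measurable
  exact (h2.integral_prod_right (ν := volume.restrict (Ioc (-Real.pi) Real.pi))).measurable.const_mul _

/-- the high frequency part -/
noncomputable def VH (V : ℝ × ℝ → ℂ) (N : ℕ) (p : ℝ × ℝ) : ℂ :=
  (ww p.1 : ℂ) * (V p - fs (fun r => V (r, p.2)) N p.1)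

lemma fs_meas2 (V : ℝ × ℝ → ℂ) (hV : Measurable V) (N : ℕ) :
    Measurable (fun p : ℝ × ℝ => fs (fun r => V (r, p.2)) N p.1) := by
  unfold fs
  refine Finset.measurable_sum _ fun n _ => ?_
  have h1 : Measurable (fun p : ℝ × ℝ => an V n p.2) := (an_meas V hV n).comp measurable_snd
  have h2 : Continuous (fun p : ℝ × ℝ => cexp (((n * p.1 : ℝ) : ℂ) * I)) := by fun_prop
  exact h1.mul h2.measurable

lemma VH_meas (V : ℝ × ℝ → ℂ) (hV : Measurable V) (N : ℕ) : Measurable (VH V N) := by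
  have h1 := fs_meas2 V hV N
  have h2 : Measurable (fun p : ℝ × ℝ => (ww p.1 : ℂ)) := by
    have := ww_cont
    apply Continuous.measurable
    fun_prop
  exact h2.mul (hV.sub h1)

/-- the assumptions on the function -/
structure Adm (V : ℝ × ℝ → ℂ) (B : ℝ → ℝ≥0) : Prop where
  meas : Measurable V
  measB : Measurable B
  supp : ∀ p, V p ≠ 0 → 1 / 2 ≤ p.1 ∧ p.1 ≤ 1 ∧ p.2 ∈ Ioo (-Real.pi) Real.pi
  bound : ∀ p, ‖V p‖ ≤ B p.2
  var : ∀ θ h : ℝ, 0 < h → ∫⁻ r, ‖V (r + h, θ) - V (r, θ)‖ₑ ≤ ENNReal.ofReal (h * B θ)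

lemma Adm.slice {V : ℝ × ℝ → ℂ} {B : ℝ → ℝ≥0} (H : Adm V B) (θ : ℝ) :
    Measurable (fun r => V (r, θ)) := H.meas.comp (measurable_id.prodMk measurable_const)

lemma Adm.slice_int {V : ℝ × ℝ → ℂ} {B : ℝ → ℝ≥0} (H : Adm V B) (θ : ℝ) :
    Integrable (fun r => V (r, θ)) := by
  have h1 : IntegrableOn (fun r => V (r, θ)) (Icc (1 / 2 : ℝ) 1) :=
    Measure.integrableOn_of_bounded (M := B θ) (by simp) (H.slice θ).aestronglyMeasurable
      (Eventually.of_forall fun r => H.bound (r, θ))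
  refine (integrableOn_iff_integrable_of_support_subset ?_).1 h1
  intro r hr
  obtain ⟨h2, h3, _⟩ := H.supp (r, θ) hr
  exact ⟨h2, h3⟩

lemma Adm.coef {V : ℝ × ℝ → ℂ} {B : ℝ → ℝ≥0} (H : Adm V B) (θ : ℝ) (n : ℤ) (hn : n ≠ 0) :
    ‖fc (fun r => V (r, θ)) n‖ ≤ (B θ : ℝ) / |(n : ℝ)| := by
  refine fc_bv _ (H.slice_int θ) ?_ (B θ) (B θ).2 (fun h hh => H.var θ h hh) n hn
  intro r hr
  obtain ⟨h2, h3, _⟩ := H.supp (r, θ) hr
  constructor <;> linarith

lemma Adm.an_bound {V : ℝ × ℝ → ℂ} {B : ℝ → ℝ≥0} (H : Adm V B) (θ : ℝ) (n : ℤ) :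
    ‖an V n θ‖ ≤ kap n * B θ := by
  unfold an kap
  by_cases hn : n = 0
  · have h1 := fc_zero (fun r => V (r, θ)) (B θ) (fun r => H.bound (r, θ)) n
    subst hn
    simpa using h1
  · have h1 := H.coef θ n hn
    have h2 : (1 : ℝ) ≤ |(n : ℝ)| := by
      have : (1 : ℤ) ≤ |n| := Int.one_le_abs hn
      exact_mod_cast this
    rw [max_eq_right h2]
    refine h1.trans (le_of_eq ?_)
    ring

lemma Adm.an_supp {V : ℝ × ℝ → ℂ} {B : ℝ → ℝ≥0} (H : Adm V B) (n : ℤ) (θ : ℝ)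
    (h : an V n θ ≠ 0) : θ ∈ Ioo (-Real.pi) Real.pi := by
  by_contra hcon
  apply h
  unfold an fc
  have h1 : ∀ r, V (r, θ) = 0 := by
    intro r
    by_contra h2
    exact hcon (H.supp (r, θ) h2).2.2
  simp [h1]

/-- the estimates of the high frequency part -/
lemma Adm.high {V : ℝ × ℝ → ℂ} {B : ℝ → ℝ≥0} (H : Adm V B) (N : ℕ) :
    ∫⁻ p in tgt, ‖VH V N p‖ₑ ^ 2 ≤ ENNReal.ofReal (8 * Real.pi / (N + 1)) *
      (∫⁻ θ in Ioo (-Real.pi) Real.pi, (B θ : ℝ≥0∞) ^ 2) ∧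
    ∫⁻ p in tgt, ‖VH V N p‖ₑ ≤ ENNReal.ofReal (4 * Real.pi / Real.sqrt (N + 1)) *
      (∫⁻ θ in Ioo (-Real.pi) Real.pi, (B θ : ℝ≥0∞)) := by
  have hpi := Real.pi_pos
  set F : ℝ × ℝ → ℂ := fun p => V p - fs (fun r => V (r, p.2)) N p.1 with hF
  have hFm : Measurable F := H.meas.sub (fs_meas2 V H.meas N)
  have hwle : ∀ r : ℝ, ‖(ww r : ℂ)‖ₑ ≤ 1 := by
    intro r
    rw [← ofReal_norm, ← ENNReal.ofReal_one]
    exact ENNReal.ofReal_le_ofReal (ww_norm r)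
  have hpt : ∀ p ∈ tgt, ‖VH V N p‖ₑ ≤
      (Ioc (-Real.pi) Real.pi ×ˢ Ioo (-Real.pi) Real.pi).indicator (fun p => ‖F p‖ₑ) p := by
    intro p hp
    by_cases hw : ww p.1 = 0
    · unfold VH
      rw [hw]
      simp
    · have h1 : p.1 ∈ Ioc (-Real.pi) Real.pi := by
        by_contra hcon
        apply hw
        apply ww_zero
        by_contra hcon2
        push Not at hcon2
        have := Real.pi_gt_three
        exact hcon ⟨by linarith [hcon2.1], by linarith [hcon2.2]⟩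
      rw [indicator_of_mem (show p ∈ Ioc (-Real.pi) Real.pi ×ˢ Ioo (-Real.pi) Real.pi from
        ⟨h1, hp.2⟩)]
      unfold VH
      rw [enorm_mul]
      exact mul_le_of_le_one_left bot_le (hwle _)
  have hmS : MeasurableSet (Ioc (-Real.pi) Real.pi ×ˢ Ioo (-Real.pi) Real.pi) :=
    measurableSet_Ioc.prod measurableSet_Ioo
  have hred : ∀ (G : ℝ≥0∞ → ℝ≥0∞), Measurable G → Monotone G → G 0 = 0 →
      ∫⁻ p in tgt, G ‖VH V N p‖ₑ ≤ ∫⁻ θ in Ioo (-Real.pi) Real.pi,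
        ∫⁻ r in Ioc (-Real.pi) Real.pi, G ‖F (r, θ)‖ₑ := by
    intro G hG hmono hG0
    calc ∫⁻ p in tgt, G ‖VH V N p‖ₑ
        ≤ ∫⁻ p in tgt, (Ioc (-Real.pi) Real.pi ×ˢ Ioo (-Real.pi) Real.pi).indicator
          (fun p => G ‖F p‖ₑ) p := by
          refine setLIntegral_mono ((hG.comp hFm.enorm).indicator hmS) fun p hp => ?_
          refine (hmono (hpt p hp)).trans (le_of_eq ?_)
          by_cases h : p ∈ Ioc (-Real.pi) Real.pi ×ˢ Ioo (-Real.pi) Real.pi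
          · rw [indicator_of_mem h, indicator_of_mem h]
          · rw [indicator_of_notMem h, indicator_of_notMem h, hG0]
      _ ≤ ∫⁻ p, (Ioc (-Real.pi) Real.pi ×ˢ Ioo (-Real.pi) Real.pi).indicator
          (fun p => G ‖F p‖ₑ) p := setLIntegral_le_lintegral _ _
      _ = ∫⁻ p in Ioc (-Real.pi) Real.pi ×ˢ Ioo (-Real.pi) Real.pi, G ‖F p‖ₑ :=
          lintegral_indicator hmS _
      _ = _ := by
          rw [Measure.volume_eq_prod, ← Measure.prod_restrict]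
          exact lintegral_prod_symm _ (hG.comp hFm.enorm).aemeasurable
  have hin2 : ∀ θ, ∫⁻ r in Ioc (-Real.pi) Real.pi, ‖F (r, θ)‖ₑ ^ 2 ≤
      ENNReal.ofReal (8 * Real.pi / (N + 1)) * (B θ : ℝ≥0∞) ^ 2 := by
    intro θ
    have h1 := tail' (fun r => V (r, θ)) (H.slice θ) (B θ) (fun r => H.bound (r, θ))
      (fun n hn => H.coef θ n hn) N
    refine h1.trans (le_of_eq ?_)
    have e1 : 8 * Real.pi * (B θ : ℝ) ^ 2 / (N + 1) = 8 * Real.pi / (N + 1) * (B θ : ℝ) ^ 2 := by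
      ring
    rw [e1, ENNReal.ofReal_mul (by positivity), ENNReal.ofReal_pow (NNReal.coe_nonneg _),
      ENNReal.ofReal_coe_nnreal]
  have hin1 : ∀ θ, ∫⁻ r in Ioc (-Real.pi) Real.pi, ‖F (r, θ)‖ₑ ≤
      ENNReal.ofReal (4 * Real.pi / Real.sqrt (N + 1)) * (B θ : ℝ≥0∞) := by
    intro θ
    have hm : Measurable (fun r => ‖F (r, θ)‖ₑ) :=
      (hFm.comp (measurable_id.prodMk measurable_const)).enorm
    have h1 := jen (volume.restrict (Ioc (-Real.pi) Real.pi)) 2 (by norm_num)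
      (fun r => ‖F (r, θ)‖ₑ) hm.aemeasurable
    have e : ∀ x : ℝ≥0∞, x ^ (2 : ℝ) = x ^ 2 := fun x => by
      rw [← ENNReal.rpow_natCast]; norm_num
    simp_rw [e] at h1
    rw [Measure.restrict_apply MeasurableSet.univ, univ_inter, Real.volume_Ioc,
      show (2 : ℝ) - 1 = 1 by norm_num, ENNReal.rpow_one] at h1
    have h2 := h1.trans (mul_le_mul_right (hin2 θ) _)
    have h3 : ENNReal.ofReal (Real.pi - -Real.pi) *
        (ENNReal.ofReal (8 * Real.pi / (N + 1)) * (B θ : ℝ≥0∞) ^ 2) =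
        (ENNReal.ofReal (4 * Real.pi / Real.sqrt (N + 1)) * (B θ : ℝ≥0∞)) ^ 2 := by
      rw [mul_pow, ← mul_assoc, ← ENNReal.ofReal_mul (by linarith),
        ← ENNReal.ofReal_pow (by positivity)]
      congr 2
      rw [div_pow, Real.sq_sqrt (by positivity)]
      ring
    rw [h3] at h2
    exact (ENNReal.pow_le_pow_left_iff (by norm_num)).1 h2
  constructor
  · refine (hred (fun x => x ^ 2) (by fun_prop) (fun a b h => pow_le_pow_left' h 2)
      (by simp)).trans ?_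
    rw [← lintegral_const_mul' _ _ (by finiteness)]
    exact lintegral_mono hin2
  · refine (hred (fun x => x) measurable_id (fun a b h => h) rfl).trans ?_
    rw [← lintegral_const_mul' _ _ (by finiteness)]
    exact lintegral_mono hin1

end Pool.Agent.J6H28.PL
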