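import Mathlib
import Pool.Agent.J6H28.PL.Fix1
set_option autoImplicit false

/-! The estimate at a fixed time. -/

namespace Pool.Agent.J6H28.PL

open MeasureTheory Set Complex Filter
open scoped ENNReal NNReal

/-- one frequency -/
noncomputable def pc (c : ℝ → ℂ) (k : ℝ) (p : ℝ × ℝ) : ℂ :=
  c p.2 * ((ww p.1 : ℂ) * cexp (((k * p.1 : ℝ) : ℂ) * I))

lemma pc_int (c : ℝ → ℂ) (k : ℝ) (hc : Measurable c) (hci : Integrable c) : Integrable (pc c k) := by
  have h3 : Integrable (fun p : ℝ × ℝ => ‖(ww p.1 : ℂ)‖ * ‖c p.2‖) := by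
    rw [Measure.volume_eq_prod]
    exact ww_integrable.norm.mul_prod hci.norm
  refine h3.mono' ?_ (Eventually.of_forall fun p => ?_)
  · have hw := ww_cont
    have h5 : Continuous (fun p : ℝ × ℝ => (ww p.1 : ℂ) * cexp (((k * p.1 : ℝ) : ℂ) * I)) := by
      fun_prop
    exact ((hc.comp measurable_snd).mul h5.measurable).aestronglyMeasurable
  · unfold pc
    rw [norm_mul, norm_mul, Complex.norm_exp_ofReal_mul_I, mul_one, mul_comm]

lemma ph_int (t : ℝ) (ξ : ℂ) (f : ℝ × ℝ → ℂ) (μ : Measure (ℝ × ℝ)) (hf : Integrable f μ) :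
    Integrable (fun p => f p * ph t ξ p) μ := by
  refine hf.mul_bdd (c := 1) ?_ (Eventually.of_forall fun p => (ph_norm t ξ p).le)
  apply Continuous.aestronglyMeasurable
  have := cs_cont
  unfold ph
  fun_prop

lemma Adm.V_int {V : ℝ × ℝ → ℂ} {B : ℝ → ℝ≥0} (H : Adm V B)
    (hB : ∫⁻ θ in Ioo (-Real.pi) Real.pi, (B θ : ℝ≥0∞) ≠ ⊤) : Integrable V := by
  refine ⟨H.meas.aestronglyMeasurable, ?_⟩
  rw [HasFiniteIntegral]
  have h1 : ∫⁻ p, ‖V p‖ₑ ≤ ∫⁻ p : ℝ × ℝ, (Icc (0 : ℝ) 1).indicator (fun _ => (1 : ℝ≥0∞)) p.1 *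
      (Ioo (-Real.pi) Real.pi).indicator (fun θ => (B θ : ℝ≥0∞)) p.2 := by
    refine lintegral_mono fun p => ?_
    by_cases h : V p = 0
    · simp [h]
    · obtain ⟨h2, h3, h4⟩ := H.supp p h
      rw [indicator_of_mem (show p.1 ∈ Icc (0 : ℝ) 1 from ⟨by linarith, h3⟩),
        indicator_of_mem h4, one_mul, ← ofReal_norm, ← ENNReal.ofReal_coe_nnreal]
      exact ENNReal.ofReal_le_ofReal (H.bound p)
  refine lt_of_le_of_lt h1 ?_
  have h2 : Measurable (fun θ => (B θ : ℝ≥0∞)) := H.measB.coe_nnreal_ennreal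
  rw [Measure.volume_eq_prod, lintegral_prod_mul
    (measurable_const.indicator measurableSet_Icc).aemeasurable
    (h2.indicator measurableSet_Ioo).aemeasurable, lintegral_indicator measurableSet_Icc,
    lintegral_indicator measurableSet_Ioo, lintegral_const,
    Measure.restrict_apply MeasurableSet.univ, univ_inter, Real.volume_Icc]
  exact ENNReal.mul_lt_top (by finiteness) hB.lt_top

lemma Adm.an_int {V : ℝ × ℝ → ℂ} {B : ℝ → ℝ≥0} (H : Adm V B)
    (hB : ∫⁻ θ in Ioo (-Real.pi) Real.pi, (B θ : ℝ≥0∞) ≠ ⊤) (n : ℤ) : Integrable (an V n) := by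
  refine ⟨(an_meas V H.meas n).aestronglyMeasurable, ?_⟩
  rw [HasFiniteIntegral]
  have h1 : ∫⁻ θ, ‖an V n θ‖ₑ ≤ ∫⁻ θ, (Ioo (-Real.pi) Real.pi).indicator
      (fun θ => ENNReal.ofReal (kap n) * (B θ : ℝ≥0∞)) θ := by
    refine lintegral_mono fun θ => ?_
    by_cases h : an V n θ = 0
    · simp [h]
    · rw [indicator_of_mem (H.an_supp n θ h), ← ofReal_norm, ← ENNReal.ofReal_coe_nnreal,
        ← ENNReal.ofReal_mul (kap_nonneg n)]
      exact ENNReal.ofReal_le_ofReal (H.an_bound θ n)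
  refine lt_of_le_of_lt h1 ?_
  rw [lintegral_indicator measurableSet_Ioo, lintegral_const_mul' _ _ (by finiteness)]
  exact ENNReal.mul_lt_top (by finiteness) hB.lt_top

/-- the splitting -/
lemma Adm.split {V : ℝ × ℝ → ℂ} {B : ℝ → ℝ≥0} (H : Adm V B)
    (hB : ∫⁻ θ in Ioo (-Real.pi) Real.pi, (B θ : ℝ≥0∞) ≠ ⊤) (N : ℕ) (t : ℝ) (ξ : ℂ) :
    TV t V ξ = (∑ n ∈ Finset.Icc (-(N : ℤ)) N, AA t n (an V n) ξ) + TV t (VH V N) ξ := by
  have hpt : ∀ p, V p = (∑ n ∈ Finset.Icc (-(N : ℤ)) N, pc (an V n) n p) + VH V N p := by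
    intro p
    have h1 : ∑ n ∈ Finset.Icc (-(N : ℤ)) N, pc (an V n) n p =
        (ww p.1 : ℂ) * fs (fun r => V (r, p.2)) N p.1 := by
      unfold fs pc an
      rw [Finset.mul_sum]
      refine Finset.sum_congr rfl fun n _ => ?_
      ring
    have h2 : (ww p.1 : ℂ) * V p = V p := by
      by_cases h : V p = 0
      · rw [h, mul_zero]
      · obtain ⟨h3, h4, _⟩ := H.supp p h
        rw [ww_one _ h3 h4, Complex.ofReal_one, one_mul]
    rw [h1]
    unfold VH
    rw [mul_sub, h2]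
    ring
  have hsumi : Integrable (fun p => ∑ n ∈ Finset.Icc (-(N : ℤ)) N, pc (an V n) n p) :=
    integrable_finsetSum _ fun n _ => pc_int _ _ (an_meas V H.meas n) (H.an_int hB n)
  have hVHi : Integrable (VH V N) := by
    have h1 : VH V N = fun p => V p - ∑ n ∈ Finset.Icc (-(N : ℤ)) N, pc (an V n) n p := by
      funext p
      rw [eq_sub_iff_add_eq, add_comm]
      exact (hpt p).symm
    rw [h1]
    exact (H.V_int hB).sub hsumi
  have h3 : ∀ n : ℤ, AA t n (an V n) ξ = TV t (pc (an V n) n) ξ := by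
    intro n
    exact (TV_AA t n (an V n) (an_meas V H.meas n) (H.an_int hB n) (H.an_supp n) ξ).symm
  simp_rw [h3]
  unfold TV
  rw [← integral_finsetSum, ← integral_add]
  · refine integral_congr_ae (Eventually.of_forall fun p => ?_)
    simp only
    rw [← Finset.sum_mul, ← add_mul, ← hpt p]
  · refine integrable_finsetSum _ fun n _ => ?_
    exact ph_int t ξ _ _ (pc_int _ _ (an_meas V H.meas n) (H.an_int hB n)).restrict
  · exact ph_int t ξ _ _ hVHi.restrict
  · intro n _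
    exact ph_int t ξ _ _ (pc_int _ _ (an_meas V H.meas n) (H.an_int hB n)).restrict

/-- the crude estimate -/
lemma Adm.crude {V : ℝ × ℝ → ℂ} {B : ℝ → ℝ≥0} (H : Adm V B) (q : ℝ) (hq : 2 < q) (t : ℝ) :
    ∫⁻ ξ, ‖TV t V ξ‖ₑ ^ q ≤ ENNReal.ofReal ((2 * Real.pi) ^ 2 * (8 / 3)) *
      (ENNReal.ofReal (2 * Real.pi) ^ (q - 2) *
        ∫⁻ θ in Ioo (-Real.pi) Real.pi, (B θ : ℝ≥0∞) ^ q) := by
  have hpi := Real.pi_pos
  have h1 := TV_q q hq t V H.meas (by
    intro p hp
    obtain ⟨h2, h3, _⟩ := H.supp p hp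
    constructor <;> linarith)
  refine h1.trans ?_
  refine mul_le_mul_right ?_ _
  have hmB : Measurable (fun θ => (B θ : ℝ≥0∞)) := H.measB.coe_nnreal_ennreal
  have hpt : ∀ p, ‖V p‖ₑ ≤ (Icc (0 : ℝ) 1).indicator (fun _ => (1 : ℝ≥0∞)) p.1 *
      (Ioo (-Real.pi) Real.pi).indicator (fun θ => (B θ : ℝ≥0∞)) p.2 := by
    intro p
    by_cases h : V p = 0
    · simp [h]
    · obtain ⟨h2, h3, h4⟩ := H.supp p h
      rw [indicator_of_mem (show p.1 ∈ Icc (0 : ℝ) 1 from ⟨by linarith, h3⟩),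
        indicator_of_mem h4, one_mul, ← ofReal_norm, ← ENNReal.ofReal_coe_nnreal]
      exact ENNReal.ofReal_le_ofReal (H.bound p)
  have hA : ∫⁻ p in tgt, ‖V p‖ₑ ≤ ∫⁻ θ in Ioo (-Real.pi) Real.pi, (B θ : ℝ≥0∞) := by
    refine (setLIntegral_le_lintegral _ _).trans ((lintegral_mono hpt).trans (le_of_eq ?_))
    rw [Measure.volume_eq_prod, lintegral_prod_mul
      (measurable_const.indicator measurableSet_Icc).aemeasurable
      (hmB.indicator measurableSet_Ioo).aemeasurable, lintegral_indicator measurableSet_Icc,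
      lintegral_indicator measurableSet_Ioo, lintegral_const,
      Measure.restrict_apply MeasurableSet.univ, univ_inter, Real.volume_Icc]
    norm_num
  have hA2 : ∫⁻ p in tgt, ‖V p‖ₑ ^ 2 ≤ ∫⁻ θ in Ioo (-Real.pi) Real.pi, (B θ : ℝ≥0∞) ^ 2 := by
    have hpt2 : ∀ p, ‖V p‖ₑ ^ 2 ≤ (Icc (0 : ℝ) 1).indicator (fun _ => (1 : ℝ≥0∞)) p.1 *
        (Ioo (-Real.pi) Real.pi).indicator (fun θ => (B θ : ℝ≥0∞) ^ 2) p.2 := by
      intro p
      refine (pow_le_pow_left' (hpt p) 2).trans (le_of_eq ?_)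
      rw [mul_pow]
      congr 1
      · by_cases h : p.1 ∈ Icc (0 : ℝ) 1
        · rw [indicator_of_mem h, one_pow]
        · rw [indicator_of_notMem h, zero_pow (by norm_num)]
      · by_cases h : p.2 ∈ Ioo (-Real.pi) Real.pi
        · rw [indicator_of_mem h, indicator_of_mem h]
        · rw [indicator_of_notMem h, indicator_of_notMem h, zero_pow (by norm_num)]
    refine (setLIntegral_le_lintegral _ _).trans ((lintegral_mono hpt2).trans (le_of_eq ?_))
    rw [Measure.volume_eq_prod, lintegral_prod_mul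
      (measurable_const.indicator measurableSet_Icc).aemeasurable
      ((hmB.pow_const 2).indicator measurableSet_Ioo).aemeasurable,
      lintegral_indicator measurableSet_Icc,
      lintegral_indicator measurableSet_Ioo, lintegral_const,
      Measure.restrict_apply MeasurableSet.univ, univ_inter, Real.volume_Icc]
    norm_num
  have hB := prodq (volume.restrict (Ioo (-Real.pi) Real.pi)) q hq (fun θ => (B θ : ℝ≥0∞))
    hmB.aemeasurable
  have e1 : (volume.restrict (Ioo (-Real.pi) Real.pi)) univ = ENNReal.ofReal (2 * Real.pi) := by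
    rw [Measure.restrict_apply MeasurableSet.univ, univ_inter, Real.volume_Ioo]
    congr 1
    ring
  rw [e1] at hB
  refine le_trans ?_ hB
  gcongr

/-- **the estimate at a fixed time** -/
theorem fixedT (lam η q : ℝ) (h0 : 1 / 2 < lam) (h1 : lam < 1) (hη : 0 < η) (hq : 2 < q)
    (hq4 : q < 4) : ∃ C : ℝ≥0, ∀ (t : ℝ) (V : ℝ × ℝ → ℂ) (B : ℝ → ℝ≥0), 1 ≤ t → Adm V B →
    ∫⁻ ξ, ‖TV t V ξ‖ₑ ^ q ≤ C * (ENNReal.ofReal (t ^ (-lam * (q - 2) + η * q)) +
      ENNReal.ofReal (t ^ (-(3 * q / 8)))) * ∫⁻ θ in Ioo (-Real.pi) Real.pi, (B θ : ℝ≥0∞) ^ q := by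
  obtain ⟨C1, hC1⟩ := AAq lam q h0 h1 hq hq4
  have hpi := Real.pi_pos
  have hq0 : 0 < q := by linarith
  set K1 : ℝ≥0∞ := ENNReal.ofReal ((1 + 4 / η) * 2 ^ η) ^ q * C1 with hK1
  set K2 : ℝ≥0∞ := ENNReal.ofReal ((2 * Real.pi) ^ 2 * (8 / 3)) *
    (ENNReal.ofReal (4 * Real.pi) ^ (q - 2) * ENNReal.ofReal (8 * Real.pi) *
      ENNReal.ofReal (2 * Real.pi) ^ (q - 2)) * ENNReal.ofReal (8 ^ (q / 2)) with hK2
  have hK1t : K1 ≠ ⊤ := by
    rw [hK1]
    exact ENNReal.mul_ne_top (ENNReal.rpow_ne_top_of_nonneg hq0.le ENNReal.ofReal_ne_top)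
      ENNReal.coe_ne_top
  have hK2t : K2 ≠ ⊤ := by
    rw [hK2]
    refine ENNReal.mul_ne_top (ENNReal.mul_ne_top ENNReal.ofReal_ne_top
      (ENNReal.mul_ne_top (ENNReal.mul_ne_top ?_ ENNReal.ofReal_ne_top) ?_)) ENNReal.ofReal_ne_top
    · exact ENNReal.rpow_ne_top_of_nonneg (by linarith) ENNReal.ofReal_ne_top
    · exact ENNReal.rpow_ne_top_of_nonneg (by linarith) ENNReal.ofReal_ne_top
  have h2t : (2 : ℝ≥0∞) ^ (q - 1) ≠ ⊤ := ENNReal.rpow_ne_top_of_nonneg (by linarith) (by norm_num)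
  refine ⟨(2 ^ (q - 1) * (K1 + K2)).toNNReal + 1, ?_⟩
  intro t V B ht H
  have ht0 : 0 < t := by linarith
  rw [ENNReal.coe_add, ENNReal.coe_toNNReal (by finiteness), ENNReal.coe_one]
  set X : ℝ≥0∞ := ∫⁻ θ in Ioo (-Real.pi) Real.pi, (B θ : ℝ≥0∞) ^ q with hX
  have hmB : Measurable (fun θ => (B θ : ℝ≥0∞)) := H.measB.coe_nnreal_ennreal
  by_cases hXt : X = ⊤
  · rw [hXt, ENNReal.mul_top]
    · exact le_top
    · refine mul_ne_zero (by positivity) ?_
      have : 0 < ENNReal.ofReal (t ^ (-lam * (q - 2) + η * q)) := by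
        rw [ENNReal.ofReal_pos]
        positivity
      positivity
  have hBt : ∫⁻ θ in Ioo (-Real.pi) Real.pi, (B θ : ℝ≥0∞) ≠ ⊤ := by
    intro hcon
    have h2 := jen (volume.restrict (Ioo (-Real.pi) Real.pi)) q (by linarith)
      (fun θ => (B θ : ℝ≥0∞)) hmB.aemeasurable
    rw [hcon, ENNReal.top_rpow_of_pos hq0, Measure.restrict_apply MeasurableSet.univ, univ_inter,
      Real.volume_Ioo] at h2
    have h3 : ENNReal.ofReal (Real.pi - -Real.pi) ^ (q - 1) * X ≠ ⊤ :=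
      ENNReal.mul_ne_top (ENNReal.rpow_ne_top_of_nonneg (by linarith) ENNReal.ofReal_ne_top) hXt
    exact h3 (top_le_iff.1 h2)
  -- the cut-off frequency
  set s : ℝ := t ^ (3 / 4 : ℝ) / 8 with hs
  have hs0 : 0 < s := by positivity
  have hs1 : s ≤ t / 8 := by
    rw [hs]
    have : t ^ (3 / 4 : ℝ) ≤ t ^ (1 : ℝ) := Real.rpow_le_rpow_of_exponent_le ht (by norm_num)
    rw [Real.rpow_one] at this
    linarith
  set N : ℕ := ⌊s⌋₊ with hN
  have hN1 : (N : ℝ) ≤ s := Nat.floor_le hs0.le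
  have hN2 : s < N + 1 := Nat.lt_floor_add_one _
  -- low part
  have hlow : ∫⁻ ξ, ‖∑ n ∈ Finset.Icc (-(N : ℤ)) N, AA t n (an V n) ξ‖ₑ ^ q ≤
      K1 * ENNReal.ofReal (t ^ (-lam * (q - 2) + η * q)) * X := by
    have h2 := lq_sum (Finset.Icc (-(N : ℤ)) N) (fun n => AA t n (an V n))
      (fun n => ENNReal.ofReal (kap n)) (C1 * ENNReal.ofReal (t ^ (-lam * (q - 2))) * X) q
      (by linarith) (fun n _ => AA_meas t n _ (an_meas V H.meas n)) (by
        intro n hn
        rw [Finset.mem_Icc] at hn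
        have hn1 : |(n : ℝ)| ≤ s := by
          refine le_trans ?_ hN1
          rw [abs_le]
          constructor
          · have := hn.1
            exact_mod_cast this
          · have := hn.2
            exact_mod_cast this
        have hn4 : (n : ℝ) ^ 4 ≤ t ^ 3 := by
          have e1 : (n : ℝ) ^ 4 = |(n : ℝ)| ^ 4 := by
            rw [← abs_pow]; exact (abs_of_nonneg (by positivity)).symm
          rw [e1]
          have e2 : |(n : ℝ)| ≤ t ^ (3 / 4 : ℝ) := by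
            have : 0 ≤ t ^ (3 / 4 : ℝ) := by positivity
            have : s ≤ t ^ (3 / 4 : ℝ) := by rw [hs]; linarith
            linarith
          refine (pow_le_pow_left₀ (abs_nonneg _) e2 4).trans (le_of_eq ?_)
          rw [← Real.rpow_natCast, ← Real.rpow_mul ht0.le, ← Real.rpow_natCast]
          norm_num
        refine (hC1 t n (an V n) ht hn4 (hn1.trans hs1) (an_meas V H.meas n) (H.an_int hBt n)
          (H.an_supp n)).trans ?_
        have h3 : ∫⁻ θ, ‖an V n θ‖ₑ ^ q ≤ ENNReal.ofReal (kap n) ^ q * X := by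
          rw [hX, ← lintegral_const_mul' _ _
            (ENNReal.rpow_ne_top_of_nonneg hq0.le ENNReal.ofReal_ne_top),
            ← lintegral_indicator measurableSet_Ioo]
          refine lintegral_mono fun θ => ?_
          by_cases h : an V n θ = 0
          · simp only [h, enorm_zero]
            rw [ENNReal.zero_rpow_of_pos hq0]
            exact bot_le
          · rw [indicator_of_mem (H.an_supp n θ h), ← ENNReal.mul_rpow_of_nonneg _ _ hq0.le]
            refine ENNReal.rpow_le_rpow ?_ hq0.le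
            rw [← ofReal_norm, ← ENNReal.ofReal_coe_nnreal, ← ENNReal.ofReal_mul (kap_nonneg n)]
            exact ENNReal.ofReal_le_ofReal (H.an_bound θ n)
        calc (C1 : ℝ≥0∞) * ENNReal.ofReal (t ^ (-lam * (q - 2))) * ∫⁻ θ, ‖an V n θ‖ₑ ^ q
            ≤ C1 * ENNReal.ofReal (t ^ (-lam * (q - 2))) * (ENNReal.ofReal (kap n) ^ q * X) := by
              gcongr
          _ = _ := by ring)
    refine h2.trans ?_
    have h4 : ∑ n ∈ Finset.Icc (-(N : ℤ)) N, ENNReal.ofReal (kap n) ≤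
        ENNReal.ofReal ((1 + 4 / η) * 2 ^ η) * ENNReal.ofReal (t ^ η) := by
      rw [← ENNReal.ofReal_sum_of_nonneg fun n _ => kap_nonneg n,
        ← ENNReal.ofReal_mul (by positivity)]
      apply ENNReal.ofReal_le_ofReal
      refine (kap_sum' η hη N).trans ?_
      have h5 : ((N : ℝ) + 1) ^ η ≤ (2 * t) ^ η := by
        apply Real.rpow_le_rpow (by positivity) _ hη.le
        linarith
      rw [Real.mul_rpow (by norm_num) ht0.le] at h5
      rw [mul_assoc]
      gcongr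
    calc _ ≤ (ENNReal.ofReal ((1 + 4 / η) * 2 ^ η) * ENNReal.ofReal (t ^ η)) ^ q *
          (C1 * ENNReal.ofReal (t ^ (-lam * (q - 2))) * X) := by
          gcongr
      _ = K1 * (ENNReal.ofReal (t ^ η) ^ q * ENNReal.ofReal (t ^ (-lam * (q - 2)))) * X := by
          rw [ENNReal.mul_rpow_of_nonneg _ _ hq0.le, hK1]
          ring
      _ = _ := by
          congr 2
          rw [ENNReal.ofReal_rpow_of_pos (by positivity), ← ENNReal.ofReal_mul (by positivity),
            ← Real.rpow_mul ht0.le, ← Real.rpow_add ht0]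
          congr 2
          ring
  -- high part
  have hhigh : ∫⁻ ξ, ‖TV t (VH V N) ξ‖ₑ ^ q ≤
      K2 * ENNReal.ofReal (t ^ (-(3 * q / 8))) * X := by
    obtain ⟨hh2, hh1⟩ := H.high N
    have h2 := TV_q q hq t (VH V N) (VH_meas V H.meas N) (by
      intro p hp
      have hw : ww p.1 ≠ 0 := by
        intro h
        apply hp
        unfold VH
        rw [h]
        simp
      by_contra hcon
      apply hw
      apply ww_zero
      by_contra hcon2
      push Not at hcon2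
      apply hcon
      constructor <;> linarith [hcon2.1, hcon2.2])
    refine h2.trans ?_
    set δ : ℝ := (Real.sqrt (N + 1))⁻¹ with hδ
    have hδ0 : 0 < δ := by positivity
    have e1 : ENNReal.ofReal (8 * Real.pi / (N + 1)) =
        ENNReal.ofReal (8 * Real.pi) * ENNReal.ofReal (δ ^ (2 : ℝ)) := by
      rw [← ENNReal.ofReal_mul (by positivity)]
      congr 1
      rw [show (2 : ℝ) = ((2 : ℕ) : ℝ) by norm_num, Real.rpow_natCast, hδ, inv_pow,
        Real.sq_sqrt (by positivity)]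
      ring_nf
    have e2 : ENNReal.ofReal (4 * Real.pi / Real.sqrt (N + 1)) =
        ENNReal.ofReal (4 * Real.pi) * ENNReal.ofReal δ := by
      rw [← ENNReal.ofReal_mul (by positivity)]
      congr 1
    rw [e1] at hh2
    rw [e2] at hh1
    have hP := prodq (volume.restrict (Ioo (-Real.pi) Real.pi)) q hq (fun θ => (B θ : ℝ≥0∞))
      hmB.aemeasurable
    have e3 : (volume.restrict (Ioo (-Real.pi) Real.pi)) univ = ENNReal.ofReal (2 * Real.pi) := by
      rw [Measure.restrict_apply MeasurableSet.univ, univ_inter, Real.volume_Ioo]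
      congr 1
      ring
    rw [e3] at hP
    set I1 : ℝ≥0∞ := ∫⁻ θ in Ioo (-Real.pi) Real.pi, (B θ : ℝ≥0∞) with hI1
    set I2 : ℝ≥0∞ := ∫⁻ θ in Ioo (-Real.pi) Real.pi, (B θ : ℝ≥0∞) ^ 2 with hI2
    have e4 : ENNReal.ofReal δ ^ (q - 2) * ENNReal.ofReal (δ ^ (2 : ℝ)) ≤
        ENNReal.ofReal (8 ^ (q / 2)) * ENNReal.ofReal (t ^ (-(3 * q / 8))) := by
      rw [ENNReal.ofReal_rpow_of_pos hδ0, ← ENNReal.ofReal_mul (by positivity),
        ← ENNReal.ofReal_mul (by positivity), ← Real.rpow_add hδ0]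
      apply ENNReal.ofReal_le_ofReal
      have e5 : q - 2 + 2 = q := by ring
      rw [e5, hδ, Real.inv_rpow (by positivity), Real.sqrt_eq_rpow, ← Real.rpow_mul (by positivity),
        ← Real.rpow_neg (by positivity)]
      have e6 : ((N : ℝ) + 1) ^ (-(1 / 2 * q)) ≤ s ^ (-(1 / 2 * q)) :=
        Real.rpow_le_rpow_of_nonpos hs0 hN2.le (by linarith)
      refine e6.trans (le_of_eq ?_)
      rw [hs, Real.div_rpow (by positivity) (by norm_num), ← Real.rpow_mul ht0.le,
        Real.rpow_neg (by norm_num : (0 : ℝ) ≤ 8), div_inv_eq_mul, mul_comm]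
      congr 2 <;> ring
    calc _ ≤ ENNReal.ofReal ((2 * Real.pi) ^ 2 * (8 / 3)) *
          ((ENNReal.ofReal (4 * Real.pi) * ENNReal.ofReal δ * I1) ^ (q - 2) *
            (ENNReal.ofReal (8 * Real.pi) * ENNReal.ofReal (δ ^ (2 : ℝ)) * I2)) := by
          gcongr
      _ = ENNReal.ofReal ((2 * Real.pi) ^ 2 * (8 / 3)) *
          (ENNReal.ofReal (4 * Real.pi) ^ (q - 2) * ENNReal.ofReal (8 * Real.pi)) *
          (ENNReal.ofReal δ ^ (q - 2) * ENNReal.ofReal (δ ^ (2 : ℝ))) * (I1 ^ (q - 2) * I2) := by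
          rw [ENNReal.mul_rpow_of_nonneg _ _ (by linarith),
            ENNReal.mul_rpow_of_nonneg _ _ (by linarith)]
          ring
      _ ≤ ENNReal.ofReal ((2 * Real.pi) ^ 2 * (8 / 3)) *
          (ENNReal.ofReal (4 * Real.pi) ^ (q - 2) * ENNReal.ofReal (8 * Real.pi)) *
          (ENNReal.ofReal (8 ^ (q / 2)) * ENNReal.ofReal (t ^ (-(3 * q / 8)))) *
            (ENNReal.ofReal (2 * Real.pi) ^ (q - 2) * X) := by
          gcongr
      _ = _ := by
          rw [hK2]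
          ring
  -- put together
  have hlm : Measurable (fun ξ => ∑ n ∈ Finset.Icc (-(N : ℤ)) N, AA t n (an V n) ξ) :=
    Finset.measurable_sum _ fun n _ => AA_meas t n _ (an_meas V H.meas n)
  calc ∫⁻ ξ, ‖TV t V ξ‖ₑ ^ q
      ≤ ∫⁻ ξ, 2 ^ (q - 1) * (‖∑ n ∈ Finset.Icc (-(N : ℤ)) N, AA t n (an V n) ξ‖ₑ ^ q +
        ‖TV t (VH V N) ξ‖ₑ ^ q) := by
        refine lintegral_mono fun ξ => ?_
        rw [H.split hBt N t ξ]
        refine (ENNReal.rpow_le_rpow (enorm_add_le _ _) hq0.le).trans ?_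
        exact ENNReal.rpow_add_le_mul_rpow_add_rpow _ _ (by linarith)
    _ = 2 ^ (q - 1) * ((∫⁻ ξ, ‖∑ n ∈ Finset.Icc (-(N : ℤ)) N, AA t n (an V n) ξ‖ₑ ^ q) +
        ∫⁻ ξ, ‖TV t (VH V N) ξ‖ₑ ^ q) := by
        rw [lintegral_const_mul' _ _ h2t, lintegral_add_left (hlm.enorm.pow_const q)]
    _ ≤ 2 ^ (q - 1) * (K1 * ENNReal.ofReal (t ^ (-lam * (q - 2) + η * q)) * X +
        K2 * ENNReal.ofReal (t ^ (-(3 * q / 8))) * X) := by gcongr
    _ ≤ 2 ^ (q - 1) * ((K1 + K2) * ENNReal.ofReal (t ^ (-lam * (q - 2) + η * q)) * X +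
        (K1 + K2) * ENNReal.ofReal (t ^ (-(3 * q / 8))) * X) := by
        gcongr
        · exact le_self_add
        · exact le_add_self
    _ = 2 ^ (q - 1) * (K1 + K2) * (ENNReal.ofReal (t ^ (-lam * (q - 2) + η * q)) +
        ENNReal.ofReal (t ^ (-(3 * q / 8)))) * X := by ring
    _ ≤ _ := by
        gcongr
        exact le_self_add

end Pool.Agent.J6H28.PL
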