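import Mathlib
import Pool.Agent.J6H28.PL.Fix2
set_option autoImplicit false

/-! Integration in time. -/

namespace Pool.Agent.J6H28.PL

open MeasureTheory Set Complex Filter
open scoped ENNReal NNReal ComplexConjugate

lemma Adm.conj' {V : ℝ × ℝ → ℂ} {B : ℝ → ℝ≥0} (H : Adm V B) : Adm (fun p => conj (V p)) B where
  meas := Complex.continuous_conj.measurable.comp H.meas
  measB := H.measB
  supp := by
    intro p hp
    apply H.supp p
    intro h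
    apply hp
    rw [h, map_zero]
  bound := by
    intro p
    rw [RCLike.norm_conj]
    exact H.bound p
  var := by
    intro θ h hh
    refine le_trans (le_of_eq ?_) (H.var θ h hh)
    refine lintegral_congr fun r => ?_
    rw [← map_sub, ← ofReal_norm, RCLike.norm_conj, ofReal_norm]

lemma TV_neg (t : ℝ) (V : ℝ × ℝ → ℂ) (ξ : ℂ) :
    TV (-t) V ξ = conj (TV t (fun p => conj (V p)) (-ξ)) := by
  unfold TV
  rw [← integral_conj]
  refine integral_congr_ae (Eventually.of_forall fun p => ?_)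
  simp only
  rw [map_mul, Complex.conj_conj]
  congr 1
  unfold ph
  rw [← Complex.exp_conj, map_mul, map_neg, Complex.conj_ofReal, Complex.conj_I]
  congr 1
  rw [neg_mul (ξ), Complex.neg_re]
  push_cast
  ring

lemma TV_neg_int (q t : ℝ) (V : ℝ × ℝ → ℂ) :
    ∫⁻ ξ, ‖TV (-t) V ξ‖ₑ ^ q = ∫⁻ ξ, ‖TV t (fun p => conj (V p)) ξ‖ₑ ^ q := by
  rw [← lintegral_neg_eq_self (fun ξ => ‖TV t (fun p => conj (V p)) ξ‖ₑ ^ q)]
  refine lintegral_congr fun ξ => ?_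
  rw [TV_neg, ← ofReal_norm, RCLike.norm_conj, ofReal_norm]

/-- **integration in time** -/
theorem timeInt (q : ℝ) (hq : 3 < q) (hq4 : q < 4) : ∃ C : ℝ≥0, ∀ (V : ℝ × ℝ → ℂ) (B : ℝ → ℝ≥0),
    Adm V B → ∫⁻ t : ℝ, ∫⁻ ξ, ‖TV t V ξ‖ₑ ^ q ≤
      C * ∫⁻ θ in Ioo (-Real.pi) Real.pi, (B θ : ℝ≥0∞) ^ q := by
  set lam : ℝ := 1 - (q - 3) / (4 * (q - 2)) with hlam
  set η : ℝ := (q - 3) / (4 * q) with hη
  have hη0 : 0 < η := div_pos (by linarith) (by linarith)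
  have hl1 : lam < 1 := by
    have : 0 < (q - 3) / (4 * (q - 2)) := div_pos (by linarith) (by linarith)
    rw [hlam]
    linarith
  have hl0 : 1 / 2 < lam := by
    have : (q - 3) / (4 * (q - 2)) < 1 / 2 := by
      rw [div_lt_div_iff₀ (by linarith) (by norm_num)]
      linarith
    rw [hlam]
    linarith
  have hexp : -lam * (q - 2) + η * q < -1 := by
    have h1 : q - 2 ≠ 0 := by linarith
    have h2 : q ≠ 0 := by linarith
    have e : -lam * (q - 2) + η * q = -(q - 2) + (q - 3) / 2 := by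
      rw [hlam, hη]
      field_simp
      ring
    rw [e]
    linarith
  obtain ⟨C1, hC1⟩ := fixedT lam η q hl0 hl1 hη0 (by linarith) hq4
  set C2 : ℝ≥0∞ := ENNReal.ofReal ((2 * Real.pi) ^ 2 * (8 / 3)) *
    ENNReal.ofReal (2 * Real.pi) ^ (q - 2) with hC2
  have hC2t : C2 ≠ ⊤ := ENNReal.mul_ne_top ENNReal.ofReal_ne_top
    (ENNReal.rpow_ne_top_of_nonneg (by linarith) ENNReal.ofReal_ne_top)
  set S : ℝ≥0∞ := ∫⁻ t in Ioi (1 : ℝ), (ENNReal.ofReal (t ^ (-lam * (q - 2) + η * q)) +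
      ENNReal.ofReal (t ^ (-(3 * q / 8)))) with hS
  have hSt : S ≠ ⊤ := by
    rw [hS, lintegral_add_left (by fun_prop)]
    refine ENNReal.add_ne_top.2 ⟨?_, ?_⟩
    · exact (integrableOn_Ioi_rpow_of_lt hexp one_pos).lintegral_lt_top.ne
    · exact (integrableOn_Ioi_rpow_of_lt (by linarith) one_pos).lintegral_lt_top.ne
  refine ⟨(C1 * S + C2 * 2 + C1 * S).toNNReal, ?_⟩
  intro V B H
  rw [ENNReal.coe_toNNReal (by finiteness)]
  set X : ℝ≥0∞ := ∫⁻ θ in Ioo (-Real.pi) Real.pi, (B θ : ℝ≥0∞) ^ q with hX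
  have hpos : ∀ (V' : ℝ × ℝ → ℂ), Adm V' B →
      ∫⁻ t in Ioi (1 : ℝ), ∫⁻ ξ, ‖TV t V' ξ‖ₑ ^ q ≤ C1 * S * X := by
    intro V' H'
    calc ∫⁻ t in Ioi (1 : ℝ), ∫⁻ ξ, ‖TV t V' ξ‖ₑ ^ q
        ≤ ∫⁻ t in Ioi (1 : ℝ), C1 * (ENNReal.ofReal (t ^ (-lam * (q - 2) + η * q)) +
            ENNReal.ofReal (t ^ (-(3 * q / 8)))) * X :=
          setLIntegral_mono (by fun_prop) fun t ht => hC1 t V' B (le_of_lt ht) H'
      _ = C1 * S * X := by
          rw [lintegral_mul_const _ (by fun_prop), lintegral_const_mul _ (by fun_prop)]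
  have hmid : ∫⁻ t in Icc (-1 : ℝ) 1, ∫⁻ ξ, ‖TV t V ξ‖ₑ ^ q ≤ C2 * 2 * X := by
    calc ∫⁻ t in Icc (-1 : ℝ) 1, ∫⁻ ξ, ‖TV t V ξ‖ₑ ^ q
        ≤ ∫⁻ t in Icc (-1 : ℝ) 1, C2 * X := by
          refine lintegral_mono fun t => ?_
          refine (H.crude q (by linarith) t).trans (le_of_eq ?_)
          rw [hC2, hX]
          ring
      _ = C2 * 2 * X := by
          rw [lintegral_const, Measure.restrict_apply MeasurableSet.univ, univ_inter,
            Real.volume_Icc]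
          have : ENNReal.ofReal (1 - -1) = 2 := by norm_num
          rw [this]
          ring
  have hneg : ∫⁻ t in Iio (-1 : ℝ), ∫⁻ ξ, ‖TV t V ξ‖ₑ ^ q ≤ C1 * S * X := by
    have h1 : ∫⁻ t in Iio (-1 : ℝ), ∫⁻ ξ, ‖TV t V ξ‖ₑ ^ q =
        ∫⁻ t in Ioi (1 : ℝ), ∫⁻ ξ, ‖TV t (fun p => conj (V p)) ξ‖ₑ ^ q := by
      rw [← lintegral_indicator measurableSet_Iio, ← lintegral_indicator measurableSet_Ioi,
        ← lintegral_neg_eq_self ((Iio (-1 : ℝ)).indicator fun t => ∫⁻ ξ, ‖TV t V ξ‖ₑ ^ q)]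
      refine lintegral_congr fun t => ?_
      by_cases ht : t ∈ Ioi (1 : ℝ)
      · have ht' : -t ∈ Iio (-1 : ℝ) := by
          rw [mem_Iio]
          have : 1 < t := ht
          linarith
        rw [indicator_of_mem ht, indicator_of_mem ht', TV_neg_int]
      · have ht' : -t ∉ Iio (-1 : ℝ) := by
          rw [mem_Iio]
          intro h
          apply ht
          rw [mem_Ioi]
          linarith
        rw [indicator_of_notMem ht, indicator_of_notMem ht']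
    rw [h1]
    exact hpos _ H.conj'
  have huniv : (univ : Set ℝ) ⊆ (Ioi (1 : ℝ) ∪ Icc (-1 : ℝ) 1) ∪ Iio (-1 : ℝ) := by
    intro t _
    by_cases h1 : 1 < t
    · exact Or.inl (Or.inl h1)
    · by_cases h2 : t < -1
      · exact Or.inr h2
      · exact Or.inl (Or.inr ⟨not_lt.1 h2, not_lt.1 h1⟩)
  calc ∫⁻ t : ℝ, ∫⁻ ξ, ‖TV t V ξ‖ₑ ^ q
      = ∫⁻ t in univ, ∫⁻ ξ, ‖TV t V ξ‖ₑ ^ q := by rw [setLIntegral_univ]
    _ ≤ ∫⁻ t in (Ioi (1 : ℝ) ∪ Icc (-1 : ℝ) 1) ∪ Iio (-1 : ℝ), ∫⁻ ξ, ‖TV t V ξ‖ₑ ^ q :=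
        lintegral_mono_set huniv
    _ ≤ ((∫⁻ t in Ioi (1 : ℝ), ∫⁻ ξ, ‖TV t V ξ‖ₑ ^ q) +
        ∫⁻ t in Icc (-1 : ℝ) 1, ∫⁻ ξ, ‖TV t V ξ‖ₑ ^ q) +
        ∫⁻ t in Iio (-1 : ℝ), ∫⁻ ξ, ‖TV t V ξ‖ₑ ^ q :=
        (lintegral_union_le _ _ _).trans (add_le_add_left (lintegral_union_le _ _ _) _)
    _ ≤ (C1 * S * X + C2 * 2 * X) + C1 * S * X := by
        gcongr
        exact hpos V H
    _ = _ := by ring

end Pool.Agent.J6H28.PL
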