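import Mathlib
set_option autoImplicit false

/-! The `L¹` modulus of continuity of a cut-off of a function of bounded variation. -/

namespace Pool.Agent.J6H28.PL

open MeasureTheory Set
open scoped ENNReal NNReal

lemma tile_fin (Ψ : ℝ → ℝ≥0∞) (h : ℝ) (hh : 0 < h) (a : ℝ) (n : ℕ) :
    ∫⁻ r in Ico a (a + n * h), Ψ r ≤
      ∑ k ∈ Finset.range n, ∫⁻ x in Ico 0 h, Ψ (x + (a + k * h)) := by
  induction n with
  | zero => simp
  | succ n ih =>
    have hn : (0 : ℝ) ≤ n * h := by positivity
    have h1 : Ico a (a + ((n + 1 : ℕ) : ℝ) * h) =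
        Ico a (a + n * h) ∪ Ico (a + n * h) (a + n * h + h) := by
      rw [Ico_union_Ico_eq_Ico (by linarith) (by linarith)]
      congr 1
      push_cast
      ring
    rw [h1, Finset.sum_range_succ]
    refine (lintegral_union_le _ _ _).trans (add_le_add ih (le_of_eq ?_))
    rw [← lintegral_indicator measurableSet_Ico, ← lintegral_indicator measurableSet_Ico,
      ← lintegral_add_right_eq_self _ (a + n * h)]
    refine lintegral_congr fun x => ?_
    by_cases hx : x ∈ Ico 0 h
    · rw [indicator_of_mem hx, indicator_of_mem]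
      exact ⟨by linarith [hx.1], by linarith [hx.2]⟩
    · rw [indicator_of_notMem hx, indicator_of_notMem]
      intro hcon
      exact hx ⟨by linarith [hcon.1], by linarith [hcon.2]⟩

lemma tile (Ψ : ℝ → ℝ≥0∞) (hΨ : Measurable Ψ) (h : ℝ) (hh : 0 < h) (lo hi : ℝ)
    (hs : ∀ r, Ψ r ≠ 0 → lo ≤ r ∧ r ≤ hi) (A : ℝ≥0∞)
    (hA : ∀ (x : ℝ) (n : ℕ), ∑ k ∈ Finset.range n, Ψ (x + k * h) ≤ A) :
    ∫⁻ r, Ψ r ≤ ENNReal.ofReal h * A := by
  obtain ⟨n, hn⟩ := exists_nat_gt ((hi - lo) / h)
  have hn' : hi < lo + n * h := by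
    rw [div_lt_iff₀ hh] at hn
    linarith
  calc ∫⁻ r, Ψ r ≤ ∫⁻ r in Ico lo (lo + n * h), Ψ r := by
        rw [← lintegral_indicator measurableSet_Ico]
        refine lintegral_mono fun r => ?_
        by_cases h0 : Ψ r = 0
        · rw [h0]; exact bot_le
        · obtain ⟨h1, h2⟩ := hs r h0
          rw [indicator_of_mem (show r ∈ Ico lo (lo + n * h) from ⟨h1, by linarith⟩)]
    _ ≤ ∑ k ∈ Finset.range n, ∫⁻ x in Ico 0 h, Ψ (x + (lo + k * h)) := tile_fin Ψ h hh lo n
    _ = ∫⁻ x in Ico 0 h, ∑ k ∈ Finset.range n, Ψ (x + (lo + k * h)) := by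
        rw [lintegral_finsetSum]
        intro k _
        fun_prop
    _ ≤ ∫⁻ x in Ico 0 h, A := by
        refine lintegral_mono fun x => ?_
        refine le_trans (le_of_eq ?_) (hA (x + lo) n)
        refine Finset.sum_congr rfl fun k _ => ?_
        congr 1
        ring
    _ = ENNReal.ofReal h * A := by
        rw [lintegral_const, Measure.restrict_apply MeasurableSet.univ, univ_inter,
          Real.volume_Ico, sub_zero, mul_comm]

/-- the sharp cut-off times `r` -/
noncomputable def cutr (g : ℝ → ℂ) (r : ℝ) : ℂ := if 1 / 2 < r ∧ r ≤ 1 then (r : ℂ) * g r else 0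

lemma mono_tel (a : ℝ → ℝ) (hm : Monotone a) (h0 : ∀ r, 0 ≤ a r) (h1 : ∀ r, a r ≤ 1)
    (h x : ℝ) (hh : 0 < h) (n : ℕ) :
    ∑ k ∈ Finset.range n, ENNReal.ofReal (a (x + k * h + h) - a (x + k * h)) ≤ 1 := by
  rw [← ENNReal.ofReal_sum_of_nonneg, ← ENNReal.ofReal_one]
  · apply ENNReal.ofReal_le_ofReal
    have e : ∀ k : ℕ, a (x + k * h + h) - a (x + k * h) =
        a (x + ((k + 1 : ℕ) : ℝ) * h) - a (x + (k : ℝ) * h) := by
      intro k
      congr 2
      push_cast
      ring
    simp_rw [e]
    rw [Finset.sum_range_sub (fun k : ℕ => a (x + (k : ℝ) * h))]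
    have := h1 (x + (n : ℝ) * h)
    have := h0 (x + ((0 : ℕ) : ℝ) * h)
    linarith
  · intro k _
    rw [sub_nonneg]
    exact hm (by linarith)

lemma cutr_mod (g : ℝ → ℂ) (hg : Measurable g) (D : ℝ≥0∞)
    (hD : ∀ r ∈ Icc (1 / 2 : ℝ) 1, ‖g r‖ₑ ≤ D) (hV : eVariationOn g (Icc (1 / 2) 1) ≤ D)
    (h : ℝ) (hh : 0 < h) :
    ∫⁻ r, ‖cutr g (r + h) - cutr g r‖ₑ ≤ ENNReal.ofReal h * (3 * D) := by
  set cl : ℝ → ℝ := fun r => max (1 / 2) (min r 1) with hcl
  set gt : ℝ → ℂ := fun r => g (cl r) with hgt
  set a1 : ℝ → ℝ := fun r => if r ≤ 1 / 2 then 0 else min r 1 with ha1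
  set a2 : ℝ → ℝ := fun r => if r ≤ 1 then 0 else 1 with ha2
  have hclm : ∀ r, cl r ∈ Icc (1 / 2 : ℝ) 1 := by
    intro r
    exact ⟨le_max_left _ _, max_le (by norm_num) (min_le_right _ _)⟩
  have hclmono : Monotone cl := by
    intro r s hrs
    exact max_le_max le_rfl (min_le_min hrs le_rfl)
  have hm1 : Monotone a1 := by
    intro r s hrs
    simp only [ha1]
    split_ifs with h1 h2 h2
    · exact le_rfl
    · push Not at h2
      exact le_min (by linarith) (by norm_num)
    · exact absurd (hrs.trans h2) h1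
    · exact min_le_min hrs le_rfl
  have hm2 : Monotone a2 := by
    intro r s hrs
    simp only [ha2]
    split_ifs with h1 h2 h2
    · exact le_rfl
    · norm_num
    · exact absurd (hrs.trans h2) h1
    · exact le_rfl
  have h10 : ∀ r, 0 ≤ a1 r := by
    intro r
    simp only [ha1]
    split_ifs with h1
    · exact le_rfl
    · push Not at h1
      exact le_min (by linarith) (by norm_num)
  have h11 : ∀ r, a1 r ≤ 1 := by
    intro r
    simp only [ha1]
    split_ifs with h1
    · norm_num
    · exact min_le_right _ _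
  have h20 : ∀ r, 0 ≤ a2 r := by
    intro r
    simp only [ha2]
    split_ifs <;> norm_num
  have h21 : ∀ r, a2 r ≤ 1 := by
    intro r
    simp only [ha2]
    split_ifs <;> norm_num
  have h12 : ∀ r, 0 ≤ a1 r - a2 r ∧ a1 r - a2 r ≤ 1 := by
    intro r
    constructor
    · simp only [ha1, ha2]
      split_ifs with h1 h2 h2
      · norm_num
      · linarith
      · push Not at h1
        rw [sub_zero]
        exact le_min (by linarith) (by norm_num)
      · push Not at h2
        rw [min_eq_right h2.le]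
        norm_num
    · have := h11 r
      have := h20 r
      linarith
  have hcut : ∀ r, cutr g r = ((a1 r - a2 r : ℝ) : ℂ) * gt r := by
    intro r
    unfold cutr
    simp only [ha1, ha2, hgt, hcl]
    by_cases h1 : r ≤ 1 / 2
    · rw [if_neg (by intro hc; linarith [hc.1]), if_pos h1, if_pos (by linarith)]
      simp
    · by_cases h2 : r ≤ 1
      · push Not at h1
        rw [if_pos ⟨h1, h2⟩, if_neg (not_le.2 h1), if_pos h2, min_eq_left h2, max_eq_right h1.le,
          sub_zero]
      · rw [if_neg (by intro hc; exact h2 hc.2), if_neg h1, if_neg h2]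
        push Not at h2
        rw [min_eq_right h2.le]
        simp
  have hgtD : ∀ r, ‖gt r‖ₑ ≤ D := fun r => hD _ (hclm r)
  have hgtV : eVariationOn gt univ ≤ D :=
    (eVariationOn.comp_le_of_monotoneOn g cl (hclmono.monotoneOn _) (fun r _ => hclm r)).trans hV
  have hm : Measurable (cutr g) := by
    unfold cutr
    refine Measurable.ite ?_ ?_ measurable_const
    · exact (measurableSet_Ioi (a := (1 / 2 : ℝ))).inter (measurableSet_Iic (a := (1 : ℝ)))
    · exact (Complex.measurable_ofReal).mul hg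
  have hΨm : Measurable (fun r => ‖cutr g (r + h) - cutr g r‖ₑ) := by
    have : Measurable (fun r => cutr g (r + h)) := hm.comp (measurable_id.add_const h)
    exact (this.sub hm).enorm
  have hpt : ∀ r, ‖cutr g (r + h) - cutr g r‖ₑ ≤
      D * ENNReal.ofReal (a1 (r + h) - a1 r) + D * ENNReal.ofReal (a2 (r + h) - a2 r) +
        edist (gt (r + h)) (gt r) := by
    intro r
    rw [hcut, hcut]
    have e1 : ((a1 (r + h) - a2 (r + h) : ℝ) : ℂ) * gt (r + h) - ((a1 r - a2 r : ℝ) : ℂ) * gt r =
        ((a1 (r + h) - a1 r : ℝ) : ℂ) * gt (r + h) - ((a2 (r + h) - a2 r : ℝ) : ℂ) * gt (r + h) +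
        ((a1 r - a2 r : ℝ) : ℂ) * (gt (r + h) - gt r) := by
      push_cast
      ring
    have hr : ∀ x : ℝ, 0 ≤ x → ‖(x : ℂ)‖ₑ = ENNReal.ofReal x := by
      intro x hx
      rw [← ofReal_norm, Complex.norm_real, Real.norm_eq_abs, abs_of_nonneg hx]
    rw [e1]
    refine (enorm_add_le _ _).trans (add_le_add ((enorm_sub_le).trans (add_le_add ?_ ?_)) ?_)
    · rw [enorm_mul, hr _ (sub_nonneg.2 (hm1 (by linarith))), mul_comm]
      gcongr
      exact hgtD _
    · rw [enorm_mul, hr _ (sub_nonneg.2 (hm2 (by linarith))), mul_comm]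
      gcongr
      exact hgtD _
    · rw [enorm_mul, hr _ (h12 r).1, edist_eq_enorm_sub]
      refine mul_le_of_le_one_left bot_le ?_
      rw [← ENNReal.ofReal_one]
      exact ENNReal.ofReal_le_ofReal (h12 r).2
  refine tile _ hΨm h hh (1 / 2 - h) 1 ?_ (3 * D) ?_
  · intro r hr
    by_contra hcon
    apply hr
    have h1 : cutr g (r + h) = 0 := by
      unfold cutr
      rw [if_neg]
      rintro ⟨h2, h3⟩
      apply hcon
      constructor <;> linarith
    have h2 : cutr g r = 0 := by
      unfold cutr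
      rw [if_neg]
      rintro ⟨h2, h3⟩
      apply hcon
      constructor <;> linarith
    rw [h1, h2]
    simp
  · intro x n
    calc ∑ k ∈ Finset.range n, ‖cutr g (x + k * h + h) - cutr g (x + k * h)‖ₑ
        ≤ ∑ k ∈ Finset.range n, (D * ENNReal.ofReal (a1 (x + k * h + h) - a1 (x + k * h)) +
          D * ENNReal.ofReal (a2 (x + k * h + h) - a2 (x + k * h)) +
          edist (gt (x + k * h + h)) (gt (x + k * h))) := Finset.sum_le_sum fun k _ => hpt _
      _ = D * (∑ k ∈ Finset.range n, ENNReal.ofReal (a1 (x + k * h + h) - a1 (x + k * h))) +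
          D * (∑ k ∈ Finset.range n, ENNReal.ofReal (a2 (x + k * h + h) - a2 (x + k * h))) +
          ∑ k ∈ Finset.range n, edist (gt (x + k * h + h)) (gt (x + k * h)) := by
          rw [Finset.sum_add_distrib, Finset.sum_add_distrib, Finset.mul_sum, Finset.mul_sum]
      _ ≤ D * 1 + D * 1 + D := by
          gcongr
          · exact mono_tel a1 hm1 h10 h11 h x hh n
          · exact mono_tel a2 hm2 h20 h21 h x hh n
          · refine le_trans (le_of_eq ?_) ((eVariationOn.sum_le (f := gt) (s := univ) (n := n)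
              (u := fun k : ℕ => x + k * h) ?_ (fun _ => mem_univ _)).trans hgtV)
            · refine Finset.sum_congr rfl fun k _ => ?_
              congr 2
              push_cast
              ring
            · intro i j hij
              have : (i : ℝ) ≤ j := by exact_mod_cast hij
              change x + i * h ≤ x + j * h
              nlinarith
      _ = 3 * D := by ring

end Pool.Agent.J6H28.PL
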