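import Mathlib
import Pool.Agent.J6H28.PL.Time
import Pool.Agent.J6H28.PL.Var
set_option autoImplicit false

/-! The contribution of one dyadic annulus. -/

namespace Pool.Agent.J6H28.PL

open MeasureTheory Set Complex Filter
open scoped ENNReal NNReal ComplexConjugate

/-- the phase factor in the plane -/
noncomputable def epp (t : ℝ) (z x : ℂ) : ℂ :=
  cexp (-((t * ‖x‖ ^ 2 + (z * conj x).re : ℝ) : ℂ) * I)

/-- the direction -/
noncomputable def dir (θ : ℝ) : ℂ := conj (cs θ)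

lemma dir_norm (θ : ℝ) : ‖dir θ‖ = 1 := by
  unfold dir
  rw [RCLike.norm_conj, cs_norm]

lemma dir_cont : Continuous dir := Complex.continuous_conj.comp cs_cont

/-- the annulus -/
def ann (w : ℝ) : Set ℂ := {x | w / 2 < ‖x‖ ∧ ‖x‖ ≤ w}

lemma ann_meas (w : ℝ) : MeasurableSet (ann w) :=
  (measurableSet_lt measurable_const measurable_norm).inter
    (measurableSet_le measurable_norm measurable_const)

/-- the function in polar coordinates -/
noncomputable def Vf (f : ℂ → ℂ) (w : ℝ) (G : Set ℝ) (p : ℝ × ℝ) : ℂ :=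
  G.indicator (fun θ => cutr (fun r => f (((w * r : ℝ) : ℂ) * dir θ)) p.1) p.2

lemma Vf_meas (f : ℂ → ℂ) (hf : Measurable f) (w : ℝ) (G : Set ℝ) (hG : MeasurableSet G) :
    Measurable (Vf f w G) := by
  have h1 : Measurable (fun p : ℝ × ℝ => f (((w * p.1 : ℝ) : ℂ) * dir p.2)) := by
    apply hf.comp
    have := dir_cont
    apply Continuous.measurable
    fun_prop
  have h2 : Measurable (fun p : ℝ × ℝ => cutr (fun r => f (((w * r : ℝ) : ℂ) * dir p.2)) p.1) := by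
    unfold cutr
    refine Measurable.ite ?_ ?_ measurable_const
    · exact ((measurableSet_Ioi (a := (1 / 2 : ℝ))).inter
        (measurableSet_Iic (a := (1 : ℝ)))).preimage measurable_fst
    · exact (Complex.measurable_ofReal.comp measurable_fst).mul h1
  have h3 : Vf f w G = (Prod.snd ⁻¹' G).indicator
      (fun p : ℝ × ℝ => cutr (fun r => f (((w * r : ℝ) : ℂ) * dir p.2)) p.1) := by
    funext p
    unfold Vf
    by_cases h : p.2 ∈ G
    · rw [indicator_of_mem h, indicator_of_mem (show p ∈ Prod.snd ⁻¹' G from h)]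
    · rw [indicator_of_notMem h, indicator_of_notMem (show p ∉ Prod.snd ⁻¹' G from h)]
  rw [h3]
  exact h2.indicator (measurable_snd hG)

lemma ann_eq (f : ℂ → ℂ) (w : ℝ) (hw : 0 < w) (G : Set ℝ)
    (hGn : volume (Ioo (-Real.pi) Real.pi \ G) = 0) (z : ℂ) (t : ℝ) :
    ∫ x in ann w, f x * epp t z x = ((w ^ 2 : ℝ) : ℂ) * TV (t * w ^ 2) (Vf f w G) (w * z) := by
  rw [← integral_indicator (ann_meas w)]
  set F : ℂ → ℂ := (ann w).indicator (fun x => f x * epp t z x) with hF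
  have h1 : ∫ x, F x = (w ^ 2) • ∫ x, F (w • x) := by
    rw [Measure.integral_comp_smul, Complex.finrank_real_complex, abs_of_pos (by positivity),
      smul_smul, mul_inv_cancel₀ (by positivity), one_smul]
  rw [h1, ← Complex.integral_comp_polarCoord_symm, Complex.real_smul]
  congr 1
  unfold TV
  have hae : ∀ᵐ p ∂(volume.restrict tgt : Measure (ℝ × ℝ)), p.2 ∈ G := by
    rw [ae_restrict_iff' tgt_meas, ae_iff]
    refine measure_mono_null (t := univ ×ˢ (Ioo (-Real.pi) Real.pi \ G)) ?_ ?_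
    · intro p hp
      simp only [mem_ofPred_eq, Classical.not_imp] at hp
      exact ⟨mem_univ _, hp.1.2, hp.2⟩
    · rw [Measure.volume_eq_prod, Measure.prod_prod, hGn, mul_zero]
  refine integral_congr_ae ?_
  have hmem : ∀ᵐ p ∂(volume.restrict tgt : Measure (ℝ × ℝ)), p ∈ tgt := ae_restrict_mem tgt_meas
  filter_upwards [hae, hmem] with p hpG hp
  have hp0 : 0 < p.1 := hp.1
  have e1 : w • Complex.polarCoord.symm p = ((w * p.1 : ℝ) : ℂ) * dir p.2 := by
    rw [symm_eq, Complex.real_smul]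
    unfold dir
    push_cast
    ring
  have e2 : ‖w • Complex.polarCoord.symm p‖ = w * p.1 := by
    rw [e1, norm_mul, dir_norm, mul_one, Complex.norm_real, Real.norm_eq_abs,
      abs_of_pos (by positivity)]
  unfold Vf
  rw [indicator_of_mem hpG]
  by_cases hc : 1 / 2 < p.1 ∧ p.1 ≤ 1
  · have h2 : w • Complex.polarCoord.symm p ∈ ann w := by
      unfold ann
      rw [mem_ofPred_eq, e2]
      constructor
      · nlinarith [hc.1]
      · nlinarith [hc.2]
    simp only [hF]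
    rw [indicator_of_mem h2]
    unfold cutr
    rw [if_pos hc, Complex.real_smul, ← mul_assoc]
    congr 1
    · rw [e1]
    · unfold epp ph
      have e5 : (z * conj (((w * p.1 : ℝ) : ℂ) * dir p.2)).re = w * p.1 * (z * cs p.2).re := by
        unfold dir
        rw [map_mul, Complex.conj_ofReal, Complex.conj_conj, mul_left_comm, Complex.re_ofReal_mul]
      have e6 : ((w : ℂ) * z * cs p.2).re = w * (z * cs p.2).re := by
        rw [mul_assoc (w : ℂ), Complex.re_ofReal_mul]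
      rw [e2, e1, e5, e6]
      congr 4
      ring
  · have h2 : w • Complex.polarCoord.symm p ∉ ann w := by
      unfold ann
      rw [mem_ofPred_eq, e2]
      rintro ⟨h3, h4⟩
      apply hc
      constructor
      · by_contra h5
        push Not at h5
        nlinarith
      · by_contra h5
        push Not at h5
        nlinarith
    simp only [hF]
    rw [indicator_of_notMem h2]
    unfold cutr
    rw [if_neg hc]
    simp

/-- the hypothesis on the function -/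
structure HW (f : ℂ → ℂ) (W : ℂ → ℝ≥0∞) : Prop where
  meas : Measurable f
  measW : Measurable W
  bound : ∀ x, ‖f x‖ₑ + eVariationOn (fun s : ℝ => f (s • x)) (Icc 1 2) ≤ W x

/-- the majorant on a ray -/
noncomputable def DW (W : ℂ → ℝ≥0∞) (w θ ρ : ℝ) : ℝ≥0∞ :=
  W (((w * ρ : ℝ) : ℂ) * dir θ) + W (((w * (2 * ρ) : ℝ) : ℂ) * dir θ)

lemma HW.ray {f : ℂ → ℂ} {W : ℂ → ℝ≥0∞} (H : HW f W) (w θ ρ : ℝ)
    (hρ : ρ ∈ Icc (1 / 4 : ℝ) (1 / 2)) :
    (∀ r ∈ Icc (1 / 2 : ℝ) 1, ‖f (((w * r : ℝ) : ℂ) * dir θ)‖ₑ ≤ DW W w θ ρ) ∧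
    eVariationOn (fun r : ℝ => f (((w * r : ℝ) : ℂ) * dir θ)) (Icc (1 / 2) 1) ≤ DW W w θ ρ := by
  have hρ0 : 0 < ρ := by linarith [hρ.1]
  set g : ℝ → ℂ := fun r => f (((w * r : ℝ) : ℂ) * dir θ) with hg
  have hvar : ∀ σ : ℝ, 0 < σ →
      eVariationOn (fun s : ℝ => f (s • (((w * σ : ℝ) : ℂ) * dir θ))) (Icc 1 2) =
      eVariationOn g (Icc σ (2 * σ)) := by
    intro σ hσ
    have e1 : (fun s : ℝ => f (s • (((w * σ : ℝ) : ℂ) * dir θ))) = g ∘ (fun s => σ * s) := by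
      funext s
      simp only [hg, Function.comp]
      congr 1
      rw [Complex.real_smul]
      push_cast
      ring
    rw [e1, eVariationOn.comp_eq_of_monotoneOn g (fun s => σ * s)
      (fun a _ b _ hab => by
        change σ * a ≤ σ * b
        nlinarith), Set.image_mul_left_Icc hσ.le (by norm_num)]
    congr 2
    · ring
    · ring
  have h1 := H.bound (((w * ρ : ℝ) : ℂ) * dir θ)
  have h2 := H.bound (((w * (2 * ρ) : ℝ) : ℂ) * dir θ)
  rw [hvar ρ hρ0] at h1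
  rw [hvar (2 * ρ) (by positivity)] at h2
  have h3 : eVariationOn g (Icc ρ (2 * ρ)) + eVariationOn g (Icc (2 * ρ) (2 * (2 * ρ))) =
      eVariationOn g (Icc ρ (2 * (2 * ρ))) := by
    have := eVariationOn.Icc_add_Icc g (s := univ) (a := ρ) (b := 2 * ρ) (c := 2 * (2 * ρ))
      (by linarith) (by linarith) (mem_univ _)
    simpa only [univ_inter] using this
  have h4 : ‖g ρ‖ₑ + eVariationOn g (Icc ρ (2 * (2 * ρ))) ≤ DW W w θ ρ := by
    rw [← h3, ← add_assoc]
    unfold DW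
    exact add_le_add h1 (le_add_self.trans h2)
  have hsub : Icc (1 / 2 : ℝ) 1 ⊆ Icc ρ (2 * (2 * ρ)) := by
    intro r hr
    exact ⟨by linarith [hr.1, hρ.2], by linarith [hr.2, hρ.1]⟩
  constructor
  · intro r hr
    refine le_trans ?_ h4
    have h5 : edist (g r) (g ρ) ≤ eVariationOn g (Icc ρ (2 * (2 * ρ))) :=
      eVariationOn.edist_le g (hsub hr) ⟨le_rfl, by linarith⟩
    have h6 : ‖g r‖ₑ ≤ ‖g ρ‖ₑ + edist (g r) (g ρ) := by
      rw [edist_eq_enorm_sub]
      calc ‖g r‖ₑ = ‖g ρ + (g r - g ρ)‖ₑ := by rw [add_sub_cancel]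
        _ ≤ _ := enorm_add_le _ _
    exact h6.trans (add_le_add le_rfl h5)
  · exact (eVariationOn.mono g hsub).trans (le_add_self.trans h4)

/-- the averaged majorant -/
noncomputable def Bq (W : ℂ → ℝ≥0∞) (q w θ : ℝ) : ℝ≥0∞ :=
  16 * ∫⁻ ρ in Icc (1 / 4 : ℝ) (1 / 2), ENNReal.ofReal ρ * (3 * DW W w θ ρ) ^ q

lemma DW_meas (W : ℂ → ℝ≥0∞) (hW : Measurable W) (w : ℝ) :
    Measurable (fun p : ℝ × ℝ => DW W w p.1 p.2) := by
  unfold DW
  have := dir_cont
  have h1 : Continuous (fun p : ℝ × ℝ => ((w * p.2 : ℝ) : ℂ) * dir p.1) := by fun_prop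
  have h2 : Continuous (fun p : ℝ × ℝ => ((w * (2 * p.2) : ℝ) : ℂ) * dir p.1) := by fun_prop
  exact (hW.comp h1.measurable).add (hW.comp h2.measurable)

lemma Bq_meas (W : ℂ → ℝ≥0∞) (hW : Measurable W) (q w : ℝ) : Measurable (Bq W q w) := by
  unfold Bq
  have h1 := DW_meas W hW w
  have h2 : Measurable (fun p : ℝ × ℝ => ENNReal.ofReal p.2 * (3 * DW W w p.1 p.2) ^ q) := by
    fun_prop
  exact (Measurable.lintegral_prod_right' (ν := volume.restrict (Icc (1 / 4 : ℝ) (1 / 2)))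
    h2).const_mul 16

lemma Bq_key (W : ℂ → ℝ≥0∞) (q w θ : ℝ) (hq : 0 < q) (x : ℝ≥0∞)
    (hx : ∀ ρ ∈ Icc (1 / 4 : ℝ) (1 / 2), x ≤ 3 * DW W w θ ρ) : x ≤ Bq W q w θ ^ (1 / q) := by
  have h1 : x ^ q ≤ Bq W q w θ := by
    unfold Bq
    calc x ^ q = 16 * (ENNReal.ofReal (1 / 4) * x ^ q * ENNReal.ofReal (1 / 2 - 1 / 4)) := by
          have : (16 : ℝ≥0∞) * (ENNReal.ofReal (1 / 4) * x ^ q * ENNReal.ofReal (1 / 2 - 1 / 4)) =
              (16 * (ENNReal.ofReal (1 / 4) * ENNReal.ofReal (1 / 2 - 1 / 4))) * x ^ q := by ring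
          rw [this, ← ENNReal.ofReal_mul (by norm_num)]
          have e16 : (16 : ℝ≥0∞) = ENNReal.ofReal 16 := by norm_num
          rw [e16, ← ENNReal.ofReal_mul (by norm_num)]
          norm_num
      _ = 16 * ∫⁻ ρ in Icc (1 / 4 : ℝ) (1 / 2), ENNReal.ofReal (1 / 4) * x ^ q := by
          rw [lintegral_const, Measure.restrict_apply MeasurableSet.univ, univ_inter,
            Real.volume_Icc]
      _ ≤ _ := by
          refine mul_le_mul_right ?_ _
          refine setLIntegral_mono' measurableSet_Icc fun ρ hρ => ?_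
          gcongr
          · exact hρ.1
          · exact hx ρ hρ
  have h2 := ENNReal.rpow_le_rpow h1 (z := 1 / q) (by positivity)
  rw [← ENNReal.rpow_mul] at h2
  have : q * (1 / q) = 1 := by field_simp
  rwa [this, ENNReal.rpow_one] at h2

/-- the integral of the averaged majorant -/
lemma Bq_int (W : ℂ → ℝ≥0∞) (hW : Measurable W) (q w : ℝ) (hq : 1 ≤ q) (hw : 0 < w) :
    ENNReal.ofReal (w ^ 2) * ∫⁻ θ in Ioo (-Real.pi) Real.pi, Bq W q w θ ≤
      (16 * 3 ^ q * 2 ^ q) * ∫⁻ x, W x ^ q := by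
  have hq0 : 0 < q := by linarith
  have hpol : ∀ c : ℝ, 0 < c → ENNReal.ofReal (c ^ 2) *
      ∫⁻ θ in Ioo (-Real.pi) Real.pi, ∫⁻ ρ in Icc (1 / 4 : ℝ) (1 / 2),
        ENNReal.ofReal ρ * W (((c * ρ : ℝ) : ℂ) * dir θ) ^ q ≤ ∫⁻ x, W x ^ q := by
    intro c hc
    rw [lint_smul (fun x => W x ^ q) c hc]
    gcongr
    rw [← Complex.lintegral_comp_polarCoord_symm]
    have hm : Measurable (fun p : ℝ × ℝ => ENNReal.ofReal p.1 *
        W (((c * p.1 : ℝ) : ℂ) * dir p.2) ^ q) := by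
      have := dir_cont
      have h1 : Continuous (fun p : ℝ × ℝ => ((c * p.1 : ℝ) : ℂ) * dir p.2) := by fun_prop
      have h2 : Measurable (fun p : ℝ × ℝ => W (((c * p.1 : ℝ) : ℂ) * dir p.2)) :=
        hW.comp h1.measurable
      fun_prop
    calc ∫⁻ θ in Ioo (-Real.pi) Real.pi, ∫⁻ ρ in Icc (1 / 4 : ℝ) (1 / 2),
          ENNReal.ofReal ρ * W (((c * ρ : ℝ) : ℂ) * dir θ) ^ q
        = ∫⁻ p in Icc (1 / 4 : ℝ) (1 / 2) ×ˢ Ioo (-Real.pi) Real.pi,
          ENNReal.ofReal p.1 * W (((c * p.1 : ℝ) : ℂ) * dir p.2) ^ q := by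
          rw [Measure.volume_eq_prod, ← Measure.prod_restrict]
          exact (lintegral_prod_symm _ hm.aemeasurable).symm
      _ ≤ ∫⁻ p in polarCoord.target,
          ENNReal.ofReal p.1 * W (((c * p.1 : ℝ) : ℂ) * dir p.2) ^ q := by
          refine lintegral_mono_set ?_
          intro p hp
          exact ⟨lt_of_lt_of_le (by norm_num) hp.1.1, hp.2⟩
      _ = _ := by
          refine lintegral_congr fun p => ?_
          rw [smul_eq_mul, symm_eq]
          congr 3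
          unfold dir
          push_cast
          ring
  have h1 := hpol w hw
  have h2 := hpol (2 * w) (by positivity)
  set I1 := ∫⁻ θ in Ioo (-Real.pi) Real.pi, ∫⁻ ρ in Icc (1 / 4 : ℝ) (1 / 2),
        ENNReal.ofReal ρ * W (((w * ρ : ℝ) : ℂ) * dir θ) ^ q with hI1
  set I2 := ∫⁻ θ in Ioo (-Real.pi) Real.pi, ∫⁻ ρ in Icc (1 / 4 : ℝ) (1 / 2),
        ENNReal.ofReal ρ * W ((((2 * w) * ρ : ℝ) : ℂ) * dir θ) ^ q with hI2
  have hmW : ∀ c : ℝ, Measurable (fun p : ℝ × ℝ => W (((c * p.2 : ℝ) : ℂ) * dir p.1)) := by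
    intro c
    have := dir_cont
    have h1 : Continuous (fun p : ℝ × ℝ => ((c * p.2 : ℝ) : ℂ) * dir p.1) := by fun_prop
    exact hW.comp h1.measurable
  have hB : ∫⁻ θ in Ioo (-Real.pi) Real.pi, Bq W q w θ ≤
      (16 * 3 ^ q * 2 ^ (q - 1)) * (I1 + I2) := by
    have h3 : ∀ θ, Bq W q w θ ≤ (16 * 3 ^ q * 2 ^ (q - 1)) *
        ((∫⁻ ρ in Icc (1 / 4 : ℝ) (1 / 2), ENNReal.ofReal ρ * W (((w * ρ : ℝ) : ℂ) * dir θ) ^ q) +
        ∫⁻ ρ in Icc (1 / 4 : ℝ) (1 / 2),
          ENNReal.ofReal ρ * W ((((2 * w) * ρ : ℝ) : ℂ) * dir θ) ^ q) := by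
      intro θ
      have hm1 : Measurable (fun ρ : ℝ => ENNReal.ofReal ρ * W (((w * ρ : ℝ) : ℂ) * dir θ) ^ q) := by
        have := (hmW w).comp (measurable_const (a := θ) |>.prodMk measurable_id)
        have h5 : Measurable (fun ρ : ℝ => W (((w * ρ : ℝ) : ℂ) * dir θ)) := this
        fun_prop
      unfold Bq
      rw [← lintegral_add_left hm1, mul_assoc, mul_assoc]
      gcongr
      rw [← mul_assoc, ← lintegral_const_mul'
        _ _ (ENNReal.mul_ne_top (ENNReal.rpow_ne_top_of_nonneg hq0.le (by norm_num))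
          (ENNReal.rpow_ne_top_of_nonneg (by linarith) (by norm_num)))]
      refine lintegral_mono fun ρ => ?_
      unfold DW
      have e1 : (w * (2 * ρ) : ℝ) = (2 * w) * ρ := by ring
      rw [e1, ENNReal.mul_rpow_of_nonneg _ _ hq0.le]
      have h4 := ENNReal.rpow_add_le_mul_rpow_add_rpow (W (((w * ρ : ℝ) : ℂ) * dir θ))
        (W ((((2 * w) * ρ : ℝ) : ℂ) * dir θ)) hq
      calc _ ≤ ENNReal.ofReal ρ * (3 ^ q * (2 ^ (q - 1) * (W (((w * ρ : ℝ) : ℂ) * dir θ) ^ q +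
            W ((((2 * w) * ρ : ℝ) : ℂ) * dir θ) ^ q))) := by gcongr
        _ = _ := by ring
    have hm2 : Measurable (fun θ : ℝ => ∫⁻ ρ in Icc (1 / 4 : ℝ) (1 / 2),
        ENNReal.ofReal ρ * W (((w * ρ : ℝ) : ℂ) * dir θ) ^ q) := by
      have h5 := hmW w
      have h6 : Measurable (fun p : ℝ × ℝ =>
          ENNReal.ofReal p.2 * W (((w * p.2 : ℝ) : ℂ) * dir p.1) ^ q) :=
        measurable_snd.ennreal_ofReal.mul (h5.pow_const q)
      exact Measurable.lintegral_prod_right' (ν := volume.restrict (Icc (1 / 4 : ℝ) (1 / 2))) h6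
    refine (lintegral_mono h3).trans (le_of_eq ?_)
    have hne : (16 * 3 ^ q * 2 ^ (q - 1) : ℝ≥0∞) ≠ ⊤ :=
      ENNReal.mul_ne_top (ENNReal.mul_ne_top (by norm_num)
        (ENNReal.rpow_ne_top_of_nonneg hq0.le (by norm_num)))
        (ENNReal.rpow_ne_top_of_nonneg (by linarith) (by norm_num))
    rw [lintegral_const_mul' _ _ hne, lintegral_add_left hm2]
  have h2' : ENNReal.ofReal (w ^ 2) * I2 ≤ ∫⁻ x, W x ^ q := by
    refine le_trans ?_ h2
    gcongr
    linarith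
  calc ENNReal.ofReal (w ^ 2) * ∫⁻ θ in Ioo (-Real.pi) Real.pi, Bq W q w θ
      ≤ ENNReal.ofReal (w ^ 2) * ((16 * 3 ^ q * 2 ^ (q - 1)) * (I1 + I2)) := by gcongr
    _ = (16 * 3 ^ q * 2 ^ (q - 1)) * (ENNReal.ofReal (w ^ 2) * I1 + ENNReal.ofReal (w ^ 2) * I2) := by
        ring
    _ ≤ (16 * 3 ^ q * 2 ^ (q - 1)) * ((∫⁻ x, W x ^ q) + ∫⁻ x, W x ^ q) := by gcongr
    _ = (16 * 3 ^ q * (2 ^ (q - 1) * 2)) * ∫⁻ x, W x ^ q := by ring
    _ = _ := by
        congr 2
        nth_rw 2 [← ENNReal.rpow_one 2]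
        rw [← ENNReal.rpow_add _ _ (by norm_num) (by norm_num)]
        congr 1
        ring

end Pool.Agent.J6H28.PL
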