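import Mathlib
import Pool.Agent.J6H28.PL.Ann
import Pool.Agent.W771.Basic
set_option autoImplicit false

/-! Summation over the dyadic annuli. -/

namespace Pool.Agent.J6H28.PL

open MeasureTheory Set Complex Filter
open scoped ENNReal NNReal ComplexConjugate

lemma cutr_norm (g : ℝ → ℂ) (r : ℝ) : ‖cutr g r‖ₑ ≤ if r ∈ Icc (1 / 2 : ℝ) 1 then ‖g r‖ₑ else 0 := by
  unfold cutr
  by_cases h : 1 / 2 < r ∧ r ≤ 1
  · rw [if_pos h, if_pos (show r ∈ Icc (1 / 2 : ℝ) 1 from ⟨h.1.le, h.2⟩), enorm_mul]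
    refine mul_le_of_le_one_left bot_le ?_
    rw [← ofReal_norm, Complex.norm_real, Real.norm_eq_abs, abs_of_pos (by linarith [h.1]),
      ← ENNReal.ofReal_one]
    exact ENNReal.ofReal_le_ofReal h.2
  · rw [if_neg h, enorm_zero]
    exact bot_le

lemma lint_smulR (F : ℝ → ℝ≥0∞) (R : ℝ) (hR : 0 < R) :
    ∫⁻ t, F t = ENNReal.ofReal R * ∫⁻ t, F (t * R) := by
  set e : ℝ ≃ᵐ ℝ := (Homeomorph.mulRight₀ R hR.ne' : ℝ ≃ₜ ℝ).toMeasurableEquiv with he
  have h1 : Measure.map e (volume : Measure ℝ) = ENNReal.ofReal (R⁻¹) • volume := by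
    have := Real.map_volume_mul_right hR.ne'
    rw [abs_of_pos (by positivity)] at this
    exact this
  have h2 : ∫⁻ z, F z ∂(Measure.map e volume) = ∫⁻ z, F (e z) := lintegral_map_equiv F e
  rw [h1, lintegral_smul_measure, smul_eq_mul] at h2
  have h3 : ∀ z, e z = z * R := fun z => rfl
  simp_rw [h3] at h2
  rw [← h2, ← mul_assoc, ← ENNReal.ofReal_mul (by positivity), mul_inv_cancel₀ (by positivity),
    ENNReal.ofReal_one, one_mul]

/-- **one annulus** -/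
lemma pieceEst (q : ℝ) (hq : 3 < q) (hq4 : q < 4) : ∃ C : ℝ≥0, ∀ (f : ℂ → ℂ) (W : ℂ → ℝ≥0∞)
    (w : ℝ), HW f W → 0 < w → ∫⁻ t : ℝ, ∫⁻ z, ‖∫ x in ann w, f x * epp t z x‖ₑ ^ q ≤
      C * ENNReal.ofReal (w ^ (2 * q - 6)) * ∫⁻ x, W x ^ q := by
  obtain ⟨C1, hC1⟩ := timeInt q hq hq4
  have hq0 : 0 < q := by linarith
  set K : ℝ≥0∞ := 16 * 3 ^ q * 2 ^ q with hK
  have hKt : K ≠ ⊤ := by
    rw [hK]
    exact ENNReal.mul_ne_top (ENNReal.mul_ne_top (by norm_num)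
      (ENNReal.rpow_ne_top_of_nonneg hq0.le (by norm_num)))
      (ENNReal.rpow_ne_top_of_nonneg hq0.le (by norm_num))
  refine ⟨(C1 * K).toNNReal + 1, ?_⟩
  intro f W w H hw
  rw [ENNReal.coe_add, ENNReal.coe_toNNReal (by finiteness), ENNReal.coe_one]
  by_cases hXt : ∫⁻ x, W x ^ q = ⊤
  · rw [hXt, ENNReal.mul_top]
    · exact le_top
    · refine mul_ne_zero (by positivity) ?_
      rw [Ne, ENNReal.ofReal_eq_zero, not_le]
      positivity
  have hBi := Bq_int W H.measW q w (by linarith) hw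
  have hwp : ENNReal.ofReal (w ^ 2) ≠ 0 := by
    rw [Ne, ENNReal.ofReal_eq_zero, not_le]
    positivity
  have hBt : ∫⁻ θ in Ioo (-Real.pi) Real.pi, Bq W q w θ ≠ ⊤ := by
    intro hcon
    rw [hcon, ENNReal.mul_top hwp] at hBi
    exact (ENNReal.mul_ne_top hKt hXt) (top_le_iff.1 hBi)
  have hBm := Bq_meas W H.measW q w
  set G : Set ℝ := Ioo (-Real.pi) Real.pi ∩ {θ | Bq W q w θ < ⊤} with hG
  have hGm : MeasurableSet G := measurableSet_Ioo.inter (measurableSet_lt hBm measurable_const)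
  have hGn : volume (Ioo (-Real.pi) Real.pi \ G) = 0 := by
    have h1 := ae_lt_top hBm hBt
    rw [ae_restrict_iff' measurableSet_Ioo, ae_iff] at h1
    refine measure_mono_null ?_ h1
    intro θ hθ
    simp only [mem_ofPred_eq, Classical.not_imp]
    refine ⟨hθ.1, ?_⟩
    intro h2
    exact hθ.2 ⟨hθ.1, h2⟩
  set B : ℝ → ℝ≥0 := fun θ => (Bq W q w θ ^ (1 / q)).toNNReal with hB
  have hBc : ∀ θ ∈ G, (B θ : ℝ≥0∞) = Bq W q w θ ^ (1 / q) := by
    intro θ hθ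
    simp only [hB]
    exact ENNReal.coe_toNNReal (ENNReal.rpow_ne_top_of_nonneg (by positivity) (ne_of_lt hθ.2))
  have hAdm : Adm (Vf f w G) B := by
    refine ⟨Vf_meas f H.meas w G hGm, (hBm.pow_const _).ennreal_toNNReal, ?_, ?_, ?_⟩
    · intro p hp
      have h1 : p.2 ∈ G := by
        by_contra hcon
        apply hp
        unfold Vf
        rw [indicator_of_notMem hcon]
      unfold Vf at hp
      rw [indicator_of_mem h1] at hp
      unfold cutr at hp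
      by_cases h2 : 1 / 2 < p.1 ∧ p.1 ≤ 1
      · exact ⟨h2.1.le, h2.2, h1.1⟩
      · rw [if_neg h2] at hp
        exact absurd rfl hp
    · intro p
      by_cases h1 : p.2 ∈ G
      · have h2 : ‖Vf f w G p‖ₑ ≤ B p.2 := by
          rw [hBc _ h1]
          apply Bq_key W q w p.2 hq0
          intro ρ hρ
          unfold Vf
          rw [indicator_of_mem h1]
          refine (cutr_norm _ _).trans ?_
          split_ifs with h3
          · refine ((H.ray w p.2 ρ hρ).1 p.1 h3).trans ?_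
            exact le_mul_of_one_le_left bot_le (by norm_num)
          · exact bot_le
        rw [← ofReal_norm, ← ENNReal.ofReal_coe_nnreal,
          ENNReal.ofReal_le_ofReal_iff (NNReal.coe_nonneg _)] at h2
        exact h2
      · unfold Vf
        rw [indicator_of_notMem h1, norm_zero]
        exact NNReal.coe_nonneg _
    · intro θ h hh
      by_cases h1 : θ ∈ G
      · have hho : ENNReal.ofReal h ≠ 0 := by
          rw [Ne, ENNReal.ofReal_eq_zero, not_le]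
          exact hh
        set M : ℝ≥0∞ := ∫⁻ r, ‖Vf f w G (r + h, θ) - Vf f w G (r, θ)‖ₑ with hM
        have h2 : M / ENNReal.ofReal h ≤ B θ := by
          rw [hBc _ h1]
          apply Bq_key W q w θ hq0
          intro ρ hρ
          apply ENNReal.div_le_of_le_mul
          have h3 := H.ray w θ ρ hρ
          have hgm : Measurable (fun r : ℝ => f (((w * r : ℝ) : ℂ) * dir θ)) := by
            apply H.meas.comp
            apply Continuous.measurable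
            fun_prop
          have h4 := cutr_mod _ hgm (DW W w θ ρ) h3.1 h3.2 h hh
          rw [mul_comm]
          refine le_trans (le_of_eq ?_) h4
          rw [hM]
          refine lintegral_congr fun r => ?_
          unfold Vf
          rw [indicator_of_mem h1, indicator_of_mem h1]
        have h5 : M ≤ ENNReal.ofReal h * B θ := by
          rw [mul_comm]
          exact (ENNReal.div_le_iff hho ENNReal.ofReal_ne_top).1 h2
        refine h5.trans (le_of_eq ?_)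
        rw [ENNReal.ofReal_mul hh.le, ENNReal.ofReal_coe_nnreal]
      · have h2 : ∀ r, Vf f w G (r, θ) = 0 := by
          intro r
          unfold Vf
          rw [indicator_of_notMem h1]
        simp [h2]
  have hT := hC1 _ _ hAdm
  have hBB : ∫⁻ θ in Ioo (-Real.pi) Real.pi, (B θ : ℝ≥0∞) ^ q ≤
      ∫⁻ θ in Ioo (-Real.pi) Real.pi, Bq W q w θ := by
    refine lintegral_mono fun θ => ?_
    simp only [hB]
    refine (ENNReal.rpow_le_rpow ENNReal.coe_toNNReal_le_self hq0.le).trans (le_of_eq ?_)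
    rw [← ENNReal.rpow_mul]
    have : 1 / q * q = 1 := by field_simp
    rw [this, ENNReal.rpow_one]
  set A : ℝ≥0∞ := ∫⁻ t : ℝ, ∫⁻ z, ‖TV (t * w ^ 2) (Vf f w G) (w * z)‖ₑ ^ q with hA
  have hA1 : ENNReal.ofReal (w ^ 2) * (ENNReal.ofReal (w ^ 2) * A) =
      ∫⁻ t : ℝ, ∫⁻ ξ, ‖TV t (Vf f w G) ξ‖ₑ ^ q := by
    rw [lint_smulR (fun t => ∫⁻ ξ, ‖TV t (Vf f w G) ξ‖ₑ ^ q) (w ^ 2) (by positivity)]
    congr 1
    rw [hA, ← lintegral_const_mul' _ _ ENNReal.ofReal_ne_top]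
    refine lintegral_congr fun t => ?_
    exact (lint_smul (fun ξ => ‖TV (t * w ^ 2) (Vf f w G) ξ‖ₑ ^ q) w hw).symm
  have hLHS : ∫⁻ t : ℝ, ∫⁻ z, ‖∫ x in ann w, f x * epp t z x‖ₑ ^ q =
      ENNReal.ofReal (w ^ (2 * q)) * A := by
    rw [hA, ← lintegral_const_mul' _ _ ENNReal.ofReal_ne_top]
    refine lintegral_congr fun t => ?_
    rw [← lintegral_const_mul' _ _ ENNReal.ofReal_ne_top]
    refine lintegral_congr fun z => ?_
    rw [ann_eq f w hw G hGn z t, enorm_mul, ENNReal.mul_rpow_of_nonneg _ _ hq0.le]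
    congr 1
    rw [← ofReal_norm, Complex.norm_real, Real.norm_eq_abs, abs_of_pos (by positivity),
      ENNReal.ofReal_rpow_of_pos (by positivity)]
    congr 1
    rw [← Real.rpow_natCast, ← Real.rpow_mul hw.le]
    congr 1
  rw [hLHS]
  have e6 : ENNReal.ofReal (w ^ (2 * q)) = ENNReal.ofReal (w ^ (2 * q - 6)) *
      (ENNReal.ofReal (w ^ 2) * (ENNReal.ofReal (w ^ 2) * ENNReal.ofReal (w ^ 2))) := by
    rw [← ENNReal.ofReal_mul (by positivity), ← ENNReal.ofReal_mul (by positivity),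
      ← ENNReal.ofReal_mul (by positivity)]
    congr 1
    have e7 : w ^ 2 * (w ^ 2 * w ^ 2) = w ^ (6 : ℝ) := by
      rw [show (6 : ℝ) = ((6 : ℕ) : ℝ) by norm_num, Real.rpow_natCast]
      ring
    rw [e7, ← Real.rpow_add hw]
    congr 1
    ring
  calc ENNReal.ofReal (w ^ (2 * q)) * A
      = ENNReal.ofReal (w ^ (2 * q - 6)) * (ENNReal.ofReal (w ^ 2) *
        (ENNReal.ofReal (w ^ 2) * (ENNReal.ofReal (w ^ 2) * A))) := by
        rw [e6]
        ring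
    _ = ENNReal.ofReal (w ^ (2 * q - 6)) * (ENNReal.ofReal (w ^ 2) *
        ∫⁻ t : ℝ, ∫⁻ ξ, ‖TV t (Vf f w G) ξ‖ₑ ^ q) := by rw [hA1]
    _ ≤ ENNReal.ofReal (w ^ (2 * q - 6)) * (ENNReal.ofReal (w ^ 2) *
        (C1 * ∫⁻ θ in Ioo (-Real.pi) Real.pi, Bq W q w θ)) := by
        gcongr
        exact hT.trans (mul_le_mul_right hBB _)
    _ = C1 * ENNReal.ofReal (w ^ (2 * q - 6)) * (ENNReal.ofReal (w ^ 2) *
        ∫⁻ θ in Ioo (-Real.pi) Real.pi, Bq W q w θ) := by ring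
    _ ≤ C1 * ENNReal.ofReal (w ^ (2 * q - 6)) * (K * ∫⁻ x, W x ^ q) := by gcongr
    _ = C1 * K * ENNReal.ofReal (w ^ (2 * q - 6)) * ∫⁻ x, W x ^ q := by ring
    _ ≤ _ := by
        gcongr
        exact le_self_add

lemma epp_norm (t : ℝ) (z x : ℂ) : ‖epp t z x‖ = 1 := norm_cexp_neg _

lemma epp_enorm (t : ℝ) (z x : ℂ) : ‖epp t z x‖ₑ = 1 := by
  rw [← ofReal_norm, epp_norm, ENNReal.ofReal_one]

lemma piece_meas (f : ℂ → ℂ) (hf : Measurable f) (S : Set ℂ) :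
    Measurable (fun p : ℝ × ℂ => ∫ x in S, f x * epp p.1 p.2 x) := by
  have h2 : StronglyMeasurable (Function.uncurry fun (p : ℝ × ℂ) (x : ℂ) =>
      f x * epp p.1 p.2 x) := by
    apply Measurable.stronglyMeasurable
    have h3 : Continuous (fun p : (ℝ × ℂ) × ℂ => epp p.1.1 p.1.2 p.2) := by
      unfold epp
      have := Complex.continuous_conj
      fun_prop
    exact (hf.comp measurable_snd).mul h3.measurable
  exact (h2.integral_prod_right (ν := volume.restrict S)).measurable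

/-- the dyadic scales -/
noncomputable def wk (k : ℕ) : ℝ := (1 / 2 : ℝ) ^ k

lemma wk_pos (k : ℕ) : 0 < wk k := by
  unfold wk
  positivity

lemma wk_half (k : ℕ) : wk k / 2 = wk (k + 1) := by
  unfold wk
  rw [pow_succ]
  ring

lemma wk_anti : StrictAnti wk := pow_right_strictAnti₀ (by norm_num) (by norm_num)

lemma ann_disj : Pairwise (Function.onFun Disjoint fun k => ann (wk k)) := by
  intro i j hij
  rw [Function.onFun, Set.disjoint_left]
  rintro x ⟨h1, h2⟩ ⟨h3, h4⟩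
  rw [wk_half] at h1 h3
  have h5 : wk (i + 1) < wk j := lt_of_lt_of_le h1 h4
  have h6 : wk (j + 1) < wk i := lt_of_lt_of_le h3 h2
  rw [wk_anti.lt_iff_gt] at h5 h6
  omega

lemma ann_cover (x : ℂ) (hx : x ≠ 0) (h1 : ‖x‖ ≤ 1) : x ∈ ⋃ k, ann (wk k) := by
  obtain ⟨n, hn1, hn2⟩ := exists_nat_pow_near_of_lt_one (norm_pos_iff.2 hx) h1
    (show (0 : ℝ) < 1 / 2 by norm_num) (by norm_num)
  rw [mem_iUnion]
  refine ⟨n, ?_, hn2⟩
  rw [wk_half]
  exact hn1

lemma annsplit (F : ℂ → ℂ) (hs : ∀ x, F x ≠ 0 → ‖x‖ ≤ 1) :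
    ‖∫ x, F x‖ₑ ≤ ∑' k, ‖∫ x in ann (wk k), F x‖ₑ := by
  refine Pool.Agent.W771.enorm_integral_le_tsum volume F (fun k => ann (wk k))
    (fun k => ann_meas _) ann_disj ?_
  have h0 : ∀ᵐ x : ℂ, x ≠ 0 := by
    rw [ae_iff]
    simp
  filter_upwards [h0] with x hx hxU
  by_contra hcon
  exact hxU (ann_cover x hx (hs x hcon))

lemma iter_tsum (C : ℝ≥0) (a : ℕ → ℝ≥0∞) (ha : ∀ k, a k ≠ ⊤) (Φ : ℕ → ℝ × ℂ → ℝ≥0∞)
    (hm : ∀ k, Measurable (Φ k)) :
    ∫⁻ t : ℝ, ∫⁻ z : ℂ, C * ∑' k : ℕ, a k * Φ k (t, z) =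
      C * ∑' k : ℕ, a k * ∫⁻ t : ℝ, ∫⁻ z : ℂ, Φ k (t, z) := by
  have hmz : ∀ k t, Measurable (fun z : ℂ => Φ k (t, z)) :=
    fun k t => (hm k).comp (measurable_const.prodMk measurable_id)
  have hmt : ∀ k, Measurable (fun t : ℝ => ∫⁻ z : ℂ, Φ k (t, z)) :=
    fun k => Measurable.lintegral_prod_right' (hm k)
  have h1 : ∀ t : ℝ, ∫⁻ z : ℂ, C * ∑' k : ℕ, a k * Φ k (t, z) =
      C * ∑' k : ℕ, a k * ∫⁻ z : ℂ, Φ k (t, z) := by
    intro t
    rw [lintegral_const_mul' _ _ ENNReal.coe_ne_top, lintegral_tsum]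
    · congr 2
      funext k
      rw [lintegral_const_mul' _ _ (ha k)]
    · intro k
      exact ((hmz k t).const_mul _).aemeasurable
  simp_rw [h1]
  rw [lintegral_const_mul' _ _ ENNReal.coe_ne_top, lintegral_tsum]
  · congr 2
    funext k
    rw [lintegral_const_mul' _ _ (ha k)]
  · intro k
    exact ((hmt k).const_mul _).aemeasurable

lemma wk_pow (q : ℝ) (k : ℕ) :
    ENNReal.ofReal (2 ^ ((q - 3) * (k : ℝ))) * ENNReal.ofReal (wk k ^ (2 * q - 6)) =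
      ENNReal.ofReal (2 ^ (-(q - 3))) ^ k := by
  rw [← ENNReal.ofReal_mul (by positivity), ← ENNReal.ofReal_pow (by positivity)]
  congr 1
  have e2 : wk k = 2 ^ (-(k : ℝ)) := by
    unfold wk
    rw [Real.rpow_neg (by norm_num), Real.rpow_natCast, one_div, inv_pow]
  rw [e2, ← Real.rpow_mul (by norm_num), ← Real.rpow_natCast, ← Real.rpow_mul (by norm_num),
    ← Real.rpow_add (by norm_num)]
  congr 1
  ring

/-- **all annuli** -/
theorem main0 (q : ℝ) (hq : 3 < q) (hq4 : q < 4) : ∃ C : ℝ≥0, ∀ (f : ℂ → ℂ) (W : ℂ → ℝ≥0∞),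
    HW f W → (∀ x, f x ≠ 0 → ‖x‖ ≤ 1) →
    ∫⁻ t : ℝ, ∫⁻ z, ‖∫ x, f x * epp t z x‖ₑ ^ q ≤ C * ∫⁻ x, W x ^ q := by
  obtain ⟨C1, hC1⟩ := pieceEst q hq hq4
  have hq0 : 0 < q := by linarith
  obtain ⟨C2, hC2⟩ := Pool.Agent.W771.sum_pow q (q - 3) hq0 (by linarith)
  set S : ℝ≥0∞ := ∑' k : ℕ, ENNReal.ofReal (2 ^ (-(q - 3))) ^ k with hS
  have hSt : S ≠ ⊤ := by
    rw [hS, ENNReal.tsum_geometric]
    refine (ENNReal.inv_lt_top.2 (tsub_pos_iff_lt.2 ?_)).ne
    rw [← ENNReal.ofReal_one]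
    apply (ENNReal.ofReal_lt_ofReal_iff one_pos).2
    exact Real.rpow_lt_one_of_one_lt_of_neg (by norm_num) (by linarith)
  refine ⟨(C2 * C1 * S).toNNReal, ?_⟩
  intro f W H hs
  rw [ENNReal.coe_toNNReal (by finiteness)]
  have hsplit : ∀ t z, ‖∫ x, f x * epp t z x‖ₑ ≤ ∑' k, ‖∫ x in ann (wk k), f x * epp t z x‖ₑ := by
    intro t z
    refine annsplit _ fun x hx => hs x ?_
    intro h
    apply hx
    rw [h, zero_mul]
  have h1 : ∫⁻ t : ℝ, ∫⁻ z, ‖∫ x, f x * epp t z x‖ₑ ^ q ≤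
      ∫⁻ t : ℝ, ∫⁻ z, C2 * ∑' k : ℕ, ENNReal.ofReal (2 ^ ((q - 3) * (k : ℝ))) *
        ‖∫ x in ann (wk k), f x * epp t z x‖ₑ ^ q := by
    refine lintegral_mono fun t => lintegral_mono fun z => ?_
    exact (ENNReal.rpow_le_rpow (hsplit t z) hq0.le).trans (hC2 _)
  refine h1.trans ?_
  have h2 := iter_tsum C2 (fun k : ℕ => ENNReal.ofReal (2 ^ ((q - 3) * (k : ℝ))))
    (fun k => ENNReal.ofReal_ne_top)
    (fun k p => ‖∫ x in ann (wk k), f x * epp p.1 p.2 x‖ₑ ^ q)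
    (fun k => (piece_meas f H.meas (ann (wk k))).enorm.pow_const q)
  simp only at h2
  rw [h2]
  have h3 : ∀ k : ℕ, ENNReal.ofReal (2 ^ ((q - 3) * (k : ℝ))) *
      ∫⁻ t : ℝ, ∫⁻ z, ‖∫ x in ann (wk k), f x * epp t z x‖ₑ ^ q ≤
      ENNReal.ofReal (2 ^ (-(q - 3))) ^ k * (C1 * ∫⁻ x, W x ^ q) := by
    intro k
    rw [← wk_pow]
    refine (mul_le_mul_right (hC1 f W (wk k) H (wk_pos k)) _).trans (le_of_eq ?_)
    ring
  calc (C2 : ℝ≥0∞) * ∑' k : ℕ, ENNReal.ofReal (2 ^ ((q - 3) * (k : ℝ))) *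
        ∫⁻ t : ℝ, ∫⁻ z, ‖∫ x in ann (wk k), f x * epp t z x‖ₑ ^ q
      ≤ C2 * ∑' k : ℕ, ENNReal.ofReal (2 ^ (-(q - 3))) ^ k * (C1 * ∫⁻ x, W x ^ q) :=
        mul_le_mul_right (ENNReal.tsum_le_tsum h3) _
    _ = _ := by
        rw [ENNReal.tsum_mul_right, ← hS]
        ring

end Pool.Agent.J6H28.PL
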