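import Mathlib
import Pool.Agent.J6H28.PL.Glob
set_option autoImplicit false

/-! The estimate for all exponents and all centres, in the complex plane. -/

namespace Pool.Agent.J6H28.PL

open MeasureTheory Set Complex Filter
open scoped ENNReal NNReal ComplexConjugate

lemma prodq2 {α : Type*} [MeasurableSpace α] (μ : Measure α) (q₀ q : ℝ) (h1 : 1 < q₀)
    (hq : q₀ < q) (B : α → ℝ≥0∞) (hB : AEMeasurable B μ) :
    (∫⁻ x, B x ∂μ) ^ (q - q₀) * ∫⁻ x, B x ^ q₀ ∂μ ≤
      (μ univ) ^ (q - q₀) * ∫⁻ x, B x ^ q ∂μ := by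
  have hq0 : 0 < q := by linarith
  have hq00 : 0 < q₀ := by linarith
  set X := ∫⁻ x, B x ^ q ∂μ with hX
  set m := μ univ with hm
  have hr : 1 < q / q₀ := by
    rw [lt_div_iff₀ hq00]
    linarith
  have J1 := jen μ q (by linarith) B hB
  have J2 := jen μ (q / q₀) hr (fun x => B x ^ q₀) (hB.pow_const q₀)
  have e1 : ∀ x, (B x ^ q₀) ^ (q / q₀) = B x ^ q := by
    intro x
    rw [← ENNReal.rpow_mul]
    congr 1
    field_simp
  simp_rw [e1] at J2
  have K1 := ENNReal.rpow_le_rpow J1 (z := (q - q₀) / q) (by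
    apply div_nonneg <;> linarith)
  have K2 := ENNReal.rpow_le_rpow J2 (z := q₀ / q) (by positivity)
  rw [← ENNReal.rpow_mul] at K1 K2
  have e2 : q * ((q - q₀) / q) = q - q₀ := by field_simp
  have e3 : q / q₀ * (q₀ / q) = 1 := by field_simp
  rw [e2] at K1
  rw [e3, ENNReal.rpow_one] at K2
  refine (mul_le_mul' K1 K2).trans (le_of_eq ?_)
  rw [ENNReal.mul_rpow_of_nonneg _ _ (by apply div_nonneg <;> linarith),
    ENNReal.mul_rpow_of_nonneg _ _ (by positivity), ← ENNReal.rpow_mul, ← ENNReal.rpow_mul]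
  have e4 : m ^ ((q - 1) * ((q - q₀) / q)) * X ^ ((q - q₀) / q) * (m ^ ((q / q₀ - 1) * (q₀ / q)) *
      X ^ (q₀ / q)) = (m ^ ((q - 1) * ((q - q₀) / q)) * m ^ ((q / q₀ - 1) * (q₀ / q))) *
        (X ^ ((q - q₀) / q) * X ^ (q₀ / q)) := by ring
  rw [e4, ← ENNReal.rpow_add_of_nonneg, ← ENNReal.rpow_add_of_nonneg]
  · have e5 : (q - 1) * ((q - q₀) / q) + (q / q₀ - 1) * (q₀ / q) = q - q₀ := by
      field_simp
      ring
    have e6 : (q - q₀) / q + q₀ / q = 1 := by
      field_simp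
      ring
    rw [e5, e6, ENNReal.rpow_one]
  · apply div_nonneg <;> linarith
  · positivity
  · apply mul_nonneg
    · linarith
    · apply div_nonneg <;> linarith
  · apply mul_nonneg
    · linarith
    · positivity

lemma HW.cut {f : ℂ → ℂ} {W : ℂ → ℝ≥0∞} (H : HW f W) (hs : ∀ x, f x ≠ 0 → ‖x‖ ≤ 1) :
    HW f ((Metric.closedBall (0 : ℂ) 1).indicator W) := by
  refine ⟨H.meas, H.measW.indicator Metric.isClosed_closedBall.measurableSet, ?_⟩
  intro x
  by_cases hx : x ∈ Metric.closedBall (0 : ℂ) 1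
  · rw [indicator_of_mem hx]
    exact H.bound x
  · rw [indicator_of_notMem hx]
    rw [mem_closedBall_zero_iff, not_le] at hx
    have hf : ∀ y : ℂ, 1 < ‖y‖ → f y = 0 := by
      intro y hy
      by_contra hcon
      exact absurd (hs y hcon) (not_le.2 hy)
    rw [hf x hx, enorm_zero, zero_add]
    apply le_of_eq
    apply eVariationOn.constant_on
    have h1 : ∀ s ∈ Icc (1 : ℝ) 2, f (s • x) = 0 := by
      intro s hs1
      apply hf
      rw [norm_smul, Real.norm_eq_abs, abs_of_pos (by linarith [hs1.1])]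
      nlinarith [hs1.1]
    rintro _ ⟨s, hs1, rfl⟩ _ ⟨s', hs2, rfl⟩
    simp only [h1 s hs1, h1 s' hs2]

lemma full_meas (f : ℂ → ℂ) (hf : Measurable f) :
    Measurable (fun p : ℝ × ℂ => ∫ x, f x * epp p.1 p.2 x) := by
  have h2 : StronglyMeasurable (Function.uncurry fun (p : ℝ × ℂ) (x : ℂ) =>
      f x * epp p.1 p.2 x) := by
    apply Measurable.stronglyMeasurable
    have h3 : Continuous (fun p : (ℝ × ℂ) × ℂ => epp p.1.1 p.1.2 p.2) := by
      unfold epp
      have := Complex.continuous_conj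
      fun_prop
    exact (hf.comp measurable_snd).mul h3.measurable
  exact (h2.integral_prod_right (ν := volume)).measurable

lemma full_meas_z (f : ℂ → ℂ) (hf : Measurable f) (t : ℝ) :
    Measurable (fun z : ℂ => ∫ x, f x * epp t z x) := by
  have h2 : StronglyMeasurable (Function.uncurry fun (z : ℂ) (x : ℂ) => f x * epp t z x) := by
    apply Measurable.stronglyMeasurable
    have h3 : Continuous (fun p : ℂ × ℂ => epp t p.1 p.2) := by
      unfold epp
      have := Complex.continuous_conj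
      fun_prop
    exact (hf.comp measurable_snd).mul h3.measurable
  exact (h2.integral_prod_right (ν := volume)).measurable

lemma full_int (f : ℂ → ℂ) (hf : Measurable f) (r : ℝ) (S : ℝ≥0∞) :
    ∫⁻ t : ℝ, ∫⁻ z, S * ‖∫ x, f x * epp t z x‖ₑ ^ r =
      S * ∫⁻ t : ℝ, ∫⁻ z, ‖∫ x, f x * epp t z x‖ₑ ^ r := by
  have h1 : Measurable (fun t : ℝ => ∫⁻ z, ‖∫ x, f x * epp t z x‖ₑ ^ r) :=
    Measurable.lintegral_prod_right' ((full_meas f hf).enorm.pow_const r)
  rw [← lintegral_const_mul _ h1]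
  refine lintegral_congr fun t => ?_
  rw [lintegral_const_mul _ ((full_meas_z f hf t).enorm.pow_const r)]

/-- **all exponents** -/
theorem main1 (q : ℝ) (hq : 3 < q) : ∃ C : ℝ≥0, ∀ (f : ℂ → ℂ) (W : ℂ → ℝ≥0∞),
    HW f W → (∀ x, f x ≠ 0 → ‖x‖ ≤ 1) →
    ∫⁻ t : ℝ, ∫⁻ z, ‖∫ x, f x * epp t z x‖ₑ ^ q ≤ C * ∫⁻ x, W x ^ q := by
  by_cases hq4 : q < 4
  · exact main0 q hq hq4
  push Not at hq4
  obtain ⟨C, hC⟩ := main0 (7 / 2) (by norm_num) (by norm_num)
  set m : ℝ≥0∞ := volume (Metric.closedBall (0 : ℂ) 1) with hm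
  have hmt : m ≠ ⊤ := measure_closedBall_lt_top.ne
  have hmt' : m ^ (q - 7 / 2) ≠ ⊤ := ENNReal.rpow_ne_top_of_nonneg (by linarith) hmt
  refine ⟨(m ^ (q - 7 / 2) * C).toNNReal, ?_⟩
  intro f W H hs
  rw [ENNReal.coe_toNNReal (by finiteness)]
  have hb : MeasurableSet (Metric.closedBall (0 : ℂ) 1) := Metric.isClosed_closedBall.measurableSet
  have H1 := H.cut hs
  have h1 := hC f _ H1 hs
  have e1 : ∀ r : ℝ, 0 < r → ∫⁻ x, (Metric.closedBall (0 : ℂ) 1).indicator W x ^ r =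
      ∫⁻ x in Metric.closedBall (0 : ℂ) 1, W x ^ r := by
    intro r hr
    rw [← lintegral_indicator hb]
    refine lintegral_congr fun x => ?_
    by_cases hx : x ∈ Metric.closedBall (0 : ℂ) 1
    · rw [indicator_of_mem hx, indicator_of_mem hx]
    · rw [indicator_of_notMem hx, indicator_of_notMem hx, ENNReal.zero_rpow_of_pos hr]
  rw [e1 _ (by norm_num)] at h1
  have hsup : ∀ t z, ‖∫ x, f x * epp t z x‖ₑ ≤ ∫⁻ x in Metric.closedBall (0 : ℂ) 1, W x := by
    intro t z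
    refine (enorm_integral_le_lintegral_enorm _).trans ?_
    rw [← lintegral_indicator hb]
    refine lintegral_mono fun x => ?_
    rw [enorm_mul, epp_enorm, mul_one]
    exact le_self_add.trans (H1.bound x)
  set S : ℝ≥0∞ := ∫⁻ x in Metric.closedBall (0 : ℂ) 1, W x with hS
  have hP := prodq2 (volume.restrict (Metric.closedBall (0 : ℂ) 1)) (7 / 2) q (by norm_num)
    (by linarith) W H.measW.aemeasurable
  rw [Measure.restrict_apply MeasurableSet.univ, univ_inter, ← hm] at hP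
  calc ∫⁻ t : ℝ, ∫⁻ z, ‖∫ x, f x * epp t z x‖ₑ ^ q
      ≤ ∫⁻ t : ℝ, ∫⁻ z, S ^ (q - 7 / 2) * ‖∫ x, f x * epp t z x‖ₑ ^ (7 / 2 : ℝ) := by
        refine lintegral_mono fun t => lintegral_mono fun z => ?_
        have e2 : ‖∫ x, f x * epp t z x‖ₑ ^ q = ‖∫ x, f x * epp t z x‖ₑ ^ (q - 7 / 2) *
            ‖∫ x, f x * epp t z x‖ₑ ^ (7 / 2 : ℝ) := by
          rw [← ENNReal.rpow_add_of_nonneg _ _ (by linarith) (by norm_num)]
          congr 1
          ring
        rw [e2]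
        gcongr
        · linarith
        · exact hsup t z
    _ = S ^ (q - 7 / 2) * ∫⁻ t : ℝ, ∫⁻ z, ‖∫ x, f x * epp t z x‖ₑ ^ (7 / 2 : ℝ) := by
        exact full_int f H.meas (7 / 2) _
    _ ≤ S ^ (q - 7 / 2) * (C * ∫⁻ x in Metric.closedBall (0 : ℂ) 1, W x ^ (7 / 2 : ℝ)) := by
        gcongr
    _ = C * (S ^ (q - 7 / 2) * ∫⁻ x in Metric.closedBall (0 : ℂ) 1, W x ^ (7 / 2 : ℝ)) := by ring
    _ ≤ C * (m ^ (q - 7 / 2) * ∫⁻ x in Metric.closedBall (0 : ℂ) 1, W x ^ q) := by gcongr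
    _ ≤ C * (m ^ (q - 7 / 2) * ∫⁻ x, W x ^ q) := by
        gcongr
        exact Measure.restrict_le_self
    _ = _ := by ring

lemma transl (f : ℂ → ℂ) (p z : ℂ) (t : ℝ) :
    ‖∫ x, f x * epp t z x‖ₑ = ‖∫ y, f (p + y) * epp t (z + ((2 * t : ℝ) : ℂ) * p) y‖ₑ := by
  have h1 : ∫ x, f x * epp t z x = epp t z p * ∫ y, f (p + y) *
      epp t (z + ((2 * t : ℝ) : ℂ) * p) y := by
    rw [← integral_add_left_eq_self _ p, ← integral_const_mul]
    refine integral_congr_ae (Eventually.of_forall fun y => ?_)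
    simp only
    have h2 : epp t z (p + y) = epp t z p * epp t (z + ((2 * t : ℝ) : ℂ) * p) y := by
      unfold epp
      rw [← Complex.exp_add]
      congr 1
      have h3 : ‖p + y‖ ^ 2 = ‖p‖ ^ 2 + ‖y‖ ^ 2 + 2 * (p * conj y).re := by
        rw [Complex.sq_norm, Complex.normSq_add, Complex.sq_norm, Complex.sq_norm]
      have h4 : ((z + ((2 * t : ℝ) : ℂ) * p) * conj y).re =
          (z * conj y).re + 2 * t * (p * conj y).re := by
        rw [add_mul, Complex.add_re, mul_assoc, Complex.re_ofReal_mul]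
      have h5 : (z * conj (p + y)).re = (z * conj p).re + (z * conj y).re := by
        rw [map_add, mul_add, Complex.add_re]
      rw [h3, h4, h5]
      push_cast
      ring
    rw [h2]
    ring
  rw [h1, enorm_mul, epp_enorm, one_mul]

/-- **all centres** -/
theorem main2 (q : ℝ) (hq : 3 < q) : ∃ C : ℝ≥0, ∀ (p : ℂ) (f : ℂ → ℂ) (W : ℂ → ℝ≥0∞),
    HW (fun x => f (p + x)) W → (∀ x, f x ≠ 0 → ‖x - p‖ ≤ 1) →
    ∫⁻ t : ℝ, ∫⁻ z, ‖∫ x, f x * epp t z x‖ₑ ^ q ≤ C * ∫⁻ x, W x ^ q := by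
  obtain ⟨C, hC⟩ := main1 q hq
  refine ⟨C, ?_⟩
  intro p f W H hs
  have h1 := hC (fun x => f (p + x)) W H (by
    intro x hx
    have := hs _ hx
    rwa [add_sub_cancel_left] at this)
  refine le_trans (le_of_eq ?_) h1
  refine lintegral_congr fun t => ?_
  rw [← lintegral_add_right_eq_self (fun z => ‖∫ x, f (p + x) * epp t z x‖ₑ ^ q)
    (((2 * t : ℝ) : ℂ) * p)]
  refine lintegral_congr fun z => ?_
  rw [transl f p z t]

end Pool.Agent.J6H28.PL
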