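import Mathlib
import Pool.Agent.J6H28.PL.Main
set_option autoImplicit false

/-! The estimates on `ℝ²` and `ℝ³`. -/

namespace Pool.Agent.J6H28.PL

open MeasureTheory Set Complex Filter
open scoped ENNReal NNReal ComplexConjugate RealInnerProductSpace

abbrev E2 := EuclideanSpace ℝ (Fin 2)
abbrev E3 := EuclideanSpace ℝ (Fin 3)

/-- the paraboloid -/
noncomputable def Ph (x : E2) : E3 := !₂[x 0, x 1, x 0 ^ 2 + x 1 ^ 2]

/-- the extension operator -/
noncomputable def ex (f : E2 → ℂ) (ξ : E3) : ℂ :=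
  ∫ x, Complex.exp (-((⟪Ph x, ξ⟫ : ℝ) : ℂ) * I) * f x

/-- the isometry -/
noncomputable def io : ℂ ≃ₗᵢ[ℝ] E2 := Complex.orthonormalBasisOneI.repr

lemma io_zero (z : ℂ) : io z 0 = z.re := rfl

lemma io_one (z : ℂ) : io z 1 = z.im := rfl

lemma io_lint (F : E2 → ℝ≥0∞) : ∫⁻ x, F x = ∫⁻ z, F (io z) :=
  (io.measurePreserving.lintegral_comp_emb io.toMeasurableEquiv.measurableEmbedding F).symm

lemma io_int (F : E2 → ℂ) : ∫ x, F x = ∫ z, F (io z) :=
  (io.measurePreserving.integral_comp io.toMeasurableEquiv.measurableEmbedding F).symm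

lemma inner_Ph (x : E2) (ξ : E3) :
    ⟪Ph x, ξ⟫ = x 0 * ξ 0 + x 1 * ξ 1 + (x 0 ^ 2 + x 1 ^ 2) * ξ 2 := by
  simp [PiLp.inner_apply, Fin.sum_univ_three, Ph]
  ring

lemma ex_eq (f : E2 → ℂ) (ξ : E3) :
    ex f ξ = ∫ x : ℂ, f (io x) * epp (ξ 2) ((ξ 0 : ℂ) + (ξ 1 : ℂ) * I) x := by
  unfold ex
  rw [io_int]
  refine integral_congr_ae (Eventually.of_forall fun x => ?_)
  simp only
  rw [mul_comm]
  congr 1
  unfold epp
  rw [inner_Ph, io_zero, io_one]
  congr 4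
  have h1 : ‖x‖ ^ 2 = x.re ^ 2 + x.im ^ 2 := by
    rw [Complex.sq_norm, Complex.normSq_apply]
    ring
  have h2 : (((ξ 0 : ℂ) + (ξ 1 : ℂ) * I) * conj x).re = x.re * ξ 0 + x.im * ξ 1 := by
    simp
    ring
  rw [h1, h2]
  ring

/-- the integral over `ℝ³` -/
lemma lintE3 (F : E3 → ℝ≥0∞) (hF : Measurable F) :
    ∫⁻ ξ, F ξ = ∫⁻ t : ℝ, ∫⁻ z : ℂ, F !₂[z.re, z.im, t] := by
  have h1 : ∫⁻ ξ, F ξ = ∫⁻ v : Fin 3 → ℝ, F (WithLp.toLp 2 v) :=
    ((PiLp.volume_preserving_toLp (Fin 3)).lintegral_comp_emb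
      (MeasurableEquiv.toLp 2 (Fin 3 → ℝ)).measurableEmbedding F).symm
  have hm : Measurable (fun v : Fin 3 → ℝ => F (WithLp.toLp 2 v)) :=
    hF.comp (PiLp.volume_preserving_toLp (Fin 3)).measurable
  have hmp := (volume_preserving_piFinSuccAbove (fun _ : Fin 3 => ℝ) 2).symm
  have h2 : ∫⁻ v : Fin 3 → ℝ, F (WithLp.toLp 2 v) =
      ∫⁻ p : ℝ × (Fin 2 → ℝ), F (WithLp.toLp 2
        ((MeasurableEquiv.piFinSuccAbove (fun _ : Fin 3 => ℝ) 2).symm p)) :=
    (hmp.lintegral_comp_emb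
      (MeasurableEquiv.piFinSuccAbove (fun _ : Fin 3 => ℝ) 2).symm.measurableEmbedding _).symm
  have h3 := lintegral_prod (μ := (volume : Measure ℝ)) (ν := (volume : Measure (Fin 2 → ℝ)))
    (fun p : ℝ × (Fin 2 → ℝ) => F (WithLp.toLp 2
        ((MeasurableEquiv.piFinSuccAbove (fun _ : Fin 3 => ℝ) 2).symm p)))
    (hm.comp hmp.measurable).aemeasurable
  rw [h1, h2, Measure.volume_eq_prod, h3]
  refine lintegral_congr fun t => ?_
  rw [← Complex.volume_preserving_equiv_pi.lintegral_comp_emb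
    Complex.measurableEquivPi.measurableEmbedding]
  refine lintegral_congr fun z => ?_
  congr 2
  funext i
  fin_cases i <;> rfl

lemma ex_meas (f : E2 → ℂ) (hf : Measurable f) : Measurable (ex f) := by
  have h2 : StronglyMeasurable (Function.uncurry fun (ξ : E3) (x : E2) =>
      Complex.exp (-((⟪Ph x, ξ⟫ : ℝ) : ℂ) * I) * f x) := by
    apply Measurable.stronglyMeasurable
    have h3 : Continuous (fun p : E3 × E2 => Complex.exp (-((⟪Ph p.2, p.1⟫ : ℝ) : ℂ) * I)) := by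
      simp_rw [inner_Ph]
      fun_prop
    exact h3.measurable.mul (hf.comp measurable_snd)
  exact (h2.integral_prod_right (ν := volume)).measurable

/-- **the estimate on `ℝ³`** -/
theorem finA (q : ℝ) (hq : 3 < q) : ∃ C : ℝ≥0, ∀ (p : E2) (f : E2 → ℂ) (W : E2 → ℝ≥0∞),
    Measurable f → Measurable W → (∀ x, f x ≠ 0 → ‖x - p‖ ≤ 1) →
    (∀ x, ‖f (p + x)‖ₑ + eVariationOn (fun s : ℝ => f (p + s • x)) (Icc 1 2) ≤ W x) →
    ∫⁻ ξ, ‖ex f ξ‖ₑ ^ q ≤ C * ∫⁻ x, W x ^ q := by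
  obtain ⟨C, hC⟩ := main2 q hq
  refine ⟨C, ?_⟩
  intro p f W hf hW hs hb
  rw [lintE3 _ ((ex_meas f hf).enorm.pow_const q), io_lint (fun x => W x ^ q)]
  have hiom : Measurable (io : ℂ → E2) := io.continuous.measurable
  have h1 := hC (io.symm p) (fun z => f (io z)) (fun z => W (io z)) ?_ ?_
  · refine le_trans (le_of_eq ?_) h1
    refine lintegral_congr fun t => lintegral_congr fun z => ?_
    have e0 : (!₂[z.re, z.im, t] : E3) 0 = z.re := rfl
    have e1 : (!₂[z.re, z.im, t] : E3) 1 = z.im := rfl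
    have e2 : (!₂[z.re, z.im, t] : E3) 2 = t := rfl
    rw [ex_eq, e0, e1, e2, Complex.re_add_im]
  · refine ⟨?_, hW.comp hiom, ?_⟩
    · exact hf.comp (hiom.comp (measurable_const.add measurable_id))
    · intro x
      have h2 := hb (io x)
      refine le_trans (le_of_eq ?_) h2
      congr 1
      · rw [map_add, LinearIsometryEquiv.apply_symm_apply]
      · congr 1
        funext s
        rw [map_add, LinearIsometryEquiv.apply_symm_apply, map_smul]
  · intro x hx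
    have h2 := hs (io x) hx
    have e : ‖x - io.symm p‖ = ‖io x - p‖ := by
      rw [← io.norm_map (x - io.symm p), map_sub, LinearIsometryEquiv.apply_symm_apply]
    rw [e]
    exact h2

/-! ### Functions decreasing along rays -/

lemma star_var (φ : ℝ → ℂ)
    (h : ∀ s s' : ℝ, 1 ≤ s → s ≤ s' → ∃ a : ℝ, 0 ≤ a ∧ a ≤ 1 ∧ φ s' = a • φ s) :
    eVariationOn φ (Icc 1 2) ≤ ‖φ 1‖ₑ := by
  apply iSup_le
  rintro ⟨n, ⟨u, hu, hus⟩⟩
  have h1 : ∀ i, edist (φ (u (i + 1))) (φ (u i)) = ENNReal.ofReal (‖φ (u i)‖ - ‖φ (u (i + 1))‖) := by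
    intro i
    obtain ⟨a, ha0, ha1, ha⟩ := h (u i) (u (i + 1)) (hus i).1 (hu (Nat.le_succ i))
    rw [edist_eq_enorm_sub, ← ofReal_norm]
    congr 1
    rw [ha]
    have e1 : a • φ (u i) - φ (u i) = -((1 - a) • φ (u i)) := by
      rw [sub_smul, one_smul]
      ring
    rw [e1, norm_neg, norm_smul, norm_smul, Real.norm_eq_abs, Real.norm_eq_abs,
      abs_of_nonneg (by linarith), abs_of_nonneg ha0]
    ring
  have h2 : ∀ s s' : ℝ, 1 ≤ s → s ≤ s' → ‖φ s'‖ ≤ ‖φ s‖ := by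
    intro s s' hs hss
    obtain ⟨a, ha0, ha1, ha⟩ := h s s' hs hss
    rw [ha, norm_smul, Real.norm_eq_abs, abs_of_nonneg ha0]
    exact mul_le_of_le_one_left (norm_nonneg _) ha1
  simp only
  simp_rw [h1]
  rw [← ENNReal.ofReal_sum_of_nonneg, ← ofReal_norm]
  · apply ENNReal.ofReal_le_ofReal
    have h3 : ∑ i ∈ Finset.range n, (‖φ (u i)‖ - ‖φ (u (i + 1))‖) = ‖φ (u 0)‖ - ‖φ (u n)‖ :=
      Finset.sum_range_sub' (fun i => ‖φ (u i)‖) n
    rw [h3]
    have h4 := h2 1 (u 0) le_rfl (hus 0).1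
    have h5 := norm_nonneg (φ (u n))
    linarith
  · intro i _
    rw [sub_nonneg]
    exact h2 _ _ (hus i).1 (hu (Nat.le_succ i))

theorem finB (q : ℝ) (hq : 3 < q) : ∃ C : ℝ≥0, ∀ (p : E2) (f : E2 → ℂ),
    Measurable f → (∀ x, f x ≠ 0 → ‖x - p‖ ≤ 1) →
    (∀ (x : E2) (s : ℝ), 1 ≤ s → ∃ a : ℝ, 0 ≤ a ∧ a ≤ 1 ∧ f (p + s • x) = a • f (p + x)) →
    ∫⁻ ξ, ‖ex f ξ‖ₑ ^ q ≤ C * ∫⁻ x, ‖f x‖ₑ ^ q := by
  obtain ⟨C, hC⟩ := finA q hq
  have hq0 : 0 < q := by linarith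
  have h2t : (2 : ℝ≥0∞) ^ q ≠ ⊤ := ENNReal.rpow_ne_top_of_nonneg hq0.le (by norm_num)
  refine ⟨((C : ℝ≥0∞) * 2 ^ q).toNNReal, ?_⟩
  intro p f hf hs hstar
  rw [ENNReal.coe_toNNReal (by finiteness)]
  have hm : Measurable (fun x => f (p + x)) := hf.comp (measurable_const.add measurable_id)
  have h1 := hC p f (fun x => 2 * ‖f (p + x)‖ₑ) hf (hm.enorm.const_mul 2) hs (by
    intro x
    rw [two_mul]
    gcongr
    have h2 := star_var (fun s : ℝ => f (p + s • x)) (by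
      intro s s' hs1 hss
      obtain ⟨a, ha0, ha1, ha⟩ := hstar (s • x) (s' / s) (by
        rw [le_div_iff₀ (by linarith)]
        linarith)
      refine ⟨a, ha0, ha1, ?_⟩
      rw [smul_smul, div_mul_cancel₀ _ (by linarith : s ≠ 0)] at ha
      exact ha)
    simpa using h2)
  refine h1.trans (le_of_eq ?_)
  rw [mul_assoc]
  congr 1
  rw [← lintegral_add_left_eq_self (fun x => ‖f x‖ₑ ^ q) p, ← lintegral_const_mul' _ _ h2t]
  refine lintegral_congr fun x => ?_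
  rw [ENNReal.mul_rpow_of_nonneg _ _ hq0.le]

/-! ### Functions with a radial derivative -/

lemma var_deriv (φ φ' : ℝ → ℂ) (hd : ∀ s ∈ Icc (1 : ℝ) 2, HasDerivAt φ (φ' s) s)
    (hm : Measurable φ') : eVariationOn φ (Icc 1 2) ≤ ∫⁻ s in Icc (1 : ℝ) 2, ‖φ' s‖ₑ := by
  by_cases hinf : ∫⁻ s in Icc (1 : ℝ) 2, ‖φ' s‖ₑ = ⊤
  · rw [hinf]; exact le_top
  have hi : IntegrableOn φ' (Icc (1 : ℝ) 2) := ⟨hm.aestronglyMeasurable, Ne.lt_top hinf⟩
  apply iSup_le
  rintro ⟨n, ⟨u, hu, hus⟩⟩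
  simp only
  have h1 : ∀ m : ℕ, ∑ i ∈ Finset.range m, edist (φ (u (i + 1))) (φ (u i)) ≤
      ∫⁻ s in Ioc (u 0) (u m), ‖φ' s‖ₑ := by
    intro m
    induction m with
    | zero => simp
    | succ m ih =>
      rw [Finset.sum_range_succ, ← Ioc_union_Ioc_eq_Ioc (hu (Nat.zero_le m)) (hu (Nat.le_succ m)),
        lintegral_union measurableSet_Ioc]
      · refine add_le_add ih ?_
        have h2 : Icc (u m) (u (m + 1)) ⊆ Icc (1 : ℝ) 2 := by
          intro s hs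
          exact ⟨(hus m).1.trans hs.1, hs.2.trans (hus (m + 1)).2⟩
        have h3 : ∫ s in (u m)..(u (m + 1)), φ' s = φ (u (m + 1)) - φ (u m) := by
          apply intervalIntegral.integral_eq_sub_of_hasDerivAt
          · intro s hs
            rw [uIcc_of_le (hu (Nat.le_succ m))] at hs
            exact hd s (h2 hs)
          · rw [intervalIntegrable_iff_integrableOn_Ioc_of_le (hu (Nat.le_succ m))]
            exact hi.mono_set (Ioc_subset_Icc_self.trans h2)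
        rw [edist_eq_enorm_sub, ← h3, intervalIntegral.integral_of_le (hu (Nat.le_succ m))]
        exact enorm_integral_le_lintegral_enorm _
      · rw [Set.disjoint_left]
        rintro s ⟨_, h4⟩ ⟨h5, _⟩
        exact absurd h4 (not_le.2 h5)
  refine (h1 n).trans (lintegral_mono_set ?_)
  intro s hs
  exact ⟨(hus 0).1.trans hs.1.le, hs.2.trans (hus n).2⟩

lemma lint_smul2 (F : E2 → ℝ≥0∞) (R : ℝ) (hR : 1 ≤ R) : ∫⁻ x, F (R • x) ≤ ∫⁻ x, F x := by
  have hR0 : 0 < R := by linarith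
  rw [io_lint, io_lint (F := F), lint_smul (fun z => F (io z)) R hR0]
  have h1 : (1 : ℝ≥0∞) ≤ ENNReal.ofReal (R ^ 2) := by
    rw [← ENNReal.ofReal_one]
    exact ENNReal.ofReal_le_ofReal (one_le_pow₀ hR)
  refine le_trans (le_of_eq ?_) (le_mul_of_one_le_left bot_le h1)
  refine lintegral_congr fun z => ?_
  rw [← map_smul, Complex.real_smul]

theorem finC (q : ℝ) (hq : 3 < q) : ∃ C : ℝ≥0, ∀ (p : E2) (f g : E2 → ℂ),
    Measurable f → Measurable g → (∀ x, f x ≠ 0 → ‖x - p‖ ≤ 1) →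
    (∀ x : E2, x ≠ 0 → HasDerivAt (fun s : ℝ => f (p + s • x)) (g x) 1) →
    ∫⁻ ξ, ‖ex f ξ‖ₑ ^ q ≤ C * ((∫⁻ x, ‖f x‖ₑ ^ q) + ∫⁻ x, ‖g x‖ₑ ^ q) := by
  obtain ⟨C, hC⟩ := finA q hq
  have hq0 : 0 < q := by linarith
  have h2t : (2 : ℝ≥0∞) ^ (q - 1) ≠ ⊤ := ENNReal.rpow_ne_top_of_nonneg (by linarith) (by norm_num)
  refine ⟨((C : ℝ≥0∞) * 2 ^ (q - 1)).toNNReal, ?_⟩
  intro p f g hf hg hs hder
  rw [ENNReal.coe_toNNReal (by finiteness)]
  have hm : Measurable (fun x => f (p + x)) := hf.comp (measurable_const.add measurable_id)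
  have hgs : Measurable (fun q : E2 × ℝ => g (q.2 • q.1)) :=
    hg.comp (measurable_snd.smul measurable_fst)
  have hgm : Measurable (fun x : E2 => ∫⁻ s in Icc (1 : ℝ) 2, ‖g (s • x)‖ₑ) :=
    Measurable.lintegral_prod_right' (ν := volume.restrict (Icc (1 : ℝ) 2)) hgs.enorm
  have hvar : ∀ x : E2, eVariationOn (fun s : ℝ => f (p + s • x)) (Icc 1 2) ≤
      ∫⁻ s in Icc (1 : ℝ) 2, ‖g (s • x)‖ₑ := by
    intro x
    by_cases hx : x = 0
    · have : eVariationOn (fun s : ℝ => f (p + s • x)) (Icc 1 2) = 0 := by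
        apply eVariationOn.constant_on
        rintro _ ⟨s, _, rfl⟩ _ ⟨s', _, rfl⟩
        simp only [hx, smul_zero]
      rw [this]
      exact bot_le
    · have hgx : Measurable (fun s : ℝ => g (s • x)) := hg.comp (measurable_id.smul_const x)
      have h1 := var_deriv (fun s : ℝ => f (p + s • x)) (fun s => (s⁻¹ : ℝ) • g (s • x)) (by
        intro s hs1
        have hs0 : s ≠ 0 := by linarith [hs1.1]
        have h2 := hder (s • x) (smul_ne_zero hs0 hx)
        have h3 : HasDerivAt (fun r : ℝ => r / s) (s⁻¹) s := by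
          have := (hasDerivAt_id' s).div_const s
          simpa using this
        have h4 : HasDerivAt (fun σ : ℝ => f (p + σ • (s • x))) (g (s • x)) (s / s) := by
          rw [div_self hs0]
          exact h2
        have h5 := HasDerivAt.scomp (h := fun r : ℝ => r / s) s h4 h3
        have h6 : ((fun σ : ℝ => f (p + σ • (s • x))) ∘ fun r : ℝ => r / s) =
            fun r : ℝ => f (p + r • x) := by
          funext r
          simp only [Function.comp]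
          rw [smul_smul, div_mul_cancel₀ _ hs0]
        rw [h6] at h5
        exact h5) (measurable_inv.smul hgx)
      refine h1.trans ?_
      refine setLIntegral_mono hgx.enorm fun s hs1 => ?_
      rw [enorm_smul]
      refine mul_le_of_le_one_left bot_le ?_
      rw [← ofReal_norm, Real.norm_eq_abs, abs_of_pos (by have := hs1.1; positivity),
        ← ENNReal.ofReal_one]
      exact ENNReal.ofReal_le_ofReal (inv_le_one_of_one_le₀ hs1.1)
  have h1 := hC p f (fun x => ‖f (p + x)‖ₑ + ∫⁻ s in Icc (1 : ℝ) 2, ‖g (s • x)‖ₑ) hf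
    (hm.enorm.add hgm) hs (fun x => add_le_add le_rfl (hvar x))
  refine h1.trans ?_
  rw [mul_assoc]
  gcongr
  have h3 : ∀ x : E2, (‖f (p + x)‖ₑ + ∫⁻ s in Icc (1 : ℝ) 2, ‖g (s • x)‖ₑ) ^ q ≤
      2 ^ (q - 1) * (‖f (p + x)‖ₑ ^ q + ∫⁻ s in Icc (1 : ℝ) 2, ‖g (s • x)‖ₑ ^ q) := by
    intro x
    refine (ENNReal.rpow_add_le_mul_rpow_add_rpow _ _ (by linarith)).trans ?_
    gcongr
    have hgx : Measurable (fun s : ℝ => g (s • x)) := hg.comp (measurable_id.smul_const x)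
    have h4 := jen (volume.restrict (Icc (1 : ℝ) 2)) q (by linarith)
      (fun s => ‖g (s • x)‖ₑ) hgx.enorm.aemeasurable
    rw [Measure.restrict_apply MeasurableSet.univ, univ_inter, Real.volume_Icc,
      show (2 : ℝ) - 1 = 1 by norm_num, ENNReal.ofReal_one, ENNReal.one_rpow, one_mul] at h4
    exact h4
  refine (lintegral_mono h3).trans ?_
  rw [lintegral_const_mul' _ _ h2t]
  refine mul_le_mul_right ?_ _
  rw [lintegral_add_left (hm.enorm.pow_const q)]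
  refine add_le_add (le_of_eq ?_) ?_
  · rw [lintegral_add_left_eq_self (fun x => ‖f x‖ₑ ^ q) p]
  · rw [lintegral_lintegral_swap (f := fun (x : E2) (s : ℝ) => ‖g (s • x)‖ₑ ^ q)
      (hgs.enorm.pow_const q).aemeasurable]
    calc ∫⁻ s in Icc (1 : ℝ) 2, ∫⁻ x : E2, ‖g (s • x)‖ₑ ^ q
        ≤ ∫⁻ s in Icc (1 : ℝ) 2, ∫⁻ x : E2, ‖g x‖ₑ ^ q :=
          setLIntegral_mono measurable_const fun s hs1 =>
            lint_smul2 (fun x => ‖g x‖ₑ ^ q) s hs1.1
      _ = ∫⁻ x : E2, ‖g x‖ₑ ^ q := by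
          rw [lintegral_const, Measure.restrict_apply MeasurableSet.univ, univ_inter,
            Real.volume_Icc, show (2 : ℝ) - 1 = 1 by norm_num, ENNReal.ofReal_one, mul_one]

end Pool.Agent.J6H28.PL
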